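import Pool.Agent.H6.LP.Defs
import Pool.Agent.H10.Sar.Mer

/-!
# [H6 LP MID] Number of ideals: limit and upper bound

PROOF. `ix_lim`: `Ideal.tendsto_norm_le_div_atTop₀ K` composed with `tendsto_natCast_atTop_atTop`, `card_IX_eq`; the limit is `dedekindZeta_residue K > 0`. `ix_le`: a convergent sequence is bounded (`Tendsto.bddAbove_range` for `#IX n/n`), `n = 0`: `IX K 0` is empty (`mem_IX'`).
-/

set_option autoImplicit false

namespace Pool.Agent.H6.LP

open Finset NumberField Filter Topology Pool.Agent.H10.Sar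

theorem ix_lim (K : Type) [Field K] [NumberField K] : ∃ κ : ℝ, 0 < κ ∧
    Tendsto (fun n : ℕ => ((IX K n).card : ℝ) / n) atTop (𝓝 κ) := by
  have hpos : 0 < dedekindZeta_residue K := dedekindZeta_residue_pos K
  refine ⟨dedekindZeta_residue K, hpos, ?_⟩
  rw [dedekindZeta_residue_def]
  have ht := (Ideal.tendsto_norm_le_div_atTop₀ K).comp tendsto_natCast_atTop_atTop
  refine ht.congr fun n => ?_
  simp only [Function.comp_apply]
  rw [card_IX_eq]

theorem ix_le (K : Type) [Field K] [NumberField K] : ∃ C : ℝ, 0 < C ∧ ∀ n : ℕ, ((IX K n).card : ℝ) ≤ C * n := by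
  obtain ⟨κ, hκ, h⟩ := ix_lim K
  obtain ⟨C, hC⟩ := h.bddAbove_range
  refine ⟨max C 1, lt_of_lt_of_le one_pos (le_max_right _ _), fun n => ?_⟩
  rcases Nat.eq_zero_or_pos n with rfl | hn
  · have : IX K 0 = ∅ := by
      rw [Finset.eq_empty_iff_forall_notMem]
      intro I hI
      rw [mem_IX'] at hI
      omega
    rw [this]
    simp
  · have hn' : (0 : ℝ) < n := by exact_mod_cast hn
    have h1 : ((IX K n).card : ℝ) / n ≤ C := hC ⟨n, rfl⟩
    rw [div_le_iff₀ hn'] at h1
    exact h1.trans (mul_le_mul_of_nonneg_right (le_max_left _ _) hn'.le)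

end Pool.Agent.H6.LP
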