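import Pool.Agent.H6.LP.Defs
import Pool.Agent.H10.Sar.Mer
import Pool.Agent.H6.LP.MIdC

/-!
# [H6 LP MA1] Asymptotics of the sum of logarithms

PROOF. `A(m) = #IX m`. By induction on `n` `∑_{I in IX n} log N(I) = A(n) log n - ∑_{m=1}^{n-1} A(m) (log (m+1) - log m)`, and `0 <= log (m+1) - log m <= 1/m`, `A(m) <= C m`, so the last sum is between `0` and `C n`. Divide by `n log n`: `A(n)/n -> κ` and `C n/(n log n) -> 0`.
-/

set_option autoImplicit false

namespace Pool.Agent.H6.LP

open Finset NumberField Filter Topology Pool.Agent.H10.Sar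

theorem asy1_succ (K : Type) [Field K] [NumberField K] (n : ℕ) :
    ∑ I ∈ IX K (n + 1), Real.log (Ideal.absNorm I : ℕ) = ∑ I ∈ IX K n, Real.log (Ideal.absNorm I : ℕ) +
      (((IX K (n + 1)).card : ℝ) - (IX K n).card) * Real.log (n + 1 : ℕ) := by
  have hsub : IX K n ⊆ IX K (n + 1) := by
    intro I hI
    rw [mem_IX'] at hI ⊢
    exact ⟨by omega, hI.2⟩
  rw [← Finset.sum_sdiff hsub, add_comm]
  congr 1
  have h1 : ∀ I ∈ IX K (n + 1) \ IX K n, Real.log (Ideal.absNorm I : ℕ) = Real.log (n + 1 : ℕ) := by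
    intro I hI
    rw [Finset.mem_sdiff, mem_IX', mem_IX'] at hI
    have : Ideal.absNorm I = n + 1 := by
      rcases hI with ⟨⟨h1, h2⟩, h3⟩
      by_contra hne
      exact h3 ⟨by omega, h2⟩
    rw [this]
  rw [Finset.sum_congr rfl h1, Finset.sum_const, nsmul_eq_mul, Finset.card_sdiff_of_subset hsub,
    Nat.cast_sub (Finset.card_le_card hsub)]

theorem asy1 (K : Type) [Field K] [NumberField K] (κ : ℝ) (h : Tendsto (fun n : ℕ => ((IX K n).card : ℝ) / n) atTop (𝓝 κ)) :
    Tendsto (fun n : ℕ => (∑ I ∈ IX K n, Real.log (Ideal.absNorm I : ℕ)) / (n * Real.log n)) atTop (𝓝 κ) := by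
  obtain ⟨C, hC, hA⟩ := ix_le K
  have hD : ∀ n : ℕ, 1 ≤ n → 0 ≤ ((IX K n).card : ℝ) * Real.log n - ∑ I ∈ IX K n, Real.log (Ideal.absNorm I : ℕ) ∧
      ((IX K n).card : ℝ) * Real.log n - ∑ I ∈ IX K n, Real.log (Ideal.absNorm I : ℕ) ≤ C * n := by
    intro n hn
    induction n, hn using Nat.le_induction with
    | base =>
      have h1 : ∑ I ∈ IX K 1, Real.log (Ideal.absNorm I : ℕ) = 0 := by
        refine Finset.sum_eq_zero fun I hI => ?_
        rw [mem_IX'] at hI
        rw [le_antisymm hI.1 hI.2]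
        simp
      rw [h1]
      simp only [Nat.cast_one, Real.log_one, mul_zero, sub_zero, le_refl, true_and, mul_one]
      exact hC.le
    | succ n hn ih =>
      have hn' : (0 : ℝ) < n := by exact_mod_cast hn
      rw [asy1_succ]
      have h1 : Real.log n ≤ Real.log ((n + 1 : ℕ) : ℝ) := Real.log_le_log hn' (by push_cast; linarith)
      have h2 : Real.log ((n + 1 : ℕ) : ℝ) - Real.log n ≤ 1 / n := by
        rw [← Real.log_div (by positivity) hn'.ne']
        refine (Real.log_le_sub_one_of_pos (by positivity)).trans (le_of_eq ?_)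
        push_cast
        field_simp
        ring
      have h3 := hA n
      have h4 : (0 : ℝ) ≤ (IX K n).card := by positivity
      have e : ((IX K (n + 1)).card : ℝ) * Real.log ((n + 1 : ℕ) : ℝ) - (∑ I ∈ IX K n, Real.log (Ideal.absNorm I : ℕ) +
          (((IX K (n + 1)).card : ℝ) - (IX K n).card) * Real.log ((n + 1 : ℕ) : ℝ)) =
          (((IX K n).card : ℝ) * Real.log n - ∑ I ∈ IX K n, Real.log (Ideal.absNorm I : ℕ)) +
            (IX K n).card * (Real.log ((n + 1 : ℕ) : ℝ) - Real.log n) := by ring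
      rw [e]
      have h5 : ((IX K n).card : ℝ) * (Real.log ((n + 1 : ℕ) : ℝ) - Real.log n) ≤ C := by
        calc ((IX K n).card : ℝ) * (Real.log ((n + 1 : ℕ) : ℝ) - Real.log n) ≤ C * n * (1 / n) :=
              mul_le_mul h3 h2 (by linarith) (by positivity)
          _ = C := by field_simp
      have h6 : 0 ≤ ((IX K n).card : ℝ) * (Real.log ((n + 1 : ℕ) : ℝ) - Real.log n) := mul_nonneg h4 (by linarith)
      push_cast
      push_cast at h5 h6
      constructor
      · linarith [ih.1]
      · linarith [ih.2]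
  have hlog : Tendsto (fun n : ℕ => Real.log (n : ℝ)) atTop atTop := Real.tendsto_log_atTop.comp tendsto_natCast_atTop_atTop
  have h0 : Tendsto (fun n : ℕ => (((IX K n).card : ℝ) * Real.log n - ∑ I ∈ IX K n, Real.log (Ideal.absNorm I : ℕ)) / (n * Real.log n))
      atTop (𝓝 0) := by
    have h1 : Tendsto (fun n : ℕ => C / Real.log (n : ℝ)) atTop (𝓝 0) := hlog.const_div_atTop C
    refine squeeze_zero' ?_ ?_ h1
    · filter_upwards [eventually_ge_atTop 2] with n hn
      have hl : 0 < Real.log (n : ℝ) := Real.log_pos (by exact_mod_cast (by omega : 1 < n))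
      exact div_nonneg (hD n (by omega)).1 (by positivity)
    · filter_upwards [eventually_ge_atTop 2] with n hn
      have hl : 0 < Real.log (n : ℝ) := Real.log_pos (by exact_mod_cast (by omega : 1 < n))
      have hn' : (0 : ℝ) < n := by exact_mod_cast (by omega : 0 < n)
      rw [div_le_div_iff₀ (by positivity) hl]
      have := (hD n (by omega)).2
      nlinarith
  have h2 := h.sub h0
  rw [sub_zero] at h2
  refine h2.congr' ?_
  filter_upwards [eventually_ge_atTop 2] with n hn
  have hl : 0 < Real.log (n : ℝ) := Real.log_pos (by exact_mod_cast (by omega : 1 < n))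
  have hn' : (0 : ℝ) < n := by exact_mod_cast (by omega : 0 < n)
  field_simp
  ring

end Pool.Agent.H6.LP
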