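import Pool.Agent.H6.LP.Defs
import Pool.Agent.H10.Sar.Mer
import Pool.Agent.H75.AP.MertensA

/-!
# [H6 LP MPL] `∑ log N(P)/N(P)` is at most `C log z`

PROOF. Group the prime ideals by the rational prime `p = pr P` (`pr_spec`, `card_above`: at most `[K:Q]` of them above `p`, and `p <= N(P)`, `N(P) = p` or `p^2 <= N(P)`; `N(P)` is a power of `p`: `Ideal.exists_prime_and_absNorm_eq_pow`, `N(P) = p^f`, `log (p^f)/p^f = f log p/p^f <= log p/p` as `f <= p^(f-1)`). So the sum is at most
`[K:Q] ∑_{p <= z} log p/p <= [K:Q] (log z + C)` (`Pool.Agent.H75.AP.mertens_one`, `PI 0 z` = primes `<= z`) `<= C' log z` for `z >= 2`. `plog_int`: the same for the prime ideals with norm in `(y, z]`, `2 <= y <= z`: those with `N(P) = pr P` contribute `<= [K:Q] ∑_{y < p <= z} log p/p <= [K:Q] (log (z/y) + 2C)`, the others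
(`p^2 <= N(P)`) at most `[K:Q] ∑_p ∑_{f>=2} f log p/p^f <= C`.
-/

set_option autoImplicit false

namespace Pool.Agent.H6.LP

open Finset NumberField Filter Topology Pool.Agent.H10.Sar

/-- grouping by the rational prime -/
private theorem grp {K : Type} [Field K] [NumberField K] {z : ℕ} (T : Finset (Ideal (𝓞 K)))
    (hT : T ⊆ PX K z) (R : Finset ℕ) (hR : ∀ P ∈ T, pr P ∈ R) (g : Ideal (𝓞 K) → ℝ) (G : ℕ → ℝ)
    (hG : ∀ p ∈ R, 0 ≤ G p) (hg : ∀ P ∈ T, g P ≤ G (pr P)) :
    ∑ P ∈ T, g P ≤ (Module.finrank ℤ (𝓞 K) : ℝ) * ∑ p ∈ R, G p := by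
  classical
  rw [← Finset.sum_fiberwise_of_maps_to hR, Finset.mul_sum]
  refine Finset.sum_le_sum fun p hp => ?_
  rcases Finset.eq_empty_or_nonempty (T.filter (fun P => pr P = p)) with he | hne
  · rw [he, Finset.sum_empty]
    exact mul_nonneg (Nat.cast_nonneg _) (hG p hp)
  · obtain ⟨P0, hP0⟩ := hne
    rw [Finset.mem_filter] at hP0
    have hP0' := mem_PX.1 (hT hP0.1)
    have hpp : p.Prime := by
      have := (pr_spec hP0'.1.2 hP0'.2).1
      rwa [hP0.2] at this
    have hcard : (T.filter (fun P => pr P = p)).card ≤ Module.finrank ℤ (𝓞 K) := by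
      refine card_above hpp _ ?_
      intro P hP
      rw [Finset.mem_filter] at hP
      have hP' := mem_PX.1 (hT hP.1)
      exact ⟨hP'.1.2, hP'.2, hP.2⟩
    have h1 : ∀ P ∈ T.filter (fun P => pr P = p), g P ≤ G p := by
      intro P hP
      rw [Finset.mem_filter] at hP
      have := hg P hP.1
      rwa [hP.2] at this
    refine (Finset.sum_le_sum h1).trans ?_
    rw [Finset.sum_const, nsmul_eq_mul]
    exact mul_le_mul_of_nonneg_right (by exact_mod_cast hcard) (hG p hp)

private theorem log_q {N : ℝ} (hN : 1 ≤ N) : Real.log N ≤ 4 * N ^ (1 / 4 : ℝ) := by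
  have h := Real.log_le_rpow_div (x := N) (ε := 1 / 4) (by linarith) (by norm_num)
  have h1 : N ^ (1 / 4 : ℝ) / (1 / 4) = 4 * N ^ (1 / 4 : ℝ) := by ring
  rw [h1] at h
  exact h

/-- the contribution of large norms -/
private theorem log_big {N p : ℝ} (hp : 1 ≤ p) (hN : p ^ 2 ≤ N) :
    Real.log N / N ≤ 4 * (1 / p ^ (3 / 2 : ℝ)) := by
  have hN1 : 1 ≤ N := by nlinarith
  have hN0 : 0 < N := by linarith
  have h1 := log_q hN1
  have h2 : Real.log N / N ≤ 4 * N ^ (1 / 4 : ℝ) / N := div_le_div_of_nonneg_right h1 hN0.le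
  refine h2.trans ?_
  have h3 : 4 * N ^ (1 / 4 : ℝ) / N = 4 * (1 / N ^ (3 / 4 : ℝ)) := by
    have h4 : N = N ^ (1 / 4 : ℝ) * N ^ (3 / 4 : ℝ) := by
      rw [← Real.rpow_add hN0]
      norm_num
    have h5 : 0 < N ^ (1 / 4 : ℝ) := Real.rpow_pos_of_pos hN0 _
    have h6 : 0 < N ^ (3 / 4 : ℝ) := Real.rpow_pos_of_pos hN0 _
    rw [mul_div_assoc]
    congr 1
    rw [div_eq_div_iff hN0.ne' h6.ne', one_mul]
    exact h4.symm
  rw [h3]
  have h7 : p ^ (3 / 2 : ℝ) ≤ N ^ (3 / 4 : ℝ) := by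
    have h8 : p ^ (3 / 2 : ℝ) = (p ^ 2) ^ (3 / 4 : ℝ) := by
      rw [← Real.rpow_natCast, ← Real.rpow_mul (by linarith)]
      norm_num
    rw [h8]
    exact Real.rpow_le_rpow (by positivity) hN (by norm_num)
  have h9 : 0 < p ^ (3 / 2 : ℝ) := Real.rpow_pos_of_pos (by linarith) _
  have h10 := one_div_le_one_div_of_le h9 h7
  linarith

private theorem sum32 : ∃ B : ℝ, 0 < B ∧ ∀ R : Finset ℕ, ∑ p ∈ R, 4 * (1 / (p : ℝ) ^ (3 / 2 : ℝ)) ≤ B := by
  have h1 : Summable (fun n : ℕ => 4 * (1 / (n : ℝ) ^ (3 / 2 : ℝ))) :=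
    (Real.summable_one_div_nat_rpow.2 (by norm_num)).mul_left 4
  have h0 : 0 ≤ ∑' n : ℕ, 4 * (1 / (n : ℝ) ^ (3 / 2 : ℝ)) :=
    tsum_nonneg fun n => by positivity
  refine ⟨(∑' n : ℕ, 4 * (1 / (n : ℝ) ^ (3 / 2 : ℝ))) + 1, by linarith, fun R => ?_⟩
  have h2 := h1.sum_le_tsum R (fun n _ => by positivity)
  linarith

theorem plog_int (K : Type) [Field K] [NumberField K] : ∃ C : ℝ, 0 < C ∧ ∀ y z : ℕ, 1 ≤ y → y ≤ z →
    ∑ P ∈ (PX K z).filter (fun P => y < Ideal.absNorm P), Real.log (Ideal.absNorm P : ℕ) / ((Ideal.absNorm P : ℕ) : ℝ) ≤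
      C * (1 + Real.log ((z : ℝ) / y)) := by
  classical
  obtain ⟨C0, hC0, hmer⟩ := Pool.Agent.H75.AP.mertens_one
  obtain ⟨B, hB, hB'⟩ := sum32
  obtain ⟨D, hD⟩ : ∃ D : ℝ, D = (Module.finrank ℤ (𝓞 K) : ℝ) := ⟨_, rfl⟩
  have hD0 : 0 ≤ D := by rw [hD]; exact Nat.cast_nonneg _
  refine ⟨D * (1 + 2 * C0 + B) + 1, by positivity, fun y z hy hyz => ?_⟩
  have hy0 : (0 : ℝ) < y := by exact_mod_cast hy
  have hyz' : (y : ℝ) ≤ z := by exact_mod_cast hyz
  have hl : 0 ≤ Real.log ((z : ℝ) / y) := Real.log_nonneg (by rw [le_div_iff₀ hy0]; linarith)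
  have hsplit := Finset.sum_filter_add_sum_filter_not
    ((PX K z).filter (fun P => y < Ideal.absNorm P)) (fun P => Ideal.absNorm P = pr P)
    (fun P => Real.log (Ideal.absNorm P : ℕ) / ((Ideal.absNorm P : ℕ) : ℝ))
  rw [← hsplit]
  have hsub : ∀ T : Finset (Ideal (𝓞 K)), T ⊆ (PX K z).filter (fun P => y < Ideal.absNorm P) →
      T ⊆ PX K z := fun T hT => hT.trans (Finset.filter_subset _ _)
  -- norm a prime
  have h1 : ∑ P ∈ ((PX K z).filter (fun P => y < Ideal.absNorm P)).filter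
      (fun P => Ideal.absNorm P = pr P), Real.log (Ideal.absNorm P : ℕ) / ((Ideal.absNorm P : ℕ) : ℝ) ≤
      D * (Real.log ((z : ℝ) / y) + 2 * C0) := by
    have h2 := grp (K := K) (z := z) (((PX K z).filter (fun P => y < Ideal.absNorm P)).filter
      (fun P => Ideal.absNorm P = pr P)) (hsub _ (Finset.filter_subset _ _))
      (Pool.Agent.H75.AP.PI 0 z \ Pool.Agent.H75.AP.PI 0 y) (by
        intro P hP
        rw [Finset.mem_filter, Finset.mem_filter] at hP
        obtain ⟨⟨hP1, hP2⟩, hP3⟩ := hP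
        have hP' := mem_PX.1 hP1
        have hs := pr_spec hP'.1.2 hP'.2
        rw [Finset.mem_sdiff]
        unfold Pool.Agent.H75.AP.PI
        rw [Finset.mem_filter, Finset.mem_filter, Finset.mem_range, Finset.mem_range,
          Nat.floor_natCast, Nat.floor_natCast]
        refine ⟨⟨?_, hs.1, by exact_mod_cast hs.1.pos⟩, ?_⟩
        · have := hs.2.2.2.trans hP'.1.1
          omega
        · rintro ⟨h3, -⟩
          rw [hP3] at hP2
          omega)
      (fun P => Real.log (Ideal.absNorm P : ℕ) / ((Ideal.absNorm P : ℕ) : ℝ))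
      (fun p => Real.log p / p) (fun p _ => by
        exact div_nonneg (Real.log_natCast_nonneg p) (Nat.cast_nonneg p)) (by
        intro P hP
        rw [Finset.mem_filter] at hP
        rw [hP.2])
    refine h2.trans ?_
    rw [← hD]
    refine mul_le_mul_of_nonneg_left ?_ hD0
    have h3 : Pool.Agent.H75.AP.PI 0 y ⊆ Pool.Agent.H75.AP.PI 0 z := by
      intro p hp
      unfold Pool.Agent.H75.AP.PI at hp ⊢
      rw [Finset.mem_filter, Finset.mem_range, Nat.floor_natCast] at hp ⊢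
      exact ⟨by omega, hp.2⟩
    have h4 := Finset.sum_sdiff (f := fun p : ℕ => Real.log p / p) h3
    have h5 := hmer z (by exact_mod_cast hy.trans hyz)
    have h6 := hmer y (by exact_mod_cast hy)
    rw [abs_le] at h5 h6
    rw [Real.log_div (by linarith) hy0.ne']
    linarith [h5.2, h6.1]
  -- norm a higher power
  have h2 : ∑ P ∈ ((PX K z).filter (fun P => y < Ideal.absNorm P)).filter
      (fun P => ¬ Ideal.absNorm P = pr P), Real.log (Ideal.absNorm P : ℕ) / ((Ideal.absNorm P : ℕ) : ℝ) ≤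
      D * B := by
    have h3 := grp (K := K) (z := z) (((PX K z).filter (fun P => y < Ideal.absNorm P)).filter
      (fun P => ¬ Ideal.absNorm P = pr P)) (hsub _ (Finset.filter_subset _ _))
      (Finset.range (z + 1)) (by
        intro P hP
        rw [Finset.mem_filter, Finset.mem_filter] at hP
        have hP' := mem_PX.1 hP.1.1
        have hs := pr_spec hP'.1.2 hP'.2
        have := hs.2.2.2.trans hP'.1.1
        rw [Finset.mem_range]
        omega)
      (fun P => Real.log (Ideal.absNorm P : ℕ) / ((Ideal.absNorm P : ℕ) : ℝ))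
      (fun p => 4 * (1 / (p : ℝ) ^ (3 / 2 : ℝ))) (fun p _ => by positivity) (by
        intro P hP
        rw [Finset.mem_filter, Finset.mem_filter] at hP
        have hP' := mem_PX.1 hP.1.1
        have hs := pr_spec hP'.1.2 hP'.2
        have h4 : pr P ^ 2 ≤ Ideal.absNorm P := by
          rcases hs.2.2.1 with h | h
          · exact absurd h hP.2
          · exact h
        exact log_big (by exact_mod_cast hs.1.one_le) (by exact_mod_cast h4))
    refine h3.trans ?_
    rw [← hD]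
    exact mul_le_mul_of_nonneg_left (hB' _) hD0
  have h3 : D * (Real.log ((z : ℝ) / y) + 2 * C0) + D * B ≤
      (D * (1 + 2 * C0 + B) + 1) * (1 + Real.log ((z : ℝ) / y)) := by
    have h4 : 0 ≤ D * Real.log ((z : ℝ) / y) := mul_nonneg hD0 hl
    have h5 : 0 ≤ D * (2 * C0 + B) * Real.log ((z : ℝ) / y) := by positivity
    nlinarith
  linarith

theorem plog (K : Type) [Field K] [NumberField K] : ∃ C : ℝ, 0 < C ∧ ∀ z : ℕ, 2 ≤ z →
    ∑ P ∈ PX K z, Real.log (Ideal.absNorm P : ℕ) / ((Ideal.absNorm P : ℕ) : ℝ) ≤ C * Real.log z := by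
  classical
  obtain ⟨C, hC, h⟩ := plog_int K
  have hl2 : 0 < Real.log 2 := Real.log_pos (by norm_num)
  refine ⟨C * (1 / Real.log 2 + 1), by positivity, fun z hz => ?_⟩
  have h1 := h 1 z le_rfl (by omega)
  have h2 : (PX K z).filter (fun P => 1 < Ideal.absNorm P) = PX K z := by
    rw [Finset.filter_eq_self]
    intro P hP
    have hP' := mem_PX.1 hP
    exact two_le_absNorm hP'.1.2 hP'.2
  rw [h2, Nat.cast_one, div_one] at h1
  refine h1.trans ?_
  rw [mul_assoc]
  refine mul_le_mul_of_nonneg_left ?_ hC.le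
  have h3 : Real.log 2 ≤ Real.log z := Real.log_le_log (by norm_num) (by exact_mod_cast hz)
  have h4 : 1 ≤ 1 / Real.log 2 * Real.log z := by
    rw [one_div, inv_mul_eq_div, le_div_iff₀ hl2]
    linarith
  linarith

/-- the powers `N(P)^j`, `j ≥ 2`, contribute a bounded amount -/
theorem plog_pow (K : Type) [Field K] [NumberField K] : ∃ C : ℝ, 0 < C ∧ ∀ z m : ℕ,
    ∑ P ∈ PX K z, ∑ j ∈ Icc 2 m, Real.log (Ideal.absNorm P : ℕ) / ((Ideal.absNorm P : ℕ) : ℝ) ^ j ≤ C := by
  classical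
  obtain ⟨B, hB, hB'⟩ := sum32
  obtain ⟨D, hD⟩ : ∃ D : ℝ, D = (Module.finrank ℤ (𝓞 K) : ℝ) := ⟨_, rfl⟩
  have hD0 : 0 ≤ D := by rw [hD]; exact Nat.cast_nonneg _
  refine ⟨D * (2 * B) + 1, by positivity, fun z m => ?_⟩
  have h3 := grp (K := K) (z := z) (PX K z) (Finset.Subset.refl _)
      (Finset.range (z + 1)) (by
        intro P hP
        have hP' := mem_PX.1 hP
        have hs := pr_spec hP'.1.2 hP'.2
        have := hs.2.2.2.trans hP'.1.1
        rw [Finset.mem_range]
        omega)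
      (fun P => ∑ j ∈ Icc 2 m, Real.log (Ideal.absNorm P : ℕ) / ((Ideal.absNorm P : ℕ) : ℝ) ^ j)
      (fun p => 2 * (4 * (1 / (p : ℝ) ^ (3 / 2 : ℝ)))) (fun p _ => by positivity) (by
        intro P hP
        have hP' := mem_PX.1 hP
        have hs := pr_spec hP'.1.2 hP'.2
        have h4 : pr P ≤ Ideal.absNorm P := hs.2.2.2
        have h2N := two_le_absNorm hP'.1.2 hP'.2
        obtain ⟨N, hN⟩ : ∃ N : ℝ, N = ((Ideal.absNorm P : ℕ) : ℝ) := ⟨_, rfl⟩
        have hN2 : 2 ≤ N := by rw [hN]; exact_mod_cast h2N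
        have hN0 : 0 < N := by linarith
        have hpN : ((pr P : ℕ) : ℝ) ≤ N := by rw [hN]; exact_mod_cast h4
        have hp1 : (1 : ℝ) ≤ ((pr P : ℕ) : ℝ) := by exact_mod_cast hs.1.one_le
        rw [← hN]
        have hgeo : ∀ m : ℕ, ∑ j ∈ Icc 2 m, Real.log N / N ^ j ≤ 2 * (Real.log N / N ^ 2) := by
          intro m
          have hlN : 0 ≤ Real.log N := Real.log_nonneg (by linarith)
          have h5 : ∀ m : ℕ, 1 ≤ m → ∑ j ∈ Icc 2 m, Real.log N / N ^ j ≤
              2 * (Real.log N / N ^ 2) - 2 * (Real.log N / N ^ (m + 1)) := by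
            intro m hm
            induction m, hm using Nat.le_induction with
            | base => simp
            | succ m hm ih =>
              rw [Finset.sum_Icc_succ_top (by omega)]
              have h6 : 2 * (Real.log N / N ^ (m + 1 + 1)) ≤ Real.log N / N ^ (m + 1) := by
                rw [pow_succ N (m + 1), ← div_div, mul_div_assoc', div_le_iff₀ hN0, mul_comm 2]
                exact mul_le_mul_of_nonneg_left hN2 (by positivity)
              linarith
          rcases Nat.eq_zero_or_pos m with rfl | hm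
          · simp only [Finset.Icc_eq_empty_of_lt (show (0 : ℕ) < 2 by norm_num), Finset.sum_empty]
            positivity
          · have h7 := h5 m hm
            have h8 : 0 ≤ Real.log N / N ^ (m + 1) := by positivity
            linarith
        refine (hgeo m).trans ?_
        refine mul_le_mul_of_nonneg_left ?_ (by norm_num)
        have h9 := log_big hp1 (N := N ^ 2) (by nlinarith)
        rw [Real.log_pow] at h9
        push_cast at h9
        have h10 : Real.log N / N ^ 2 ≤ 2 * Real.log N / N ^ 2 := by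
          refine div_le_div_of_nonneg_right ?_ (by positivity)
          have : 0 ≤ Real.log N := Real.log_nonneg (by linarith)
          linarith
        linarith)
  refine h3.trans ?_
  rw [← hD, ← Finset.mul_sum]
  have h4 := hB' (Finset.range (z + 1))
  have h5 : D * (2 * ∑ p ∈ Finset.range (z + 1), 4 * (1 / (p : ℝ) ^ (3 / 2 : ℝ))) ≤ D * (2 * B) :=
    mul_le_mul_of_nonneg_left (by linarith) hD0
  linarith

end Pool.Agent.H6.LP
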