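import Pool.Agent.H6.LP.Defs
import Pool.Agent.H10.Sar.Mer

/-!
# [H6 LP MSL] The sum of the logarithms of the norms

PROOF. For `I in IX n`: `I = ∏_{P in PX n} P^(v_P(I))`, `v_P(I) = (normalizedFactors I).count P` (`prod_pow_count`), so `log N(I) = ∑_{P in PX n} v_P(I) log N(P)`, and `v_P(I) = #{j in Icc 1 n : P^j | I}` (`v_P(I) <= n` by `count_lt`; `P^j | I` iff `j <= v_P(I)`). Exchange the sums: `#{I in IX n : P^j | I} = #IX (n / N(P)^j)`: the map `J ↦ P^j J` is a
bijection from `IX (n / N(P)^j)` (norms: `N(P^j J) = N(P)^j N(J) <= n` iff `N(J) <= n / N(P)^j`, `Nat.le_div_iff_mul_le`).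
-/

set_option autoImplicit false

namespace Pool.Agent.H6.LP

open Finset NumberField Filter Topology Pool.Agent.H10.Sar

private theorem pow_dvd_iff {K : Type} [Field K] [NumberField K] [DecidableEq (Ideal (𝓞 K))]
    {P I : Ideal (𝓞 K)} (hP0 : P ≠ ⊥) (hP : P.IsPrime) (hI : I ≠ ⊥) (j : ℕ) :
    P ^ j ∣ I ↔ j ≤ (UniqueFactorizationMonoid.normalizedFactors I).count P := by
  have hpr : Prime P := (Ideal.prime_iff_isPrime hP0).2 hP
  rw [pow_dvd_iff_le_emultiplicity,
    UniqueFactorizationMonoid.emultiplicity_eq_count_normalizedFactors hpr.irreducible hI,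
    normalize_eq]
  exact Nat.cast_le

theorem sum_log (K : Type) [Field K] [NumberField K] (n : ℕ) :
    ∑ I ∈ IX K n, Real.log (Ideal.absNorm I : ℕ) =
      ∑ P ∈ PX K n, ∑ j ∈ Icc 1 n, Real.log (Ideal.absNorm P : ℕ) * ((IX K (n / Ideal.absNorm P ^ j)).card : ℝ) := by
  classical
  have h1 : ∀ I ∈ IX K n, Real.log (Ideal.absNorm I : ℕ) = ∑ P ∈ PX K n, ∑ j ∈ Icc 1 n,
      (if P ^ j ∣ I then Real.log (Ideal.absNorm P : ℕ) else 0) := by
    intro I hI
    have hI0 := (mem_IX.1 hI).2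
    have h2 : Real.log (Ideal.absNorm I : ℕ) = ∑ P ∈ PX K n,
        ((UniqueFactorizationMonoid.normalizedFactors I).count P : ℝ) *
          Real.log (Ideal.absNorm P : ℕ) := by
      conv_lhs => rw [← prod_pow_count hI]
      rw [map_prod, Nat.cast_prod, Real.log_prod]
      · refine Finset.sum_congr rfl fun P _ => ?_
        rw [map_pow, Nat.cast_pow, Real.log_pow]
      · intro P hP
        rw [map_pow, Nat.cast_pow]
        have hP' := mem_PX.1 hP
        have h3 := two_le_absNorm hP'.1.2 hP'.2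
        have h4 : (0 : ℝ) < ((Ideal.absNorm P : ℕ) : ℝ) := by
          exact_mod_cast (by omega : 0 < Ideal.absNorm P)
        positivity
    rw [h2]
    refine Finset.sum_congr rfl fun P hP => ?_
    have hP' := mem_PX.1 hP
    rw [← Finset.sum_filter, Finset.sum_const, nsmul_eq_mul]
    congr 2
    have h3 : (Icc 1 n).filter (fun j => P ^ j ∣ I) =
        Icc 1 ((UniqueFactorizationMonoid.normalizedFactors I).count P) := by
      ext j
      rw [Finset.mem_filter, Finset.mem_Icc, Finset.mem_Icc, pow_dvd_iff hP'.1.2 hP'.2 hI0]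
      have h4 := count_lt hI hP
      constructor
      · rintro ⟨⟨h5, h6⟩, h7⟩
        exact ⟨h5, h7⟩
      · rintro ⟨h5, h6⟩
        exact ⟨⟨h5, by omega⟩, h6⟩
    rw [h3, Nat.card_Icc, Nat.add_sub_cancel]
  rw [Finset.sum_congr rfl h1, Finset.sum_comm]
  refine Finset.sum_congr rfl fun P hP => ?_
  rw [Finset.sum_comm]
  refine Finset.sum_congr rfl fun j _ => ?_
  rw [← Finset.sum_filter, Finset.sum_const, nsmul_eq_mul, mul_comm]
  congr 2
  have hP' := mem_PX.1 hP
  have hN := two_le_absNorm hP'.1.2 hP'.2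
  have hPj : P ^ j ≠ 0 := pow_ne_zero _ hP'.1.2
  have hNj : 0 < Ideal.absNorm P ^ j := pow_pos (by omega) _
  symm
  refine Finset.card_bij (fun J _ => P ^ j * J) ?_ ?_ ?_
  · intro J hJ
    rw [mem_IX] at hJ
    rw [Finset.mem_filter, mem_IX]
    refine ⟨⟨?_, mul_ne_zero hPj hJ.2⟩, dvd_mul_right _ _⟩
    rw [map_mul, map_pow, mul_comm]
    exact (Nat.le_div_iff_mul_le hNj).1 hJ.1
  · intro J _ J' _ h
    exact mul_left_cancel₀ hPj h
  · intro I hI
    rw [Finset.mem_filter, mem_IX] at hI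
    obtain ⟨⟨h2, h3⟩, J, hJ⟩ := hI
    refine ⟨J, ?_, hJ.symm⟩
    rw [mem_IX]
    refine ⟨?_, ?_⟩
    · rw [Nat.le_div_iff_mul_le hNj, mul_comm, ← map_pow, ← map_mul, ← hJ]
      exact h2
    · rintro rfl
      apply h3
      rw [hJ]
      exact mul_zero _

end Pool.Agent.H6.LP
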