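import Pool.Agent.H6.LP.Defs
import Pool.Agent.H10.Sar.Mer
import Pool.Agent.H6.LP.MIdC
import Pool.Agent.H6.LP.MPlg
import Pool.Agent.H6.LP.MSlg
import Pool.Agent.H6.LP.MAs1

/-!
# [H6 LP MA2] First Mertens theorem for prime ideals, with `o(log)`

PROOF. Let `A(m) = #IX m`, `A(m) <= C m`, `A(m)/m -> κ > 0`, `S(n) = ∑_{P in PX n} log N(P)/N(P)`. By `sum_log` the sum of the logarithms is `L(n) = ∑_P log N(P) A(n/N(P)) + ∑_P ∑_{j>=2} log N(P) A(n/N(P)^j)`; the second part is between `0` and `C n ∑∑_{j>=2} log N(P)/N(P)^j <= C' n` (`plog_pow`; `A(n/N^j) <= C n/N^j`).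
Let `ε > 0`; there is `T >= 1` with `|A(m) - κ m| <= ε m` for `m >= T`, so for `N <= n/T` (then `m = ⌊n/N⌋ >= T` and `|m - n/N| <= 1`): `|A(⌊n/N⌋) - κ n/N| <= ε n/N + κ`. For `n/T < N <= n`: `|A - κ n/N| <= (C+κ) n/N`. Hence
`|∑_P log N(P) A(n/N(P)) - κ n S(n)| <= ε n S(n) + κ ∑_{P in PX n, N(P) <= n/T} log N(P) + (C+κ) n ∑_{n/T < N(P) <= n} log N(P)/N(P)`. The second term: `∑_{N(P) <= n/T} log N(P) <= (n/T) S(n)` (as `log N <= (n/T) log N/N` for `N <= n/T`), so at most `κ n S(n)/T`; take `T >= 1/ε` too. The third: `plog_int` with `y = ⌊n/T⌋` (`n >= 2T`):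
`<= C'' n (1 + log (2T))`. With `S(n) <= C log n` (`plog`) everything divided by `n log n` is at most `(1+κ) C ε + o(1)`. So `L(n)/(n log n) - κ S(n)/log n -> 0`, and `L(n)/(n log n) -> κ` (`asy1`): `S(n)/log n -> 1`.
-/

set_option autoImplicit false

namespace Pool.Agent.H6.LP

open Finset NumberField Filter Topology Pool.Agent.H10.Sar

theorem slim_fin (K : Type) [Field K] [NumberField K] (κ ε C1 C3 C4 : ℝ) (hκ : 0 < κ) (hε : 0 < ε) (hC1 : 0 < C1) (hC3 : 0 < C3)
    (h1 : ∀ n : ℕ, ((IX K n).card : ℝ) ≤ C1 * n)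
    (h3 : ∀ y z : ℕ, 1 ≤ y → y ≤ z →
      ∑ P ∈ (PX K z).filter (fun P => y < Ideal.absNorm P), Real.log (Ideal.absNorm P : ℕ) / ((Ideal.absNorm P : ℕ) : ℝ) ≤
      C3 * (1 + Real.log ((z : ℝ) / y)))
    (h4 : ∀ z m : ℕ, ∑ P ∈ PX K z, ∑ j ∈ Icc 2 m, Real.log (Ideal.absNorm P : ℕ) / ((Ideal.absNorm P : ℕ) : ℝ) ^ j ≤ C4)
    (T : ℕ) (hT : 1 ≤ T) (hκT : κ ≤ ε * T) (hA : ∀ m : ℕ, T ≤ m → |((IX K m).card : ℝ) - κ * m| ≤ ε * m)
    (n : ℕ) (hn : T ≤ n) :
    |∑ I ∈ IX K n, Real.log (Ideal.absNorm I : ℕ) - κ * n * ∑ P ∈ PX K n, Real.log (Ideal.absNorm P : ℕ) / ((Ideal.absNorm P : ℕ) : ℝ)| ≤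
      2 * ε * n * (∑ P ∈ PX K n, Real.log (Ideal.absNorm P : ℕ) / ((Ideal.absNorm P : ℕ) : ℝ)) +
        (C1 + κ) * n * (C3 * (1 + Real.log (2 * T))) + C1 * n * C4 := by
  have hn0 : 1 ≤ n := hT.trans hn
  have hnR : (0 : ℝ) < n := by exact_mod_cast (by omega : 0 < n)
  have hTR : (0 : ℝ) < T := by exact_mod_cast (by omega : 0 < T)
  have hN : ∀ P ∈ PX K n, (2 : ℝ) ≤ Ideal.absNorm P ∧ Ideal.absNorm P ≤ n ∧ 2 ≤ Ideal.absNorm P := by
    intro P hP
    rw [mem_PX] at hP
    have := two_le_absNorm hP.1.2 hP.2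
    exact ⟨by exact_mod_cast this, hP.1.1, this⟩
  have hlog : ∀ P ∈ PX K n, 0 ≤ Real.log (Ideal.absNorm P : ℕ) := fun P hP => Real.log_nonneg (by linarith [(hN P hP).1])
  have hdec : ∑ I ∈ IX K n, Real.log (Ideal.absNorm I : ℕ) =
      ∑ P ∈ PX K n, Real.log (Ideal.absNorm P : ℕ) * ((IX K (n / Ideal.absNorm P)).card : ℝ) +
      ∑ P ∈ PX K n, ∑ j ∈ Icc 2 n, Real.log (Ideal.absNorm P : ℕ) * ((IX K (n / Ideal.absNorm P ^ j)).card : ℝ) := by
    rw [sum_log, ← Finset.sum_add_distrib]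
    refine Finset.sum_congr rfl fun P _ => ?_
    have h5 : Icc 1 n = insert 1 (Icc 2 n) := by
      ext j
      simp only [Finset.mem_insert, Finset.mem_Icc]
      omega
    rw [h5, Finset.sum_insert (by simp), pow_one]
  have hR0 : 0 ≤ ∑ P ∈ PX K n, ∑ j ∈ Icc 2 n, Real.log (Ideal.absNorm P : ℕ) * ((IX K (n / Ideal.absNorm P ^ j)).card : ℝ) :=
    Finset.sum_nonneg fun P hP => Finset.sum_nonneg fun j _ => mul_nonneg (hlog P hP) (by positivity)
  have hR1 : ∑ P ∈ PX K n, ∑ j ∈ Icc 2 n, Real.log (Ideal.absNorm P : ℕ) * ((IX K (n / Ideal.absNorm P ^ j)).card : ℝ) ≤ C1 * n * C4 := by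
    refine le_trans ?_ (mul_le_mul_of_nonneg_left (h4 n n) (by positivity))
    rw [Finset.mul_sum]
    refine Finset.sum_le_sum fun P hP => ?_
    rw [Finset.mul_sum]
    refine Finset.sum_le_sum fun j _ => ?_
    have h5 : ((IX K (n / Ideal.absNorm P ^ j)).card : ℝ) ≤ C1 * (n / (Ideal.absNorm P : ℝ) ^ j) := by
      refine (h1 _).trans (mul_le_mul_of_nonneg_left ?_ hC1.le)
      refine (Nat.cast_div_le).trans (le_of_eq ?_)
      push_cast
      rfl
    calc Real.log (Ideal.absNorm P : ℕ) * ((IX K (n / Ideal.absNorm P ^ j)).card : ℝ)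
        ≤ Real.log (Ideal.absNorm P : ℕ) * (C1 * (n / (Ideal.absNorm P : ℝ) ^ j)) := mul_le_mul_of_nonneg_left h5 (hlog P hP)
      _ = C1 * n * (Real.log (Ideal.absNorm P : ℕ) / (Ideal.absNorm P : ℝ) ^ j) := by ring
  have hM : |∑ P ∈ PX K n, Real.log (Ideal.absNorm P : ℕ) * ((IX K (n / Ideal.absNorm P)).card : ℝ) -
      κ * n * ∑ P ∈ PX K n, Real.log (Ideal.absNorm P : ℕ) / ((Ideal.absNorm P : ℕ) : ℝ)| ≤
      2 * ε * n * (∑ P ∈ PX K n, Real.log (Ideal.absNorm P : ℕ) / ((Ideal.absNorm P : ℕ) : ℝ)) +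
        (C1 + κ) * n * (C3 * (1 + Real.log (2 * T))) := by
    have e1 : ∑ P ∈ PX K n, Real.log (Ideal.absNorm P : ℕ) * ((IX K (n / Ideal.absNorm P)).card : ℝ) -
      κ * n * ∑ P ∈ PX K n, Real.log (Ideal.absNorm P : ℕ) / ((Ideal.absNorm P : ℕ) : ℝ) =
      ∑ P ∈ PX K n, Real.log (Ideal.absNorm P : ℕ) * (((IX K (n / Ideal.absNorm P)).card : ℝ) - κ * (n / (Ideal.absNorm P : ℝ))) := by
      rw [Finset.mul_sum, ← Finset.sum_sub_distrib]
      refine Finset.sum_congr rfl fun P _ => ?_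
      ring
    rw [e1]
    refine (Finset.abs_sum_le_sum_abs _ _).trans ?_
    rw [← Finset.sum_filter_add_sum_filter_not (PX K n) (fun P => T * Ideal.absNorm P ≤ n)]
    refine add_le_add ?_ ?_
    · refine le_trans (b := ∑ P ∈ PX K n with T * Ideal.absNorm P ≤ n, 2 * ε * n * (Real.log (Ideal.absNorm P : ℕ) / ((Ideal.absNorm P : ℕ) : ℝ))) ?_ ?_
      · refine Finset.sum_le_sum fun P hP => ?_
        rw [Finset.mem_filter] at hP
        obtain ⟨hP, hTN⟩ := hP
        have hN2 := (hN P hP).1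
        have hNpos : (0 : ℝ) < Ideal.absNorm P := by linarith
        rw [abs_mul, abs_of_nonneg (hlog P hP)]
        have hm : T ≤ n / Ideal.absNorm P := (Nat.le_div_iff_mul_le (by have := (hN P hP).2.2; omega)).2 hTN
        have hq := hA _ hm
        have hfl : ((n / Ideal.absNorm P : ℕ) : ℝ) ≤ n / (Ideal.absNorm P : ℝ) := Nat.cast_div_le
        have hfl2 : (n : ℝ) / (Ideal.absNorm P : ℝ) - 1 ≤ ((n / Ideal.absNorm P : ℕ) : ℝ) := by
          rw [sub_le_iff_le_add, div_le_iff₀ hNpos]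
          have h5 := Nat.div_add_mod n (Ideal.absNorm P)
          have h6 := Nat.mod_lt n (by have := (hN P hP).2.2; omega : Ideal.absNorm P > 0)
          have h7 : n ≤ (n / Ideal.absNorm P + 1) * Ideal.absNorm P := by
            nlinarith
          exact_mod_cast h7
        have hTN' : (T : ℝ) ≤ n / (Ideal.absNorm P : ℝ) := by
          rw [le_div_iff₀ hNpos]
          exact_mod_cast hTN
        have h8 : κ ≤ ε * (n / (Ideal.absNorm P : ℝ)) := hκT.trans (mul_le_mul_of_nonneg_left hTN' hε.le)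
        have h9 : |((IX K (n / Ideal.absNorm P)).card : ℝ) - κ * (n / (Ideal.absNorm P : ℝ))| ≤ 2 * ε * (n / (Ideal.absNorm P : ℝ)) := by
          have e2 : ((IX K (n / Ideal.absNorm P)).card : ℝ) - κ * (n / (Ideal.absNorm P : ℝ)) =
            (((IX K (n / Ideal.absNorm P)).card : ℝ) - κ * ((n / Ideal.absNorm P : ℕ) : ℝ)) -
              κ * ((n / (Ideal.absNorm P : ℝ)) - ((n / Ideal.absNorm P : ℕ) : ℝ)) := by ring
          rw [e2]
          refine (abs_sub _ _).trans ?_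
          have h10 : |κ * ((n / (Ideal.absNorm P : ℝ)) - ((n / Ideal.absNorm P : ℕ) : ℝ))| ≤ κ := by
            rw [abs_mul, abs_of_pos hκ, abs_of_nonneg (by linarith)]
            nlinarith
          have h11 : ε * ((n / Ideal.absNorm P : ℕ) : ℝ) ≤ ε * (n / (Ideal.absNorm P : ℝ)) := mul_le_mul_of_nonneg_left hfl hε.le
          linarith
        calc Real.log (Ideal.absNorm P : ℕ) * |((IX K (n / Ideal.absNorm P)).card : ℝ) - κ * (n / (Ideal.absNorm P : ℝ))|
            ≤ Real.log (Ideal.absNorm P : ℕ) * (2 * ε * (n / (Ideal.absNorm P : ℝ))) := mul_le_mul_of_nonneg_left h9 (hlog P hP)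
          _ = _ := by ring
      · rw [← Finset.mul_sum]
        refine mul_le_mul_of_nonneg_left ?_ (by positivity)
        refine Finset.sum_le_sum_of_subset_of_nonneg (Finset.filter_subset _ _) fun P hP _ => ?_
        exact div_nonneg (hlog P hP) (by positivity)
    · refine le_trans (b := ∑ P ∈ PX K n with ¬ T * Ideal.absNorm P ≤ n, (C1 + κ) * n * (Real.log (Ideal.absNorm P : ℕ) / ((Ideal.absNorm P : ℕ) : ℝ))) ?_ ?_
      · refine Finset.sum_le_sum fun P hP => ?_
        rw [Finset.mem_filter] at hP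
        obtain ⟨hP, _⟩ := hP
        have hNpos : (0 : ℝ) < Ideal.absNorm P := by linarith [(hN P hP).1]
        rw [abs_mul, abs_of_nonneg (hlog P hP)]
        have hfl : ((n / Ideal.absNorm P : ℕ) : ℝ) ≤ n / (Ideal.absNorm P : ℝ) := Nat.cast_div_le
        have h9 : |((IX K (n / Ideal.absNorm P)).card : ℝ) - κ * (n / (Ideal.absNorm P : ℝ))| ≤ (C1 + κ) * (n / (Ideal.absNorm P : ℝ)) := by
          refine (abs_sub _ _).trans ?_
          rw [abs_of_nonneg (by positivity), abs_of_nonneg (by positivity)]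
          have h10 := h1 (n / Ideal.absNorm P)
          have h11 : C1 * ((n / Ideal.absNorm P : ℕ) : ℝ) ≤ C1 * (n / (Ideal.absNorm P : ℝ)) := mul_le_mul_of_nonneg_left hfl hC1.le
          linarith
        calc Real.log (Ideal.absNorm P : ℕ) * |((IX K (n / Ideal.absNorm P)).card : ℝ) - κ * (n / (Ideal.absNorm P : ℝ))|
            ≤ Real.log (Ideal.absNorm P : ℕ) * ((C1 + κ) * (n / (Ideal.absNorm P : ℝ))) := mul_le_mul_of_nonneg_left h9 (hlog P hP)
          _ = _ := by ring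
      · rw [← Finset.mul_sum]
        refine mul_le_mul_of_nonneg_left ?_ (by positivity)
        have hy1 : 1 ≤ n / T := (Nat.le_div_iff_mul_le (by omega)).2 (by omega)
        have hy2 : n / T ≤ n := Nat.div_le_self _ _
        have h12 := h3 (n / T) n hy1 hy2
        have h13 : ∑ P ∈ PX K n with ¬ T * Ideal.absNorm P ≤ n, Real.log (Ideal.absNorm P : ℕ) / ((Ideal.absNorm P : ℕ) : ℝ) ≤
            ∑ P ∈ (PX K n).filter (fun P => n / T < Ideal.absNorm P), Real.log (Ideal.absNorm P : ℕ) / ((Ideal.absNorm P : ℕ) : ℝ) := by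
          refine Finset.sum_le_sum_of_subset_of_nonneg ?_ fun P hP _ => ?_
          · intro P hP
            rw [Finset.mem_filter] at hP ⊢
            refine ⟨hP.1, ?_⟩
            rw [Nat.div_lt_iff_lt_mul (by omega), mul_comm]
            exact not_le.1 hP.2
          · rw [Finset.mem_filter] at hP
            exact div_nonneg (hlog P hP.1) (by positivity)
        refine h13.trans (h12.trans (mul_le_mul_of_nonneg_left ?_ hC3.le))
        have hyR : (0 : ℝ) < ((n / T : ℕ) : ℝ) := by exact_mod_cast (by omega : 0 < n / T)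
        have h14 : (n : ℝ) / ((n / T : ℕ) : ℝ) ≤ 2 * T := by
          rw [div_le_iff₀ hyR]
          have h5 := Nat.div_add_mod n T
          have h6 := Nat.mod_lt n (by omega : T > 0)
          have h7 : n ≤ 2 * T * (n / T) := by
            nlinarith
          exact_mod_cast h7
        have h15 : Real.log ((n : ℝ) / ((n / T : ℕ) : ℝ)) ≤ Real.log (2 * T) := Real.log_le_log (by positivity) h14
        linarith
  rw [hdec, abs_le]
  rw [abs_le] at hM
  have h16 : 0 ≤ C1 * n * C4 := hR0.trans hR1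
  constructor
  · linarith [hM.1]
  · linarith [hM.2]

theorem slim (K : Type) [Field K] [NumberField K] :
    Tendsto (fun n : ℕ => (∑ P ∈ PX K n, Real.log (Ideal.absNorm P : ℕ) / ((Ideal.absNorm P : ℕ) : ℝ)) / Real.log n)
      atTop (𝓝 1) := by
  obtain ⟨κ, hκ, hlim⟩ := ix_lim K
  obtain ⟨C1, hC1, h1⟩ := ix_le K
  obtain ⟨C2, hC2, h2⟩ := plog K
  obtain ⟨C3, hC3, h3⟩ := plog_int K
  obtain ⟨C4, hC4, h4⟩ := plog_pow K
  have hL := asy1 K κ hlim
  have hlog : Tendsto (fun n : ℕ => Real.log (n : ℝ)) atTop atTop := Real.tendsto_log_atTop.comp tendsto_natCast_atTop_atTop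
  set L : ℕ → ℝ := fun n => ∑ I ∈ IX K n, Real.log (Ideal.absNorm I : ℕ) with hLdef
  set S : ℕ → ℝ := fun n => ∑ P ∈ PX K n, Real.log (Ideal.absNorm P : ℕ) / ((Ideal.absNorm P : ℕ) : ℝ) with hSdef
  have hE : Tendsto (fun n : ℕ => (L n - κ * n * S n) / (n * Real.log n)) atTop (𝓝 0) := by
    rw [Metric.tendsto_atTop]
    intro η hη
    obtain ⟨ε, hε, hεη⟩ : ∃ ε : ℝ, 0 < ε ∧ (2 * C2 + 1) * ε < η := by
      refine ⟨η / (2 * (2 * C2 + 1)), by positivity, ?_⟩
      have : (2 * C2 + 1) * (η / (2 * (2 * C2 + 1))) = η / 2 := by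
        field_simp
      rw [this]
      linarith
    have hev := (Metric.tendsto_atTop.1 hlim) ε hε
    obtain ⟨T0, hT0⟩ := hev
    obtain ⟨T1, hT1⟩ := exists_nat_ge (κ / ε)
    set T := max (max T0 T1) 1 with hT
    have hTge : 1 ≤ T := le_max_right _ _
    have hTR : (0 : ℝ) < T := by exact_mod_cast (by omega : 0 < T)
    have hκT : κ ≤ ε * T := by
      rw [div_le_iff₀ hε] at hT1
      have : (T1 : ℝ) ≤ T := by exact_mod_cast (le_max_right T0 T1).trans (le_max_left _ _)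
      nlinarith
    have hA : ∀ m : ℕ, T ≤ m → |((IX K m).card : ℝ) - κ * m| ≤ ε * m := by
      intro m hm
      have hm' : (0 : ℝ) < m := by exact_mod_cast (by omega : 0 < m)
      have h5 := hT0 m (((le_max_left T0 T1).trans (le_max_left _ _)).trans hm)
      rw [Real.dist_eq] at h5
      have e : ((IX K m).card : ℝ) - κ * m = (((IX K m).card : ℝ) / m - κ) * m := by field_simp
      rw [e, abs_mul, abs_of_pos hm']
      exact mul_le_mul_of_nonneg_right h5.le hm'.le
    set B : ℝ := (C1 + κ) * (C3 * (1 + Real.log (2 * T))) + C1 * C4 with hB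
    have hBev : ∀ᶠ n : ℕ in atTop, B ≤ ε * Real.log n := by
      filter_upwards [hlog.eventually_ge_atTop (B / ε)] with n hn
      rw [div_le_iff₀ hε] at hn
      linarith
    rw [eventually_atTop] at hBev
    obtain ⟨n1, hn1⟩ := hBev
    refine ⟨max (max T n1) 2, fun n hn => ?_⟩
    have hn2 : 2 ≤ n := (le_max_right _ _).trans hn
    have hnT : T ≤ n := ((le_max_left T n1).trans (le_max_left _ _)).trans hn
    have hnn1 : n1 ≤ n := ((le_max_right T n1).trans (le_max_left _ _)).trans hn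
    have hnR : (0 : ℝ) < n := by exact_mod_cast (by omega : 0 < n)
    have hl : 0 < Real.log (n : ℝ) := Real.log_pos (by exact_mod_cast (by omega : 1 < n))
    have h6 := slim_fin K κ ε C1 C3 C4 hκ hε hC1 hC3 h1 h3 h4 T hTge hκT hA n hnT
    have h7 := h2 n hn2
    have h8 := hn1 n hnn1
    rw [Real.dist_eq, sub_zero, abs_div, abs_of_pos (mul_pos hnR hl), div_lt_iff₀ (mul_pos hnR hl)]
    have h9 : 2 * ε * n * S n ≤ 2 * ε * n * (C2 * Real.log n) := mul_le_mul_of_nonneg_left h7 (by positivity)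
    have h10 : (C1 + κ) * n * (C3 * (1 + Real.log (2 * T))) + C1 * n * C4 = B * n := by rw [hB]; ring
    have h11 : B * n ≤ ε * Real.log n * n := mul_le_mul_of_nonneg_right h8 hnR.le
    have h12 : 0 < n * Real.log n := mul_pos hnR hl
    calc |L n - κ * n * S n| ≤ 2 * ε * n * S n + (C1 + κ) * n * (C3 * (1 + Real.log (2 * T))) + C1 * n * C4 := h6
      _ = 2 * ε * n * S n + B * n := by rw [← h10]; ring
      _ ≤ 2 * ε * n * (C2 * Real.log n) + ε * Real.log n * n := by linarith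
      _ = (2 * C2 + 1) * ε * (n * Real.log n) := by ring
      _ < η * (n * Real.log n) := mul_lt_mul_of_pos_right hεη h12
  have h5 : Tendsto (fun n : ℕ => (L n / (n * Real.log n) - (L n - κ * n * S n) / (n * Real.log n)) / κ) atTop (𝓝 ((κ - 0) / κ)) :=
    (hL.sub hE).div_const κ
  rw [sub_zero, div_self hκ.ne'] at h5
  refine h5.congr' ?_
  filter_upwards [eventually_ge_atTop 2] with n hn
  have hnR : (0 : ℝ) < n := by exact_mod_cast (by omega : 0 < n)
  have hl : 0 < Real.log (n : ℝ) := Real.log_pos (by exact_mod_cast (by omega : 1 < n))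
  field_simp
  ring

end Pool.Agent.H6.LP
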