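import Pool.Agent.H6.LP.Defs
import Pool.Agent.H10.Sar.Mer

/-!
# [H6 LP MFL] Prime ideals of degree one in `Q(k^(1/3))` and cube roots of `k` modulo `p`

PROOF. `K = AdjoinRoot (X^3 - C k)` over `Q`; `X^3 - k` is irreducible over `Q`: monic integral of degree 3 without rational root (a rational root is an integer, `hk`; `Polynomial.Monic.irreducible_iff_roots_eq_zero_of_degree_le_three`). `θ` in the ring of integers with `θ^3 = k`, `K = Q(θ)`, `minpoly ℤ θ = X^3 - C k`. For a prime `p` not dividing `exponent θ`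
(`RingOfIntegers.exponent`, positive, so all `p > p0` are allowed) the prime ideals over `p` correspond to the monic irreducible factors of `X^3 - k` in `(ZMod p)[X]` with inertia degree = degree (`NumberField.Ideal.primesOverSpanEquivMonicFactorsMod`, `inertiaDeg_primesOverSpanEquivMonicFactorsMod_symm_apply`,
Mathlib/NumberTheory/NumberField/Ideal/KummerDedekind), and `N(P) = p^f`; so the `P` with `N(P) = p` correspond to the factors `X - t`, i.e. to the roots `t` of `t^3 = k`. (A prime ideal of norm `p` lies over `p`: `pr_spec`.) Alternative without the library equivalence: `P` of norm `p` gives `𝓞 K/P ≃ ZMod p`, `t` = image of `θ`; conversely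
for `p` prime to the index every root `t` gives exactly one `P = (p, θ - t)`.
-/

set_option autoImplicit false

namespace Pool.Agent.H6.LP

open Finset NumberField Filter Topology Pool.Agent.H10.Sar

open Polynomial in
theorem irr_cub (k : ℤ) (hk : ∀ a : ℤ, a ^ 3 ≠ k) : Irreducible (X ^ 3 - C (k : ℚ) : ℚ[X]) := by
  have hm : (X ^ 3 - C (k : ℚ) : ℚ[X]).Monic := monic_X_pow_sub_C _ (by norm_num)
  have hd : (X ^ 3 - C (k : ℚ) : ℚ[X]).natDegree = 3 := natDegree_X_pow_sub_C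
  rw [hm.irreducible_iff_roots_eq_zero_of_degree_le_three (by omega) (by omega)]
  rw [Multiset.eq_zero_iff_forall_notMem]
  intro a ha
  rw [mem_roots hm.ne_zero] at ha
  have h1 : a ^ 3 = (k : ℚ) := by
    have := ha
    rw [IsRoot.def] at this
    simp only [eval_sub, eval_pow, eval_X, eval_C] at this
    linarith
  have h2 : IsIntegral ℤ a := by
    refine IsIntegral.of_pow (n := 3) (by norm_num) ?_
    rw [h1]
    exact isIntegral_algebraMap
  obtain ⟨b, hb⟩ := IsIntegrallyClosed.isIntegral_iff.1 h2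
  apply hk b
  have h3 : ((b : ℚ)) ^ 3 = k := by
    rw [← h1, ← hb]
    simp
  exact_mod_cast h3

open Polynomial in
/-- the field -/
theorem fld_data (k : ℤ) (hk : ∀ a : ℤ, a ^ 3 ≠ k) : ∃ (K : Type) (_ : Field K) (_ : NumberField K) (θ : 𝓞 K),
    minpoly ℤ θ = X ^ 3 - C k ∧ RingOfIntegers.exponent θ ≠ 0 := by
  have hirr := irr_cub k hk
  have : Fact (Irreducible (X ^ 3 - C (k : ℚ) : ℚ[X])) := ⟨hirr⟩
  have hm : (X ^ 3 - C (k : ℚ) : ℚ[X]).Monic := monic_X_pow_sub_C _ (by norm_num)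
  have hr : (AdjoinRoot.root (X ^ 3 - C (k : ℚ) : ℚ[X])) ^ 3 = algebraMap ℤ (AdjoinRoot (X ^ 3 - C (k : ℚ) : ℚ[X])) k := by
    have h1 := AdjoinRoot.eval₂_root (X ^ 3 - C (k : ℚ) : ℚ[X])
    simp only [eval₂_sub, eval₂_X_pow, eval₂_C] at h1
    rw [sub_eq_zero] at h1
    rw [h1]
    simp
  have hint : IsIntegral ℤ (AdjoinRoot.root (X ^ 3 - C (k : ℚ) : ℚ[X])) := by
    refine IsIntegral.of_pow (n := 3) (by norm_num) ?_
    rw [hr]
    exact isIntegral_algebraMap
  have hmin : minpoly ℤ (AdjoinRoot.root (X ^ 3 - C (k : ℚ) : ℚ[X])) = X ^ 3 - C k := by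
    have h2 := minpoly.isIntegrallyClosed_eq_field_fractions' ℚ hint
    have h1 : X ^ 3 - C (k : ℚ) = minpoly ℚ (AdjoinRoot.root (X ^ 3 - C (k : ℚ) : ℚ[X])) := by
      refine minpoly.eq_of_irreducible_of_monic hirr ?_ hm
      simp only [map_sub, map_pow, aeval_X, aeval_C]
      rw [hr]
      simp
    rw [← h1] at h2
    have h3 : (X ^ 3 - C k : ℤ[X]).map (algebraMap ℤ ℚ) = (X ^ 3 - C (k : ℚ) : ℚ[X]) := by
      simp
    exact (map_injective _ (algebraMap ℤ ℚ).injective_int (h3.trans h2)).symm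
  obtain ⟨θ, hθ⟩ : ∃ θ : 𝓞 (AdjoinRoot (X ^ 3 - C (k : ℚ) : ℚ[X])),
      (θ : AdjoinRoot (X ^ 3 - C (k : ℚ) : ℚ[X])) = AdjoinRoot.root (X ^ 3 - C (k : ℚ) : ℚ[X]) := ⟨⟨_, hint⟩, rfl⟩
  refine ⟨AdjoinRoot (X ^ 3 - C (k : ℚ) : ℚ[X]), inferInstance, inferInstance, θ, ?_, ?_⟩
  · rw [← RingOfIntegers.minpoly_coe, hθ]
    exact hmin
  · have hfin : FiniteDimensional ℚ (AdjoinRoot (X ^ 3 - C (k : ℚ) : ℚ[X])) := (AdjoinRoot.powerBasis hm.ne_zero).finite
    have key := fun z (hz : IsIntegral ℤ z) => Algebra.discr_mul_isIntegral_mem_adjoin (R := ℤ) ℚ (B := AdjoinRoot.powerBasis hm.ne_zero)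
      (by rw [AdjoinRoot.powerBasis_gen]; exact hint) (z := z) hz
    have hd0 : Algebra.discr ℚ (AdjoinRoot.powerBasis hm.ne_zero).basis ≠ 0 := Algebra.discr_not_zero_of_basis ℚ _
    set d := Algebra.discr ℚ (AdjoinRoot.powerBasis hm.ne_zero).basis with hd
    have hnum : (d.num : ℤ) ≠ 0 := Rat.num_ne_zero.2 hd0
    have hmem : ∀ z : 𝓞 (AdjoinRoot (X ^ 3 - C (k : ℚ) : ℚ[X])),
        algebraMap ℤ (𝓞 (AdjoinRoot (X ^ 3 - C (k : ℚ) : ℚ[X]))) d.num * z ∈
          Algebra.adjoin ℤ {θ} := by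
      intro z
      have h1 := key z (RingOfIntegers.isIntegral_coe z)
      rw [AdjoinRoot.powerBasis_gen] at h1
      have h2 : ((d.num : ℤ) : AdjoinRoot (X ^ 3 - C (k : ℚ) : ℚ[X])) * z = (d.den : ℤ) • (d • (z : AdjoinRoot (X ^ 3 - C (k : ℚ) : ℚ[X]))) := by
        have h3 : (d.num : ℚ) = d.den * d := by
          rw [mul_comm]
          exact (Rat.mul_den_eq_num d).symm
        have h4 : ((d.num : ℤ) : AdjoinRoot (X ^ 3 - C (k : ℚ) : ℚ[X])) = algebraMap ℚ _ ((d.num : ℤ) : ℚ) := by simp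
        rw [h4, h3, map_mul, zsmul_eq_mul, Algebra.smul_def, mul_assoc]
        simp
      have h5 : ((d.num : ℤ) : AdjoinRoot (X ^ 3 - C (k : ℚ) : ℚ[X])) * z ∈
          Algebra.adjoin ℤ {(θ : AdjoinRoot (X ^ 3 - C (k : ℚ) : ℚ[X]))} := by
        rw [h2, hθ]
        exact Subalgebra.zsmul_mem _ h1 _
      have h6 : (Algebra.adjoin ℤ {θ}).map
            (IsScalarTower.toAlgHom ℤ (𝓞 (AdjoinRoot (X ^ 3 - C (k : ℚ) : ℚ[X]))) (AdjoinRoot (X ^ 3 - C (k : ℚ) : ℚ[X]))) =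
          Algebra.adjoin ℤ {(θ : AdjoinRoot (X ^ 3 - C (k : ℚ) : ℚ[X]))} := by
        rw [AlgHom.map_adjoin, Set.image_singleton]
        rfl
      rw [← h6, Subalgebra.mem_map] at h5
      obtain ⟨y, hy, hyz⟩ := h5
      have h7 : y = algebraMap ℤ (𝓞 (AdjoinRoot (X ^ 3 - C (k : ℚ) : ℚ[X]))) d.num * z := by
        apply RingOfIntegers.coe_injective
        rw [map_mul]
        simpa using hyz
      rw [← h7]
      exact hy
    have hcon : (d.num : ℤ) ∈ Ideal.under ℤ (conductor ℤ θ) := by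
      rw [Ideal.mem_under, mem_conductor_iff]
      exact hmem
    unfold RingOfIntegers.exponent
    rw [ne_eq, Ideal.absNorm_eq_zero_iff]
    intro h0
    rw [h0, Ideal.mem_bot] at hcon
    exact hnum hcon

open Polynomial Ideal in
/-- the prime ideals of norm `p` correspond to the roots -/
theorem card_deg_one (k : ℤ) (K : Type) [Field K] [NumberField K] (θ : 𝓞 K) (hθ : minpoly ℤ θ = X ^ 3 - C k)
    (p : ℕ) (hp : p.Prime) (hpe : ¬ p ∣ RingOfIntegers.exponent θ) (n : ℕ) (hn : p ≤ n) :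
    ((PX K n).filter (fun P => Ideal.absNorm P = p)).card = nu k p := by
  have : Fact p.Prime := ⟨hp⟩
  set e := NumberField.Ideal.primesOverSpanEquivMonicFactorsMod hpe with he
  have hmap : (minpoly ℤ θ).map (Int.castRingHom (ZMod p)) = X ^ 3 - C (k : ZMod p) := by
    rw [hθ]
    simp
  have hm : (X ^ 3 - C (k : ZMod p) : (ZMod p)[X]).Monic := monic_X_pow_sub_C _ (by norm_num)
  have hmem : ∀ Q : (ZMod p)[X], Q ∈ RingOfIntegers.monicFactorsMod θ p ↔ Irreducible Q ∧ Q.Monic ∧ Q ∣ X ^ 3 - C (k : ZMod p) := by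
    intro Q
    rw [Multiset.mem_toFinset, hmap, Polynomial.mem_normalizedFactors_iff hm.ne_zero]
  have hroot : ∀ t : ZMod p, t ^ 3 = (k : ZMod p) → (X - C t : (ZMod p)[X]) ∈ RingOfIntegers.monicFactorsMod θ p := by
    intro t ht
    rw [hmem]
    refine ⟨irreducible_X_sub_C t, monic_X_sub_C t, ?_⟩
    rw [dvd_iff_isRoot, IsRoot.def]
    simp [ht]
  have hnorm : ∀ Q (hQ : Q ∈ RingOfIntegers.monicFactorsMod θ p),
      Ideal.absNorm ((e.symm ⟨Q, hQ⟩ : primesOver (span {(p : ℤ)}) (𝓞 K)) : Ideal (𝓞 K)) = p ^ natDegree Q := by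
    intro Q hQ
    have h1 := NumberField.Ideal.inertiaDeg_primesOverSpanEquivMonicFactorsMod_symm_apply' hpe hQ
    rw [← he] at h1
    set P := (e.symm ⟨Q, hQ⟩ : primesOver (span {(p : ℤ)}) (𝓞 K)) with hP
    have h2 : (P : Ideal (𝓞 K)).LiesOver (span {(p : ℤ)}) := P.2.2
    have h3 : (P : Ideal (𝓞 K)).IsMaximal := Ideal.primesOver.isMaximal _
    have h4 : (span {(p : ℤ)}).IsMaximal := Int.ideal_span_isMaximal_of_prime p
    rw [Ideal.absNorm_eq_pow_inertiaDeg' _ hp, Ideal.inertiaDeg'_eq_inertiaDeg, h1]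
  unfold nu
  rw [Nat.card_eq_fintype_card, ← Finset.card_univ]
  symm
  refine Finset.card_bij (fun t _ => ((e.symm ⟨X - C t.1, hroot t.1 t.2⟩ : primesOver (span {(p : ℤ)}) (𝓞 K)) : Ideal (𝓞 K)))
    ?_ ?_ ?_
  · intro t _
    have h1 := hnorm _ (hroot t.1 t.2)
    rw [natDegree_X_sub_C, pow_one] at h1
    rw [Finset.mem_filter, mem_PX]
    refine ⟨⟨⟨by rw [h1]; exact hn, ?_⟩, (e.symm ⟨X - C t.1, hroot t.1 t.2⟩).2.1⟩, h1⟩
    intro h0
    rw [h0, Ideal.absNorm_bot] at h1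
    exact hp.ne_zero h1.symm
  · intro t _ t' _ h
    have h1 := e.symm.injective (Subtype.ext h)
    have h2 := congrArg Subtype.val h1
    simp only at h2
    have h3 := sub_right_injective h2
    exact Subtype.ext (C_injective h3)
  · intro P hP
    rw [Finset.mem_filter, mem_PX] at hP
    obtain ⟨⟨⟨hPn, hP0⟩, hPp⟩, hPN⟩ := hP
    have h1 : (p : 𝓞 K) ∈ P := by
      rw [← hPN]
      exact Ideal.absNorm_mem P
    have hmax : (span {(p : ℤ)}).IsMaximal := Int.ideal_span_isMaximal_of_prime p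
    have h2 : P ∈ primesOver (span {(p : ℤ)}) (𝓞 K) := by
      refine ⟨hPp, ⟨?_⟩⟩
      have : (Ideal.under ℤ P).IsPrime := inferInstance
      refine hmax.eq_of_le (Ideal.IsPrime.ne_top this) ?_
      rw [Ideal.span_singleton_le_iff_mem, Ideal.mem_under]
      simpa using h1
    set Q := e ⟨P, h2⟩ with hQ
    have h3 : (e.symm Q : primesOver (span {(p : ℤ)}) (𝓞 K)) = ⟨P, h2⟩ := by rw [hQ, Equiv.symm_apply_apply]
    have h4 := hnorm Q.1 Q.2
    rw [show (⟨Q.1, Q.2⟩ : RingOfIntegers.monicFactorsMod θ p) = Q from rfl, h3] at h4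
    simp only at h4
    rw [hPN] at h4
    have h5 : natDegree Q.1 = 1 := by
      have : p ^ 1 = p ^ natDegree Q.1 := by rw [pow_one]; exact h4
      exact (Nat.pow_right_injective hp.two_le this).symm
    obtain ⟨_, hQm, hQd⟩ := (hmem Q.1).1 Q.2
    have h6 : Q.1 = X - C (- Q.1.coeff 0) := by
      rw [C_neg, sub_neg_eq_add]
      exact hQm.eq_X_add_C h5
    have h7 : (- Q.1.coeff 0) ^ 3 = (k : ZMod p) := by
      rw [h6, dvd_iff_isRoot, IsRoot.def] at hQd
      simp only [eval_sub, eval_pow, eval_X, eval_C] at hQd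
      exact sub_eq_zero.1 hQd
    refine ⟨⟨- Q.1.coeff 0, h7⟩, Finset.mem_univ _, ?_⟩
    have h8 : (⟨X - C (- Q.1.coeff 0), hroot _ h7⟩ : RingOfIntegers.monicFactorsMod θ p) = Q := Subtype.ext h6.symm
    rw [h8, h3]

theorem fld (k : ℤ) (hk : ∀ a : ℤ, a ^ 3 ≠ k) : ∃ (K : Type) (_ : Field K) (_ : NumberField K) (p0 : ℕ),
    ∀ p : ℕ, p.Prime → p0 < p → ∀ n : ℕ, p ≤ n →
      ((PX K n).filter (fun P => Ideal.absNorm P = p)).card = nu k p := by
  obtain ⟨K, hK, hN, θ, hθ, he⟩ := fld_data k hk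
  refine ⟨K, hK, hN, RingOfIntegers.exponent θ, fun p hp hpe n hn => ?_⟩
  refine card_deg_one k K θ hθ p hp ?_ n hn
  intro h
  exact absurd (Nat.le_of_dvd (Nat.pos_of_ne_zero he) h) (by omega)

end Pool.Agent.H6.LP
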