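import Pool.Agent.H6.LP.Defs

/-!
# [H6 LP RTS] At most three cube roots modulo a prime power

PROOF. `nu_le`: the `t` in the field `ZMod p` with `t^3 = k` are roots of `X^3 - C k`, of degree 3 (`Polynomial.card_roots'`, `nthRoots`: `Polynomial.card_nthRoots`).
`rts`: let `T` be the set. If `t, t' in T` and `p | t - t'` then `p^j | t^3 - t'^3 = (t-t')(t^2+tt'+t'^2)`, and `t^2+tt'+t'^2 = 3t^2` mod `p`, prime to `p` (`p` does not divide `3`, nor `t`, because `p | t` and `p | t^3 - k` give `p | k`), so `p^j | t - t'` and `t = t'`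
(both in `range (p^j)`). So `t ↦ (t : ZMod p)` is injective on `T`, with values in the cube roots of `k` modulo `p`: `#T <= nu k p <= 3`.
`root_ex`: `nu k p >= 1` gives an integer root.
`root_crt`: Chinese remainder theorem for coprime `a`, `b`.
-/

set_option autoImplicit false

namespace Pool.Agent.H6.LP

open Finset

private theorem card_cube_le (k : ℤ) (p : ℕ) (hp : p.Prime) [Fact p.Prime] :
    (Polynomial.nthRoots 3 (k : ZMod p)).toFinset.card ≤ 3 :=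
  (Multiset.toFinset_card_le _).trans (Polynomial.card_nthRoots 3 _)

theorem nu_le (k : ℤ) (p : ℕ) (hp : p.Prime) : nu k p ≤ 3 := by
  classical
  have : Fact p.Prime := ⟨hp⟩
  unfold nu
  rw [Nat.card_eq_fintype_card, Fintype.card_subtype]
  refine le_trans (Finset.card_le_card ?_) (card_cube_le k p hp)
  intro t ht
  rw [Multiset.mem_toFinset, Polynomial.mem_nthRoots (by norm_num)]
  exact (Finset.mem_filter.mp ht).2

theorem rts (k : ℤ) (p : ℕ) (hp : p.Prime) (h3k : ¬ (p : ℤ) ∣ 3 * k) (j : ℕ) (hj : 1 ≤ j) :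
    ((range (p ^ j)).filter (fun t : ℕ => ((p ^ j : ℕ) : ℤ) ∣ (t : ℤ) ^ 3 - k)).card ≤ 3 := by
  classical
  have : Fact p.Prime := ⟨hp⟩
  have hpj : (p : ℤ) ∣ ((p ^ j : ℕ) : ℤ) := by
    exact_mod_cast dvd_pow_self p (by omega : j ≠ 0)
  refine le_trans (Finset.card_le_card_of_injOn (fun t : ℕ => (t : ZMod p)) ?_ ?_) (card_cube_le k p hp)
  · intro t ht
    rw [Finset.mem_coe, Finset.mem_filter] at ht
    rw [Finset.mem_coe, Multiset.mem_toFinset, Polynomial.mem_nthRoots (by norm_num)]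
    have h1 : (p : ℤ) ∣ (t : ℤ) ^ 3 - k := hpj.trans ht.2
    have h2 := (ZMod.intCast_zmod_eq_zero_iff_dvd ((t : ℤ) ^ 3 - k) p).mpr h1
    push_cast at h2
    exact sub_eq_zero.mp h2
  · intro t ht t' ht' heq
    rw [Finset.mem_coe, Finset.mem_filter, Finset.mem_range] at ht ht'
    simp only at heq
    have h1 : (p : ℤ) ∣ (t : ℤ) - t' := by
      rw [← ZMod.intCast_zmod_eq_zero_iff_dvd]
      push_cast
      rw [heq, sub_self]
    have hpp : Prime (p : ℤ) := Nat.prime_iff_prime_int.mp hp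
    have hpt : ¬ (p : ℤ) ∣ t := by
      intro h
      apply h3k
      have h2 : (p : ℤ) ∣ (t : ℤ) ^ 3 - k := hpj.trans ht.2
      have h3 : (p : ℤ) ∣ k := by
        have := dvd_sub (dvd_pow h (by norm_num : 3 ≠ 0)) h2
        rwa [sub_sub_cancel] at this
      exact h3.mul_left 3
    have hp3 : ¬ (p : ℤ) ∣ 3 := fun h => h3k (h.mul_right k)
    have hnd : ¬ (p : ℤ) ∣ (t : ℤ) ^ 2 + t * t' + (t' : ℤ) ^ 2 := by
      intro h
      obtain ⟨m, hm⟩ := h1
      have h4 : (p : ℤ) ∣ 3 * (t : ℤ) ^ 2 := by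
        have h5 : 3 * (t : ℤ) ^ 2 = ((t : ℤ) ^ 2 + t * t' + (t' : ℤ) ^ 2) + p * (m * (2 * t + t')) := by
          have h6 : (t : ℤ) - t' = p * m := hm
          linear_combination (2 * (t : ℤ) + t') * h6
        rw [h5]
        exact dvd_add h (Dvd.intro _ rfl)
      rcases hpp.dvd_or_dvd h4 with h5 | h5
      · exact hp3 h5
      · exact hpt (hpp.dvd_of_dvd_pow h5)
    have hcop : IsCoprime ((p ^ j : ℕ) : ℤ) ((t : ℤ) ^ 2 + t * t' + (t' : ℤ) ^ 2) := by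
      push_cast
      exact (hpp.coprime_iff_not_dvd.mpr hnd).pow_left
    have hdiv : ((p ^ j : ℕ) : ℤ) ∣ ((t : ℤ) - t') * ((t : ℤ) ^ 2 + t * t' + (t' : ℤ) ^ 2) := by
      have h5 := dvd_sub ht.2 ht'.2
      rwa [show (t : ℤ) ^ 3 - k - ((t' : ℤ) ^ 3 - k) =
        ((t : ℤ) - t') * ((t : ℤ) ^ 2 + t * t' + (t' : ℤ) ^ 2) by ring] at h5
    have h6 := hcop.dvd_of_dvd_mul_right hdiv
    have h7 : ((t' : ℤ)) % ((p ^ j : ℕ) : ℤ) = (t : ℤ) % ((p ^ j : ℕ) : ℤ) :=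
      (Int.modEq_iff_dvd).mpr h6
    rw [Int.emod_eq_of_lt (by positivity) (by exact_mod_cast ht'.1),
      Int.emod_eq_of_lt (by positivity) (by exact_mod_cast ht.1)] at h7
    exact_mod_cast h7.symm

theorem root_ex (k : ℤ) (p : ℕ) (hp : p.Prime) (h : 1 ≤ nu k p) : ∃ t : ℤ, (p : ℤ) ∣ t ^ 3 - k := by
  have : Fact p.Prime := ⟨hp⟩
  unfold nu at h
  have hne : Nonempty {t : ZMod p // t ^ 3 = (k : ZMod p)} := by
    by_contra hn
    rw [not_nonempty_iff] at hn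
    rw [Nat.card_of_isEmpty] at h
    omega
  obtain ⟨t, ht⟩ := hne
  refine ⟨(t.val : ℤ), ?_⟩
  rw [← ZMod.intCast_zmod_eq_zero_iff_dvd]
  push_cast
  rw [ZMod.natCast_zmod_val, ht, sub_self]

theorem root_crt (k : ℤ) (a b : ℕ) (hab : a.Coprime b) (s t : ℤ) (hs : (a : ℤ) ∣ s ^ 3 - k) (ht : (b : ℤ) ∣ t ^ 3 - k) :
    ∃ r : ℤ, (a : ℤ) ∣ r - s ∧ (b : ℤ) ∣ r - t ∧ ((a * b : ℕ) : ℤ) ∣ r ^ 3 - k := by
  have hc : IsCoprime (a : ℤ) (b : ℤ) := Nat.isCoprime_iff_coprime.mpr hab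
  obtain ⟨u, v, huv⟩ := hc
  have h1 : (a : ℤ) ∣ (s * (v * b) + t * (u * a)) - s :=
    ⟨u * (t - s), by linear_combination s * huv⟩
  have h2 : (b : ℤ) ∣ (s * (v * b) + t * (u * a)) - t :=
    ⟨v * (s - t), by linear_combination t * huv⟩
  refine ⟨s * (v * b) + t * (u * a), h1, h2, ?_⟩
  push_cast
  refine IsCoprime.mul_dvd ⟨u, v, huv⟩ ?_ ?_
  · have h3 := dvd_add (h1.trans (sub_dvd_pow_sub_pow (s * (v * b) + t * (u * a)) s 3)) hs
    rwa [show (s * (v * b) + t * (u * a)) ^ 3 - s ^ 3 + (s ^ 3 - k) =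
      (s * (v * b) + t * (u * a)) ^ 3 - k by ring] at h3
  · have h3 := dvd_add (h2.trans (sub_dvd_pow_sub_pow (s * (v * b) + t * (u * a)) t 3)) ht
    rwa [show (s * (v * b) + t * (u * a)) ^ 3 - t ^ 3 + (t ^ 3 - k) =
      (s * (v * b) + t * (u * a)) ^ 3 - k by ring] at h3

end Pool.Agent.H6.LP
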