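import Pool.Agent.H6.LP.Defs
import Pool.Agent.H10.Sar.Mer
import Pool.Agent.H6.LP.MAs2
import Pool.Agent.H6.LP.MFld
import Pool.Agent.H6.LP.Rts

/-!
# [H6 LP MON] First Mertens theorem for `nu`

PROOF. `K`, `p0` from `fld`. `S(n) = ∑_{P in PX n} log N(P)/N(P)`. The `P` with `N(P) = pr P = p`, `p0 < p <= n`, contribute `∑_{p0 < p <= n} nu log p/p` (`fld`); the `P` with `p <= p0` at most a constant (finitely many primes `p`, at most `[K:Q]` ideals each, `log N/N <= 1`), the `P` with `(pr P)^2 <= N(P)` at most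
`[K:Q] ∑_p 2 log p/p^2 * const` (`N = p^f`, `f log p/p^f <= 2 log p/p^2` for `f >= 2`) `<= C` (`log p <= p^(1/2) * 2`, `∑ p^(-3/2)` converges). And `∑_{p <= p0} nu log p/p` is a constant. So `|S(n) - ∑_{p <= n} nu log p/p| <= C` and `slim` gives the limit along natural numbers `n`; for real `x` put `n = ⌊x⌋₊` (`log x/log ⌊x⌋ -> 1`).
-/

set_option autoImplicit false

namespace Pool.Agent.H6.LP

open Finset NumberField Filter Topology Pool.Agent.H10.Sar

theorem log_div_le_aux (x p : ℝ) (hp : 1 ≤ p) (hx : p ^ 2 ≤ x) : Real.log x / x ≤ 4 * (1 / p ^ (3 / 2 : ℝ)) := by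
  have hp0 : 0 < p := by linarith
  have hx1 : 1 ≤ x := by nlinarith
  have hx0 : 0 < x := by linarith
  have h1 : Real.log x ≤ 4 * x ^ (1 / 4 : ℝ) := by
    have h2 := Real.log_le_rpow_div hx0.le (by norm_num : (0 : ℝ) < 1 / 4)
    linarith
  have h3 : p ^ (3 / 2 : ℝ) ≤ x ^ (3 / 4 : ℝ) := by
    have h4 : p ^ (3 / 2 : ℝ) = (p ^ 2) ^ (3 / 4 : ℝ) := by
      rw [← Real.rpow_natCast, ← Real.rpow_mul hp0.le]
      norm_num
    rw [h4]
    exact Real.rpow_le_rpow (by positivity) hx (by norm_num)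
  have h5 : x = x ^ (1 / 4 : ℝ) * x ^ (3 / 4 : ℝ) := by
    rw [← Real.rpow_add hx0]
    norm_num
  have h6 : 0 < p ^ (3 / 2 : ℝ) := Real.rpow_pos_of_pos hp0 _
  have h7 : 0 < x ^ (1 / 4 : ℝ) := Real.rpow_pos_of_pos hx0 _
  rw [div_le_iff₀ hx0]
  have h8 : x ^ (1 / 4 : ℝ) * p ^ (3 / 2 : ℝ) ≤ x := by
    calc x ^ (1 / 4 : ℝ) * p ^ (3 / 2 : ℝ) ≤ x ^ (1 / 4 : ℝ) * x ^ (3 / 4 : ℝ) := mul_le_mul_of_nonneg_left h3 h7.le
      _ = x := h5.symm
  calc Real.log x ≤ 4 * x ^ (1 / 4 : ℝ) := h1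
    _ ≤ 4 * (x / p ^ (3 / 2 : ℝ)) := by
        refine mul_le_mul_of_nonneg_left ?_ (by norm_num)
        rw [le_div_iff₀ h6]
        exact h8
    _ = _ := by ring

theorem far_sum (K : Type) [Field K] [NumberField K] : ∃ C : ℝ, 0 < C ∧ ∀ n : ℕ,
    ∑ P ∈ (PX K n).filter (fun P => ¬ Ideal.absNorm P = pr P), Real.log (Ideal.absNorm P : ℕ) / ((Ideal.absNorm P : ℕ) : ℝ) ≤ C := by
  have hs : Summable (fun n : ℕ => 1 / (n : ℝ) ^ (3 / 2 : ℝ)) := Real.summable_one_div_nat_rpow.2 (by norm_num)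
  set d := Module.finrank ℤ (𝓞 K) with hd
  refine ⟨d * (4 * ∑' n : ℕ, 1 / (n : ℝ) ^ (3 / 2 : ℝ)) + 1, ?_, fun n => ?_⟩
  · have : 0 ≤ ∑' n : ℕ, 1 / (n : ℝ) ^ (3 / 2 : ℝ) := tsum_nonneg fun n => by positivity
    positivity
  have hmaps : ∀ P ∈ (PX K n).filter (fun P => ¬ Ideal.absNorm P = pr P), pr P ∈ Finset.Icc 1 n := by
    intro P hP
    rw [Finset.mem_filter, mem_PX] at hP
    have h := pr_spec hP.1.1.2 hP.1.2
    rw [Finset.mem_Icc]
    exact ⟨h.1.pos, h.2.2.2.trans hP.1.1.1⟩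
  rw [← Finset.sum_fiberwise_of_maps_to hmaps]
  have key : ∀ p ∈ Finset.Icc 1 n, ∑ P ∈ (PX K n).filter (fun P => ¬ Ideal.absNorm P = pr P) with pr P = p,
      Real.log (Ideal.absNorm P : ℕ) / ((Ideal.absNorm P : ℕ) : ℝ) ≤ d * (4 * (1 / (p : ℝ) ^ (3 / 2 : ℝ))) := by
    intro p hp
    rw [Finset.mem_Icc] at hp
    have hp1 : (1 : ℝ) ≤ p := by exact_mod_cast hp.1
    have hb : ∀ P ∈ ((PX K n).filter (fun P => ¬ Ideal.absNorm P = pr P)).filter (fun P => pr P = p),
        Real.log (Ideal.absNorm P : ℕ) / ((Ideal.absNorm P : ℕ) : ℝ) ≤ 4 * (1 / (p : ℝ) ^ (3 / 2 : ℝ)) := by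
      intro P hP
      rw [Finset.mem_filter, Finset.mem_filter, mem_PX] at hP
      obtain ⟨⟨⟨⟨h1, h2⟩, h3⟩, h4⟩, h5⟩ := hP
      have h6 := (pr_spec h2 h3).2.2.1
      have h7 := h6.resolve_left h4
      rw [h5] at h7
      refine log_div_le_aux _ _ hp1 ?_
      exact_mod_cast h7
    refine (Finset.sum_le_sum hb).trans ?_
    rw [Finset.sum_const, nsmul_eq_mul]
    refine mul_le_mul_of_nonneg_right ?_ (by positivity)
    rcases Finset.eq_empty_or_nonempty (((PX K n).filter (fun P => ¬ Ideal.absNorm P = pr P)).filter (fun P => pr P = p)) with he | hne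
    · rw [he]
      simp
    · obtain ⟨P0, hP0⟩ := hne
      rw [Finset.mem_filter, Finset.mem_filter, mem_PX] at hP0
      have hpp : p.Prime := by
        have := (pr_spec hP0.1.1.1.2 hP0.1.1.2).1
        rwa [hP0.2] at this
      have hcard := card_above hpp (((PX K n).filter (fun P => ¬ Ideal.absNorm P = pr P)).filter (fun P => pr P = p)) (by
        intro P hP
        rw [Finset.mem_filter, Finset.mem_filter, mem_PX] at hP
        exact ⟨hP.1.1.1.2, hP.1.1.2, hP.2⟩)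
      exact_mod_cast hcard
  refine (Finset.sum_le_sum key).trans ?_
  rw [← Finset.mul_sum, ← Finset.mul_sum]
  have h9 : ∑ i ∈ Finset.Icc 1 n, 1 / (i : ℝ) ^ (3 / 2 : ℝ) ≤ ∑' n : ℕ, 1 / (n : ℝ) ^ (3 / 2 : ℝ) :=
    hs.sum_le_tsum _ fun i _ => by positivity
  have h10 : (d : ℝ) * (4 * ∑ i ∈ Finset.Icc 1 n, 1 / (i : ℝ) ^ (3 / 2 : ℝ)) ≤ d * (4 * ∑' n : ℕ, 1 / (n : ℝ) ^ (3 / 2 : ℝ)) :=
    mul_le_mul_of_nonneg_left (mul_le_mul_of_nonneg_left h9 (by norm_num)) (by positivity)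
  linarith

theorem close_sum (k : ℤ) (K : Type) [Field K] [NumberField K] (p0 : ℕ) (h0 : ∀ p : ℕ, p.Prime → p0 < p → ∀ n : ℕ, p ≤ n →
      ((PX K n).filter (fun P => Ideal.absNorm P = p)).card = nu k p) : ∃ B : ℝ, ∀ n : ℕ,
    |∑ P ∈ PX K n, Real.log (Ideal.absNorm P : ℕ) / ((Ideal.absNorm P : ℕ) : ℝ) -
      ∑ p ∈ (Icc 1 n).filter Nat.Prime, (nu k p : ℝ) * Real.log p / p| ≤ B := by
  obtain ⟨C, hC, hfar⟩ := far_sum K
  set d := Module.finrank ℤ (𝓞 K) with hd
  refine ⟨C + ∑ p ∈ Icc 1 p0, ((d : ℝ) + 3) * (Real.log p / p), fun n => ?_⟩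
  rw [← Finset.sum_filter_add_sum_filter_not (PX K n) (fun P => Ideal.absNorm P = pr P)]
  have hfar0 : 0 ≤ ∑ P ∈ (PX K n).filter (fun P => ¬ Ideal.absNorm P = pr P), Real.log (Ideal.absNorm P : ℕ) / ((Ideal.absNorm P : ℕ) : ℝ) := by
    refine Finset.sum_nonneg fun P hP => ?_
    rw [Finset.mem_filter, mem_PX] at hP
    have := two_le_absNorm hP.1.1.2 hP.1.2
    exact div_nonneg (Real.log_nonneg (by exact_mod_cast (by omega : 1 ≤ Ideal.absNorm P))) (by positivity)
  have hmaps : ∀ P ∈ (PX K n).filter (fun P => Ideal.absNorm P = pr P), Ideal.absNorm P ∈ (Icc 1 n).filter Nat.Prime := by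
    intro P hP
    rw [Finset.mem_filter, mem_PX] at hP
    have h := pr_spec hP.1.1.2 hP.1.2
    rw [Finset.mem_filter, Finset.mem_Icc]
    refine ⟨⟨?_, hP.1.1.1⟩, ?_⟩
    · rw [hP.2]
      exact h.1.pos
    · rw [hP.2]
      exact h.1
  have hfil : ∀ p ∈ (Icc 1 n).filter Nat.Prime, ((PX K n).filter (fun P => Ideal.absNorm P = pr P)).filter (fun P => Ideal.absNorm P = p) =
      (PX K n).filter (fun P => Ideal.absNorm P = p) := by
    intro p hp
    rw [Finset.mem_filter, Finset.mem_Icc] at hp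
    ext P
    rw [Finset.mem_filter, Finset.mem_filter, Finset.mem_filter]
    constructor
    · rintro ⟨⟨h1, _⟩, h3⟩
      exact ⟨h1, h3⟩
    · rintro ⟨h1, h3⟩
      refine ⟨⟨h1, ?_⟩, h3⟩
      unfold pr
      rw [h3]
      exact hp.2.minFac_eq.symm
  have hclose : ∑ P ∈ (PX K n).filter (fun P => Ideal.absNorm P = pr P), Real.log (Ideal.absNorm P : ℕ) / ((Ideal.absNorm P : ℕ) : ℝ) =
      ∑ p ∈ (Icc 1 n).filter Nat.Prime, (((PX K n).filter (fun P => Ideal.absNorm P = p)).card : ℝ) * (Real.log p / p) := by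
    rw [← Finset.sum_fiberwise_of_maps_to hmaps]
    refine Finset.sum_congr rfl fun p hp => ?_
    rw [hfil p hp, ← nsmul_eq_mul, ← Finset.sum_const]
    refine Finset.sum_congr rfl fun P hP => ?_
    rw [(Finset.mem_filter.1 hP).2]
  rw [hclose]
  have hdiff : |∑ p ∈ (Icc 1 n).filter Nat.Prime, (((PX K n).filter (fun P => Ideal.absNorm P = p)).card : ℝ) * (Real.log p / p) -
      ∑ p ∈ (Icc 1 n).filter Nat.Prime, (nu k p : ℝ) * Real.log p / p| ≤ ∑ p ∈ Icc 1 p0, ((d : ℝ) + 3) * (Real.log p / p) := by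
    rw [← Finset.sum_sub_distrib]
    refine (Finset.abs_sum_le_sum_abs _ _).trans ?_
    have hpos : ∀ p ∈ Icc 1 p0, 0 ≤ ((d : ℝ) + 3) * (Real.log p / p) := by
      intro p hp
      rw [Finset.mem_Icc] at hp
      have : 0 ≤ Real.log (p : ℝ) := Real.log_nonneg (by exact_mod_cast hp.1)
      positivity
    have hz : ∀ p ∈ (Icc 1 n).filter Nat.Prime, |(((PX K n).filter (fun P => Ideal.absNorm P = p)).card : ℝ) * (Real.log p / p) -
        (nu k p : ℝ) * Real.log p / p| ≤ if p ∈ Icc 1 p0 then ((d : ℝ) + 3) * (Real.log p / p) else 0 := by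
      intro p hp
      rw [Finset.mem_filter, Finset.mem_Icc] at hp
      obtain ⟨⟨hp1, hpn⟩, hpp⟩ := hp
      have hl : 0 ≤ Real.log (p : ℝ) / p := div_nonneg (Real.log_nonneg (by exact_mod_cast hp1)) (by positivity)
      split_ifs with hpp0
      · have hc := card_above hpp ((PX K n).filter (fun P => Ideal.absNorm P = p)) (by
          intro P hP
          rw [Finset.mem_filter, mem_PX] at hP
          refine ⟨hP.1.1.2, hP.1.2, ?_⟩
          unfold pr
          rw [hP.2]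
          exact hpp.minFac_eq)
        have hnu := nu_le k p hpp
        have hc' : (((PX K n).filter (fun P => Ideal.absNorm P = p)).card : ℝ) ≤ d := by exact_mod_cast hc
        have hnu' : (nu k p : ℝ) ≤ 3 := by exact_mod_cast hnu
        have e : (((PX K n).filter (fun P => Ideal.absNorm P = p)).card : ℝ) * (Real.log p / p) - (nu k p : ℝ) * Real.log p / p =
          ((((PX K n).filter (fun P => Ideal.absNorm P = p)).card : ℝ) - nu k p) * (Real.log p / p) := by ring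
        rw [e, abs_mul, abs_of_nonneg hl]
        refine mul_le_mul_of_nonneg_right ?_ hl
        have h5 : (0 : ℝ) ≤ ((PX K n).filter (fun P => Ideal.absNorm P = p)).card := by positivity
        have h6 : (0 : ℝ) ≤ nu k p := by positivity
        have h7 : (0 : ℝ) ≤ d := by positivity
        rw [abs_le]
        constructor
        · linarith
        · linarith
      · have hgt : p0 < p := by
          by_contra hcon
          exact hpp0 (Finset.mem_Icc.2 ⟨hp1, by omega⟩)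
        rw [h0 p hpp hgt n hpn, mul_div_assoc, sub_self, abs_zero]
    refine (Finset.sum_le_sum hz).trans ?_
    rw [← Finset.sum_filter]
    refine Finset.sum_le_sum_of_subset_of_nonneg ?_ fun p hp _ => hpos p hp
    intro p hp
    exact (Finset.mem_filter.1 hp).2
  have hf := hfar n
  rw [abs_le] at hdiff ⊢
  constructor
  · linarith [hdiff.1]
  · linarith [hdiff.2]

theorem mertens_one_nu (k : ℤ) (hk : ∀ a : ℤ, a ^ 3 ≠ k) : MertensOne k := by
  obtain ⟨K, hK, hN, p0, h0⟩ := fld k hk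
  obtain ⟨B, hB⟩ := close_sum k K p0 h0
  have hS := slim K
  have hlog : Tendsto (fun n : ℕ => Real.log (n : ℝ)) atTop atTop := Real.tendsto_log_atTop.comp tendsto_natCast_atTop_atTop
  set M : ℕ → ℝ := fun n => ∑ p ∈ (Icc 1 n).filter Nat.Prime, (nu k p : ℝ) * Real.log p / p with hM
  set S : ℕ → ℝ := fun n => ∑ P ∈ PX K n, Real.log (Ideal.absNorm P : ℕ) / ((Ideal.absNorm P : ℕ) : ℝ) with hSdef
  have hd : Tendsto (fun n : ℕ => (S n - M n) / Real.log n) atTop (𝓝 0) := by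
    have h1 : Tendsto (fun n : ℕ => B / Real.log (n : ℝ)) atTop (𝓝 0) := hlog.const_div_atTop B
    refine squeeze_zero_norm' ?_ h1
    filter_upwards [eventually_ge_atTop 2] with n hn
    have hl : 0 < Real.log (n : ℝ) := Real.log_pos (by exact_mod_cast (by omega : 1 < n))
    rw [Real.norm_eq_abs, abs_div, abs_of_pos hl]
    exact div_le_div_of_nonneg_right (hB n) hl.le
  have hMl : Tendsto (fun n : ℕ => M n / Real.log n) atTop (𝓝 1) := by
    have h2 := hS.sub hd
    rw [sub_zero] at h2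
    refine h2.congr fun n => ?_
    ring
  unfold MertensOne
  have hfl : Tendsto (fun x : ℝ => ⌊x⌋₊) atTop atTop := tendsto_nat_floor_atTop
  have h3 := hMl.comp hfl
  have h4 : Tendsto (fun x : ℝ => Real.log (⌊x⌋₊ : ℝ) / Real.log x) atTop (𝓝 1) := by
    have h5 : Tendsto (fun x : ℝ => 1 - Real.log 2 / Real.log x) atTop (𝓝 1) := by
      have := (Real.tendsto_log_atTop.const_div_atTop (Real.log 2)).const_sub 1
      simpa using this
    refine tendsto_of_tendsto_of_tendsto_of_le_of_le' h5 tendsto_const_nhds ?_ ?_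
    · filter_upwards [eventually_ge_atTop 2] with x hx
      have hl : 0 < Real.log x := Real.log_pos (by linarith)
      have h6 : x / 2 ≤ (⌊x⌋₊ : ℝ) := by
        have := (Nat.lt_floor_add_one x).le
        linarith
      have h7 : Real.log (x / 2) ≤ Real.log (⌊x⌋₊ : ℝ) := Real.log_le_log (by linarith) h6
      rw [Real.log_div (by linarith) (by norm_num)] at h7
      rw [le_div_iff₀ hl, sub_mul, one_mul, div_mul_cancel₀ _ hl.ne']
      exact h7
    · filter_upwards [eventually_ge_atTop 2] with x hx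
      have hl : 0 < Real.log x := Real.log_pos (by linarith)
      rw [div_le_one hl]
      refine Real.log_le_log ?_ (Nat.floor_le (by linarith))
      have : 1 ≤ ⌊x⌋₊ := by
        rw [Nat.one_le_floor_iff]
        linarith
      exact_mod_cast this
  have h8 := h3.mul h4
  rw [mul_one] at h8
  refine h8.congr' ?_
  filter_upwards [eventually_ge_atTop 2] with x hx
  simp only [Function.comp_apply]
  have h9 : 2 ≤ ⌊x⌋₊ := Nat.le_floor (by exact_mod_cast hx)
  have hl : Real.log (⌊x⌋₊ : ℝ) ≠ 0 := (Real.log_pos (by exact_mod_cast (by omega : 1 < ⌊x⌋₊))).ne'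
  rw [div_mul_div_cancel₀ hl]

end Pool.Agent.H6.LP
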