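import Pool.Agent.H6.LP.Defs
import Pool.Agent.H10.Sar.Mer
import Pool.Agent.H6.LP.MIdC

/-!
# [H6 LP MZE] Upper bound for the zeta function near 1

PROOF. Let `A(m) = #IX K m <= C m` (`ix_le`), `s = 1 + σ`. The ideals of norm exactly `m` are `A(m) - A(m-1)` (compare `sum_inv_ge` in H10/Sar/Mer), so `∑_{I in IX n} N(I)^(-s) = ∑_{m=1}^n (A(m) - A(m-1)) m^(-s) = A(n) n^(-s) + ∑_{m=1}^{n-1} A(m) (m^(-s) - (m+1)^(-s)) <= C (n * n^(-s) + ∑_{m<n} m (m^(-s) - (m+1)^(-s)))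
= C ∑_{m=1}^n m^(-s)` (induction on `n` proves directly: `∑_{I in IX n} N(I)^(-s) <= A(n) n^(-s) + C ∑_{m=1}^{n-1} m (m^(-s)-(m+1)^(-s))` and the telescoping identity), and `∑_{m=1}^n m^(-1-σ) <= 1 + 1/σ <= 2/σ` (`m^(-1-σ) <= (1/σ)((m-1)^(-σ) - m^(-σ))` for `m >= 2`, convexity; or a lemma of Mathlib on `p`-series / `ζ`).
-/

set_option autoImplicit false

namespace Pool.Agent.H6.LP

open Finset NumberField Filter Topology Pool.Agent.H10.Sar

private theorem rp_step {σ : ℝ} (hσ : 0 < σ) (n : ℕ) (hn : 1 ≤ n) :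
    ((n + 1 : ℕ) : ℝ) ^ (-(1 + σ)) ≤ ((n : ℝ) ^ (-σ) - ((n + 1 : ℕ) : ℝ) ^ (-σ)) / σ := by
  have hx : (0 : ℝ) < n := by exact_mod_cast hn
  obtain ⟨y, hy⟩ : ∃ y : ℝ, y = ((n + 1 : ℕ) : ℝ) := ⟨_, rfl⟩
  have hyn : y = n + 1 := by rw [hy]; push_cast; ring
  have hy0 : 0 < y := by rw [hyn]; linarith
  rw [← hy]
  have e1 : y ^ (-(1 + σ)) = y ^ (-σ) * y⁻¹ := by
    rw [neg_add, Real.rpow_add hy0, Real.rpow_neg_one, mul_comm]
  have e2 : (n : ℝ) ^ (-σ) = y ^ (-σ) * ((n : ℝ) / y) ^ (-σ) := by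
    rw [← Real.mul_rpow hy0.le (by positivity), mul_div_cancel₀ _ hy0.ne']
  have e3 : 1 + σ * y⁻¹ ≤ ((n : ℝ) / y) ^ (-σ) := by
    rw [Real.rpow_def_of_pos (by positivity)]
    have h1 := Real.add_one_le_exp (Real.log ((n : ℝ) / y) * -σ)
    have h2 := Real.log_le_sub_one_of_pos (show 0 < (n : ℝ) / y by positivity)
    have h3 : (n : ℝ) / y - 1 = -y⁻¹ := by
      rw [hyn]
      field_simp
      ring
    rw [h3] at h2
    nlinarith
  rw [le_div_iff₀ hσ, e1, e2]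
  have h4 : 0 < y ^ (-σ) := Real.rpow_pos_of_pos hy0 _
  nlinarith [mul_le_mul_of_nonneg_left e3 h4.le]

private theorem rp_sum {σ : ℝ} (hσ : 0 < σ) (n : ℕ) (hn : 1 ≤ n) :
    ∑ m ∈ Icc 1 n, (m : ℝ) ^ (-(1 + σ)) ≤ 1 + 1 / σ - (n : ℝ) ^ (-σ) / σ := by
  induction n, hn using Nat.le_induction with
  | base => simp
  | succ n hn ih =>
    rw [Finset.sum_Icc_succ_top (by omega)]
    have h1 := rp_step hσ n hn
    rw [sub_div] at h1
    linarith

theorem zet_le (K : Type) [Field K] [NumberField K] : ∃ C : ℝ, 0 < C ∧ ∀ σ : ℝ, 0 < σ → σ ≤ 1 → ∀ n : ℕ,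
    ∑ I ∈ IX K n, ((Ideal.absNorm I : ℕ) : ℝ) ^ (-(1 + σ)) ≤ C / σ := by
  classical
  obtain ⟨C, hC, hA⟩ := ix_le K
  refine ⟨2 * C, by positivity, fun σ hσ hσ1 n => ?_⟩
  rcases Nat.eq_zero_or_pos n with rfl | hn
  · have : IX K 0 = ∅ := by
      rw [Finset.eq_empty_iff_forall_notMem]
      intro I hI
      rw [mem_IX'] at hI
      omega
    rw [this, Finset.sum_empty]
    positivity
  have key : ∀ n : ℕ, 1 ≤ n → ∑ I ∈ IX K n, ((Ideal.absNorm I : ℕ) : ℝ) ^ (-(1 + σ)) ≤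
      ((IX K n).card : ℝ) * (n : ℝ) ^ (-(1 + σ)) +
        C * (∑ m ∈ Icc 1 n, (m : ℝ) ^ (-(1 + σ)) - n * (n : ℝ) ^ (-(1 + σ))) := by
    intro n hn
    induction n, hn using Nat.le_induction with
    | base =>
      have h1 : ∀ I ∈ IX K 1, ((Ideal.absNorm I : ℕ) : ℝ) ^ (-(1 + σ)) = 1 := by
        intro I hI
        rw [mem_IX'] at hI
        have : Ideal.absNorm I = 1 := le_antisymm hI.1 hI.2
        rw [this, Nat.cast_one, Real.one_rpow]
      rw [Finset.sum_congr rfl h1]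
      simp
    | succ n hn ih =>
      have hsub : IX K n ⊆ IX K (n + 1) := by
        intro I hI
        rw [mem_IX'] at hI ⊢
        exact ⟨by omega, hI.2⟩
      rw [← Finset.sum_sdiff hsub]
      have h1 : ∀ I ∈ IX K (n + 1) \ IX K n, ((Ideal.absNorm I : ℕ) : ℝ) ^ (-(1 + σ)) =
          ((n + 1 : ℕ) : ℝ) ^ (-(1 + σ)) := by
        intro I hI
        rw [Finset.mem_sdiff, mem_IX', mem_IX'] at hI
        have : Ideal.absNorm I = n + 1 := by
          rcases hI with ⟨⟨h1, h2⟩, h3⟩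
          by_contra hne
          exact h3 ⟨by omega, h2⟩
        rw [this]
      rw [Finset.sum_congr rfl h1, Finset.sum_const, nsmul_eq_mul, Finset.card_sdiff_of_subset hsub,
        Nat.cast_sub (Finset.card_le_card hsub), Finset.sum_Icc_succ_top (by omega)]
      have h2 := hA n
      have hx : (0 : ℝ) < n := by exact_mod_cast hn
      have h3 : ((n + 1 : ℕ) : ℝ) ^ (-(1 + σ)) ≤ (n : ℝ) ^ (-(1 + σ)) :=
        Real.rpow_le_rpow_of_nonpos hx (by push_cast; linarith) (by linarith)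
      have h4 : ((n + 1 : ℕ) : ℝ) = n + 1 := by push_cast; ring
      have h5 := mul_le_mul_of_nonneg_right h2 (sub_nonneg.2 h3)
      rw [h4] at h3 h5 ⊢
      nlinarith
  have h1 := key n hn
  have h2 := hA n
  have h3 := rp_sum hσ n hn
  have hx : (0 : ℝ) < n := by exact_mod_cast hn
  have h4 : 0 ≤ (n : ℝ) ^ (-(1 + σ)) := (Real.rpow_pos_of_pos hx _).le
  have h5 : 0 ≤ (n : ℝ) ^ (-σ) / σ := div_nonneg (Real.rpow_pos_of_pos hx _).le hσ.le
  have h6 := mul_le_mul_of_nonneg_right h2 h4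
  have h7 : ∑ m ∈ Icc 1 n, (m : ℝ) ^ (-(1 + σ)) ≤ 2 / σ := by
    have h8 : (1 : ℝ) ≤ 1 / σ := by
      rw [le_div_iff₀ hσ]
      linarith
    have h9 : 2 / σ = 1 / σ + 1 / σ := by ring
    linarith
  have h10 := mul_le_mul_of_nonneg_left h7 hC.le
  have h11 : 2 * C / σ = C * (2 / σ) := by ring
  rw [h11]
  nlinarith

end Pool.Agent.H6.LP
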