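import Pool.Agent.H6.LP.Defs
import Pool.Agent.H10.Sar.Mer
import Pool.Agent.H6.LP.MZet

/-!
# [H6 LP MEU] Prime ideals and the zeta function

PROOF. (1) For every `m` and `z` there is `y` with `∏_{P in PX z} ∑_{j<m} (N(P)^(-s))^j <= ∑_{I in IX y} N(I)^(-s)`: expand the product (`Finset.prod_univ_sum` as in `euler_le` of H10/Sar/Mer) over the functions `g : PX z -> range m`; `I_g = ∏ P^(g P)` is nonzero, `N(I_g)^(-s) = ∏ (N(P)^(-s))^(g P)`, and `g ↦ I_g` is injective (unique factorization: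
`(normalizedFactors I_g).count P = g P`); `y` = the maximum of the norms. (2) With `s = 1+σ`, `zet_le`: the product is `<= C/σ`; let `m -> ∞` (`t = N(P)^(-s) <= 1/2`, `∑_{j<m} t^j -> 1/(1-t)`; finite product of limits) or choose `m = 2` only: `∏ (1 + N(P)^(-s)) <= C/σ` and `log(1+t) >= t - t^2/2`... ; with the limit:
`∑ N(P)^(-s) <= ∑ -log(1 - N(P)^(-s)) = log ∏ (1-N(P)^(-s))^(-1) <= log (C/σ)`.
-/

set_option autoImplicit false

namespace Pool.Agent.H6.LP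

open Finset NumberField Filter Topology Pool.Agent.H10.Sar

private theorem prime_eq {K : Type} [Field K] [NumberField K] {P Q : Ideal (𝓞 K)} (hP0 : P ≠ ⊥)
    (hP : P.IsPrime) (hQ0 : Q ≠ ⊥) (hQ : Q.IsPrime) (h : P ∣ Q) : P = Q := by
  rw [Ideal.dvd_iff_le] at h
  exact ((hQ.isMaximal hQ0).eq_of_le hP.ne_top h).symm

/-- the product over subsets -/
private theorem prod_le_sum {K : Type} [Field K] [NumberField K] (s : ℝ) (z : ℕ) : ∃ y : ℕ,
    ∏ P ∈ PX K z, (1 + ((Ideal.absNorm P : ℕ) : ℝ) ^ (-s)) ≤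
      ∑ I ∈ IX K y, ((Ideal.absNorm I : ℕ) : ℝ) ^ (-s) := by
  classical
  have hPX : ∀ P ∈ PX K z, P ≠ ⊥ ∧ P.IsPrime := by
    intro P hP
    rw [mem_PX] at hP
    exact ⟨hP.1.2, hP.2⟩
  have hN1 : ∀ P ∈ PX K z, 1 ≤ Ideal.absNorm P := by
    intro P hP
    have := two_le_absNorm (hPX P hP).1 (hPX P hP).2
    omega
  refine ⟨∏ P ∈ PX K z, Ideal.absNorm P, ?_⟩
  rw [Finset.prod_one_add]
  have h1 : ∀ S ∈ (PX K z).powerset, ∏ P ∈ S, ((Ideal.absNorm P : ℕ) : ℝ) ^ (-s) =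
      ((Ideal.absNorm (∏ P ∈ S, P) : ℕ) : ℝ) ^ (-s) := by
    intro S _
    rw [Real.finsetProd_rpow _ _ (fun _ _ => Nat.cast_nonneg _), map_prod, Nat.cast_prod]
  rw [Finset.sum_congr rfl h1]
  have hinj : Set.InjOn (fun S : Finset (Ideal (𝓞 K)) => ∏ P ∈ S, P) (PX K z).powerset := by
    have key : ∀ S ⊆ PX K z, ∀ S' ⊆ PX K z, ∏ P ∈ S, P = ∏ P ∈ S', P → S ⊆ S' := by
      intro S hS S' hS' he P hP
      have hPp := hPX P (hS hP)
      have hpr : Prime P := (Ideal.prime_iff_isPrime hPp.1).2 hPp.2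
      have h2 : P ∣ ∏ Q ∈ S', Q := by
        rw [← he]
        exact Finset.dvd_prod_of_mem _ hP
      obtain ⟨Q, hQ, h3⟩ := (hpr.dvd_finsetProd_iff _).1 h2
      have hQp := hPX Q (hS' hQ)
      rw [prime_eq hPp.1 hPp.2 hQp.1 hQp.2 h3]
      exact hQ
    intro S hS S' hS' he
    have hS1 := Finset.mem_powerset.1 (Finset.mem_coe.1 hS)
    have hS2 := Finset.mem_powerset.1 (Finset.mem_coe.1 hS')
    exact Finset.Subset.antisymm (key S hS1 S' hS2 he) (key S' hS2 S hS1 he.symm)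
  rw [← Finset.sum_image (f := fun I : Ideal (𝓞 K) => ((Ideal.absNorm I : ℕ) : ℝ) ^ (-s)) hinj]
  refine Finset.sum_le_sum_of_subset_of_nonneg ?_ ?_
  · intro I hI
    rw [Finset.mem_image] at hI
    obtain ⟨S, hS, rfl⟩ := hI
    rw [Finset.mem_powerset] at hS
    rw [mem_IX', map_prod]
    constructor
    · exact Finset.prod_le_prod_of_subset_of_one_le' hS fun P hP _ => hN1 P hP
    · exact Nat.one_le_iff_ne_zero.2 (Finset.prod_ne_zero_iff.2 fun P hP => by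
        have := hN1 P (hS hP)
        omega)
  · intro I _ _
    exact Real.rpow_nonneg (Nat.cast_nonneg _) _

theorem eul (K : Type) [Field K] [NumberField K] : ∃ C : ℝ, 0 < C ∧ ∀ σ : ℝ, 0 < σ → σ ≤ 1 → ∀ z : ℕ,
    ∑ P ∈ PX K z, ((Ideal.absNorm P : ℕ) : ℝ) ^ (-(1 + σ)) ≤ Real.log (C / σ) := by
  classical
  obtain ⟨C, hC, h⟩ := zet_le K
  refine ⟨C * Real.exp C, by positivity, fun σ hσ hσ1 z => ?_⟩
  obtain ⟨y, hy⟩ := prod_le_sum (K := K) (1 + σ) z
  have h1 := hy.trans (h σ hσ hσ1 y)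
  have hpos : ∀ P ∈ PX K z, 0 < ((Ideal.absNorm P : ℕ) : ℝ) ^ (-(1 + σ)) := by
    intro P hP
    rw [mem_PX] at hP
    have h2 := two_le_absNorm hP.1.2 hP.2
    exact Real.rpow_pos_of_pos (by exact_mod_cast (by omega : 0 < Ideal.absNorm P)) _
  have h2 : ∑ P ∈ PX K z, Real.log (1 + ((Ideal.absNorm P : ℕ) : ℝ) ^ (-(1 + σ))) ≤ Real.log (C / σ) := by
    rw [← Real.log_prod (fun P hP => by have := hpos P hP; positivity)]
    refine Real.log_le_log (Finset.prod_pos fun P hP => by have := hpos P hP; positivity) h1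
  have h3 : ∀ P ∈ PX K z, ((Ideal.absNorm P : ℕ) : ℝ) ^ (-(1 + σ)) ≤
      Real.log (1 + ((Ideal.absNorm P : ℕ) : ℝ) ^ (-(1 + σ))) +
        ((Ideal.absNorm P : ℕ) : ℝ) ^ (-(1 + 1 : ℝ)) := by
    intro P hP
    have ht := hpos P hP
    obtain ⟨t, htd⟩ : ∃ t : ℝ, t = ((Ideal.absNorm P : ℕ) : ℝ) ^ (-(1 + σ)) := ⟨_, rfl⟩
    rw [← htd] at ht ⊢
    rw [mem_PX] at hP
    have h4 := two_le_absNorm hP.1.2 hP.2
    have hN : (1 : ℝ) ≤ ((Ideal.absNorm P : ℕ) : ℝ) := by exact_mod_cast (by omega : 1 ≤ Ideal.absNorm P)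
    have h5 : t ^ 2 ≤ ((Ideal.absNorm P : ℕ) : ℝ) ^ (-(1 + 1 : ℝ)) := by
      rw [htd, ← Real.rpow_natCast, ← Real.rpow_mul (by linarith)]
      refine Real.rpow_le_rpow_of_exponent_le hN ?_
      push_cast
      linarith
    have h6 : t - t ^ 2 ≤ Real.log (1 + t) := by
      have h7 := Real.one_sub_inv_le_log_of_pos (show 0 < 1 + t by linarith)
      have h8 : t - t ^ 2 ≤ 1 - (1 + t)⁻¹ := by
        have h9 : 1 - (1 + t)⁻¹ = t / (1 + t) := by
          field_simp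
          ring
        rw [h9, le_div_iff₀ (by linarith)]
        nlinarith [pow_pos ht 3]
      linarith
    linarith
  have h4 := Finset.sum_le_sum h3
  rw [Finset.sum_add_distrib] at h4
  have h5 : ∑ P ∈ PX K z, ((Ideal.absNorm P : ℕ) : ℝ) ^ (-(1 + 1 : ℝ)) ≤ C := by
    have h6 := h 1 one_pos le_rfl z
    rw [div_one] at h6
    refine le_trans ?_ h6
    refine Finset.sum_le_sum_of_subset_of_nonneg (Finset.filter_subset _ _) ?_
    intro I _ _
    exact Real.rpow_nonneg (Nat.cast_nonneg _) _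
  have h6 : Real.log (C * Real.exp C / σ) = Real.log (C / σ) + C := by
    rw [mul_div_right_comm, Real.log_mul (by positivity) (Real.exp_pos _).ne', Real.log_exp]
  rw [h6]
  linarith

end Pool.Agent.H6.LP
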