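import Pool.Agent.H6.LP.Defs
import Pool.Agent.H10.Sar.Mer
import Pool.Agent.H6.LP.MEul
import Pool.Agent.H6.LP.MPlg

/-!
# [H6 LP MTW] `∑ 1/N(P) <= log log z + C`

PROOF. `σ = 1/log z` (`z >= 3`, so `σ <= 1`), `s = 1+σ`. For `N = N(P) <= z`: `1/N - N^(-s) = (1/N)(1 - exp(-σ log N)) <= σ log N/N`. So `∑ 1/N(P) <= ∑ N(P)^(-s) + σ ∑ log N(P)/N(P) <= log (C/σ) + σ C' log z = log log z + log C + C'` (`eul`, `plog`).
-/

set_option autoImplicit false

namespace Pool.Agent.H6.LP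

open Finset NumberField Filter Topology Pool.Agent.H10.Sar

theorem ptwo (K : Type) [Field K] [NumberField K] : ∃ C : ℝ, ∀ z : ℕ, 3 ≤ z →
    ∑ P ∈ PX K z, (1 : ℝ) / (Ideal.absNorm P : ℕ) ≤ Real.log (Real.log z) + C := by
  obtain ⟨C1, hC1, h1⟩ := eul K
  obtain ⟨C2, hC2, h2⟩ := plog K
  refine ⟨Real.log C1 + C2, fun z hz => ?_⟩
  have hz3 : (3 : ℝ) ≤ z := by exact_mod_cast hz
  have hlog : 1 ≤ Real.log z := by
    rw [Real.le_log_iff_exp_le (by linarith)]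
    have := Real.exp_one_lt_d9
    linarith
  have hlog0 : 0 < Real.log z := by linarith
  obtain ⟨σ, hσ⟩ : ∃ σ : ℝ, σ = 1 / Real.log z := ⟨_, rfl⟩
  have hσ0 : 0 < σ := by rw [hσ]; positivity
  have hσ1 : σ ≤ 1 := by
    rw [hσ, div_le_one hlog0]
    exact hlog
  have hσl : σ * Real.log z = 1 := by
    rw [hσ]
    field_simp
  have h3 := h1 σ hσ0 hσ1 z
  have h4 := h2 z (by omega)
  have h5 : ∀ P ∈ PX K z, (1 : ℝ) / (Ideal.absNorm P : ℕ) ≤
      ((Ideal.absNorm P : ℕ) : ℝ) ^ (-(1 + σ)) +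
        σ * (Real.log (Ideal.absNorm P : ℕ) / ((Ideal.absNorm P : ℕ) : ℝ)) := by
    intro P hP
    have hP' := mem_PX.1 hP
    have hN := two_le_absNorm hP'.1.2 hP'.2
    obtain ⟨N, hNd⟩ : ∃ N : ℝ, N = ((Ideal.absNorm P : ℕ) : ℝ) := ⟨_, rfl⟩
    have hN0 : 0 < N := by
      rw [hNd]
      exact_mod_cast (by omega : 0 < Ideal.absNorm P)
    rw [← hNd]
    have e1 : N ^ (-(1 + σ)) = N⁻¹ * N ^ (-σ) := by
      rw [neg_add, Real.rpow_add hN0, Real.rpow_neg_one]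
    have e2 : 1 - σ * Real.log N ≤ N ^ (-σ) := by
      rw [Real.rpow_def_of_pos hN0]
      have := Real.add_one_le_exp (Real.log N * -σ)
      linarith
    have e3 := mul_le_mul_of_nonneg_left e2 (inv_pos.2 hN0).le
    rw [e1]
    have e4 : 1 / N = N⁻¹ * (1 - σ * Real.log N) + σ * (Real.log N / N) := by
      field_simp
      ring
    rw [e4]
    linarith
  have h6 := Finset.sum_le_sum h5
  rw [Finset.sum_add_distrib, ← Finset.mul_sum] at h6
  have h7 := mul_le_mul_of_nonneg_left h4 hσ0.le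
  have h8 : σ * (C2 * Real.log z) = C2 := by
    calc σ * (C2 * Real.log z) = C2 * (σ * Real.log z) := by ring
      _ = C2 := by rw [hσl, mul_one]
  have h9 : Real.log (C1 / σ) = Real.log C1 + Real.log (Real.log z) := by
    rw [hσ, div_div_eq_mul_div, div_one, Real.log_mul hC1.ne' hlog0.ne']
  rw [h9] at h3
  linarith

end Pool.Agent.H6.LP
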