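import Pool.Agent.H6.LP.Defs
import Pool.Agent.H10.Sar.Mer
import Pool.Agent.H6.LP.MTwo
import Pool.Agent.H6.LP.MFld
import Pool.Agent.H6.LP.Rts

/-!
# [H6 LP MPR] Lower bound for the sieve product

PROOF. `K`, `p0` from `fld`. `∑_{p0 < p <= z} nu/p = ∑_{p0 < p <= z} ∑_{N(P) = p} 1/N(P) <= ∑_{P in PX z} 1/N(P) <= log log z + C` (`ptwo`), so `∑_{w < p <= z} nu/p <= log log z + C'` (`C'` depends on `p0`: add `∑_{p <= p0} 3/p`). For `p > w >= 3` (so `p >= 5`) `t = nu/p <= 3/5` and `1 - t >= exp (-t - t^2)`, so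
`∏ (1 - nu/p) >= exp (-∑ nu/p - ∑ 9/p^2) >= exp (- log log z - C' - 9 * 2) = c/log z`. (`z >= 3`; for `2 <= z < 3` the product is empty and `c/log z <= 1` if `c` is small.)
-/

set_option autoImplicit false

namespace Pool.Agent.H6.LP

open Finset NumberField Filter Topology Pool.Agent.H10.Sar

theorem sum_nu_le (k : ℤ) (hk : ∀ a : ℤ, a ^ 3 ≠ k) : ∃ C : ℝ, ∀ z : ℝ, 3 ≤ z →
    ∑ p ∈ (Icc 1 ⌊z⌋₊).filter Nat.Prime, (nu k p : ℝ) / p ≤ Real.log (Real.log z) + C := by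
  classical
  obtain ⟨K, hK1, hK2, p0, hfld⟩ := fld k hk
  obtain ⟨C, hC⟩ := ptwo K
  refine ⟨C + 3 * p0, fun z hz => ?_⟩
  have hn : 3 ≤ ⌊z⌋₊ := Nat.le_floor (by exact_mod_cast hz)
  obtain ⟨n, hnd⟩ : ∃ n : ℕ, n = ⌊z⌋₊ := ⟨_, rfl⟩
  rw [← hnd] at hn ⊢
  have hnz : (n : ℝ) ≤ z := by
    rw [hnd]
    exact Nat.floor_le (by linarith)
  have hn3 : (3 : ℝ) ≤ n := by exact_mod_cast hn
  rw [← Finset.sum_filter_add_sum_filter_not _ (fun p => p ≤ p0)]
  have h1 : ∑ p ∈ ((Icc 1 n).filter Nat.Prime).filter (fun p => p ≤ p0), (nu k p : ℝ) / p ≤ 3 * p0 := by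
    have h2 : ∀ p ∈ ((Icc 1 n).filter Nat.Prime).filter (fun p => p ≤ p0), (nu k p : ℝ) / p ≤ 3 := by
      intro p hp
      rw [Finset.mem_filter, Finset.mem_filter] at hp
      have h3 := nu_le k p hp.1.2
      have h4 : (1 : ℝ) ≤ p := by exact_mod_cast hp.1.2.one_le
      rw [div_le_iff₀ (by linarith)]
      have h5 : (nu k p : ℝ) ≤ 3 := by exact_mod_cast h3
      linarith
    refine (Finset.sum_le_sum h2).trans ?_
    rw [Finset.sum_const, nsmul_eq_mul, mul_comm]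
    refine mul_le_mul_of_nonneg_left ?_ (by norm_num)
    have h6 : ((Icc 1 n).filter Nat.Prime).filter (fun p => p ≤ p0) ⊆ Icc 1 p0 := by
      intro p hp
      rw [Finset.mem_filter, Finset.mem_filter, Finset.mem_Icc] at hp
      rw [Finset.mem_Icc]
      exact ⟨hp.1.1.1, hp.2⟩
    have h7 := Finset.card_le_card h6
    rw [Nat.card_Icc, Nat.add_sub_cancel] at h7
    exact_mod_cast h7
  have h2 : ∑ p ∈ ((Icc 1 n).filter Nat.Prime).filter (fun p => ¬ p ≤ p0), (nu k p : ℝ) / p ≤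
      ∑ P ∈ PX K n, (1 : ℝ) / (Ideal.absNorm P : ℕ) := by
    have h3 : ∀ p ∈ ((Icc 1 n).filter Nat.Prime).filter (fun p => ¬ p ≤ p0), (nu k p : ℝ) / p =
        ∑ P ∈ PX K n, if p = Ideal.absNorm P then (1 : ℝ) / (Ideal.absNorm P : ℕ) else 0 := by
      intro p hp
      rw [Finset.mem_filter, Finset.mem_filter, Finset.mem_Icc] at hp
      have h4 := hfld p hp.1.2 (by omega) n hp.1.1.2
      rw [← Finset.sum_filter, ← h4]
      have h5 : (PX K n).filter (fun P => p = Ideal.absNorm P) =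
          (PX K n).filter (fun P => Ideal.absNorm P = p) := by
        refine Finset.filter_congr fun P _ => ?_
        exact eq_comm
      rw [h5]
      have h6 : ∀ P ∈ (PX K n).filter (fun P => Ideal.absNorm P = p),
          (1 : ℝ) / (Ideal.absNorm P : ℕ) = 1 / p := by
        intro P hP
        rw [(Finset.mem_filter.1 hP).2]
      rw [Finset.sum_congr rfl h6, Finset.sum_const, nsmul_eq_mul, mul_one_div]
    rw [Finset.sum_congr rfl h3, Finset.sum_comm]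
    refine Finset.sum_le_sum fun P _ => ?_
    rw [Finset.sum_ite_eq']
    split_ifs
    · exact le_rfl
    · positivity
  have h3 := hC n hn
  have h4 : Real.log (Real.log n) ≤ Real.log (Real.log z) := by
    refine Real.log_le_log (Real.log_pos (by linarith)) (Real.log_le_log (by linarith) hnz)
  linarith

private theorem one_sub_ge {t : ℝ} (h1 : t ≤ 3 / 5) :
    Real.exp (-(t + 5 / 2 * t ^ 2)) ≤ 1 - t := by
  have h2 : 0 < 1 - t := by linarith
  rw [← Real.le_log_iff_exp_le h2]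
  have h3 := Real.one_sub_inv_le_log_of_pos h2
  have h4 : -(t + 5 / 2 * t ^ 2) ≤ 1 - (1 - t)⁻¹ := by
    have h5 : 1 - (1 - t)⁻¹ = -t / (1 - t) := by
      field_simp
      ring
    rw [h5, le_div_iff₀ h2]
    nlinarith [sq_nonneg t, mul_nonneg (sq_nonneg t) (sub_nonneg.2 h1)]
  linarith

theorem prod_nu (k : ℤ) (hk : ∀ a : ℤ, a ^ 3 ≠ k) (w : ℕ) (hw : 3 ≤ w) : ∃ c : ℝ, 0 < c ∧ ∀ z : ℝ, 2 ≤ z →
    c / Real.log z ≤ ∏ p ∈ (Ioc w ⌊z⌋₊).filter Nat.Prime, (1 - (nu k p : ℝ) / p) := by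
  classical
  obtain ⟨C, hC⟩ := sum_nu_le k hk
  have hl2 : 0 < Real.log 2 := Real.log_pos (by norm_num)
  refine ⟨min (Real.exp (-(C + 45))) (Real.log 2), lt_min (Real.exp_pos _) hl2, fun z hz => ?_⟩
  have hlz : Real.log 2 ≤ Real.log z := Real.log_le_log (by norm_num) hz
  have hlz0 : 0 < Real.log z := hl2.trans_le hlz
  rcases lt_or_ge z 3 with h3 | h3
  · have h1 : ⌊z⌋₊ < 3 := (Nat.floor_lt (by linarith)).2 (by exact_mod_cast h3)
    rw [Finset.Ioc_eq_empty (by omega), Finset.filter_empty, Finset.prod_empty, div_le_one hlz0]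
    exact (min_le_right _ _).trans hlz
  · have hterm : ∀ p ∈ (Ioc w ⌊z⌋₊).filter Nat.Prime,
        Real.exp (-((nu k p : ℝ) / p + 5 / 2 * (9 * (1 / (p : ℝ) ^ 2)))) ≤ 1 - (nu k p : ℝ) / p := by
      intro p hp
      rw [Finset.mem_filter, Finset.mem_Ioc] at hp
      have h5 : 5 ≤ p := by
        by_contra hlt
        have h6 : p = 4 := by omega
        rw [h6] at hp
        exact absurd hp.2 (by norm_num)
      have hp5 : (5 : ℝ) ≤ p := by exact_mod_cast h5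
      have hp0 : (0 : ℝ) < p := by linarith
      have hnu : (nu k p : ℝ) ≤ 3 := by exact_mod_cast nu_le k p hp.2
      have hnu0 : (0 : ℝ) ≤ nu k p := Nat.cast_nonneg _
      have h1 : (nu k p : ℝ) / p ≤ 3 / 5 := by
        rw [div_le_iff₀ hp0]
        linarith
      refine le_trans ?_ (one_sub_ge h1)
      rw [Real.exp_le_exp]
      have h2 : ((nu k p : ℝ) / p) ^ 2 ≤ 9 * (1 / (p : ℝ) ^ 2) := by
        rw [div_pow, mul_one_div]
        refine div_le_div_of_nonneg_right ?_ (by positivity)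
        nlinarith
      linarith
    have h1 : ∏ p ∈ (Ioc w ⌊z⌋₊).filter Nat.Prime,
        Real.exp (-((nu k p : ℝ) / p + 5 / 2 * (9 * (1 / (p : ℝ) ^ 2)))) ≤
        ∏ p ∈ (Ioc w ⌊z⌋₊).filter Nat.Prime, (1 - (nu k p : ℝ) / p) :=
      Finset.prod_le_prod (fun p _ => (Real.exp_pos _).le) hterm
    refine le_trans ?_ h1
    rw [← Real.exp_sum, Finset.sum_neg_distrib, Finset.sum_add_distrib, ← Finset.mul_sum,
      ← Finset.mul_sum]
    have hsub : (Ioc w ⌊z⌋₊).filter Nat.Prime ⊆ (Icc 1 ⌊z⌋₊).filter Nat.Prime := by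
      intro p hp
      rw [Finset.mem_filter, Finset.mem_Ioc] at hp
      rw [Finset.mem_filter, Finset.mem_Icc]
      exact ⟨⟨by omega, hp.1.2⟩, hp.2⟩
    have h2 : ∑ p ∈ (Ioc w ⌊z⌋₊).filter Nat.Prime, (nu k p : ℝ) / p ≤ Real.log (Real.log z) + C :=
      (Finset.sum_le_sum_of_subset_of_nonneg hsub fun p _ _ => by positivity).trans (hC z h3)
    have h4 : ∑ p ∈ (Ioc w ⌊z⌋₊).filter Nat.Prime, 1 / (p : ℝ) ^ 2 ≤ 2 :=
      (Finset.sum_le_sum_of_subset_of_nonneg (hsub.trans (Finset.filter_subset _ _))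
        fun p _ _ => by positivity).trans (sum_inv_sq_le ⌊z⌋₊)
    have h5 : Real.exp (-(C + 45)) / Real.log z ≤
        Real.exp (-(∑ p ∈ (Ioc w ⌊z⌋₊).filter Nat.Prime, (nu k p : ℝ) / p +
          5 / 2 * (9 * ∑ p ∈ (Ioc w ⌊z⌋₊).filter Nat.Prime, 1 / (p : ℝ) ^ 2))) := by
      have h6 : Real.exp (-(C + 45)) / Real.log z = Real.exp (-(C + 45) - Real.log (Real.log z)) := by
        rw [Real.exp_sub, Real.exp_log hlz0]
      rw [h6, Real.exp_le_exp]
      linarith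
    refine le_trans ?_ h5
    exact div_le_div_of_nonneg_right (min_le_left _ _) hlz0.le

end Pool.Agent.H6.LP
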