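import Pool.Agent.H6.LP.Defs

/-!
# [H6 LP CUB] `u^3 = k v^3` only for `u = v = 0`; no short vectors

PROOF. `DD_ne`: if `v = 0` then `DD = u^3 /= 0`. If `v /= 0` and `u^3 = k v^3` then `v^3 | u^3`, so `v | u` (`Int.pow_dvd_pow_iff`), `u = w v`, `w^3 v^3 = k v^3`, `w^3 = k`, against `hk`.
`lat_dvd`: `u - r v | u^3 - (r v)^3` and `u^3 - k v^3 = (u^3 - (r v)^3) + (r^3 - k) v^3`.
`lat_min`: let `m = max |u| |v|`, `D = DD k u v /= 0`, `g | D`, so `g <= |D| <= |u|^3 + |k| |v|^3 <= (1 + |k|) m^3`; hence `g/(1+|k|) <= m^3` and `(g/(1+|k|))^(1/3) <= m` (`Real.rpow_le_rpow`, `(m^3)^(1/3) = m` for `m >= 0`).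
`mn_mul`: `g | g'`, `g' | u - r' v`, `g | r' - r` give `g | u - r v`.
`ll_pos`: clear.
-/

set_option autoImplicit false

namespace Pool.Agent.H6.LP

open Finset

theorem DD_ne (k : ℤ) (hk : ∀ a : ℤ, a ^ 3 ≠ k) (u v : ℤ) (h : (u, v) ≠ (0, 0)) : DD k u v ≠ 0 := by
  intro h0
  unfold DD at h0
  have h1 : u ^ 3 = k * v ^ 3 := by linarith
  by_cases hv : v = 0
  · subst hv
    have h2 : u ^ 3 = 0 := by rw [h1]; ring
    have h3 : u = 0 := (pow_eq_zero_iff (by norm_num)).1 h2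
    exact h (by rw [h3])
  · have h2 : v ^ 3 ∣ u ^ 3 := ⟨k, by rw [h1]; ring⟩
    have h3 : v ∣ u := (Int.pow_dvd_pow_iff (by norm_num)).1 h2
    obtain ⟨w, rfl⟩ := h3
    apply hk w
    have h4 : v ^ 3 * w ^ 3 = v ^ 3 * k := by rw [← mul_pow, h1]; ring
    exact mul_left_cancel₀ (pow_ne_zero 3 hv) h4

theorem lat_dvd (k r : ℤ) (g : ℤ) (hr : g ∣ r ^ 3 - k) (u v : ℤ) (h : g ∣ u - r * v) : g ∣ DD k u v := by
  have h1 : DD k u v = (u - r * v) * (u ^ 2 + u * (r * v) + (r * v) ^ 2) + (r ^ 3 - k) * v ^ 3 := by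
    unfold DD
    ring
  rw [h1]
  exact dvd_add (h.mul_right _) (hr.mul_right _)

theorem ll_pos (k : ℤ) (g : ℕ) (hg : 0 < g) : 0 < ll k g := by
  unfold ll
  have h1 : (0 : ℝ) < g := by exact_mod_cast hg
  positivity

theorem ll_mono (k : ℤ) (g g' : ℕ) (h : g ≤ g') : ll k g ≤ ll k g' := by
  unfold ll
  have h1 : (g : ℝ) ≤ g' := by exact_mod_cast h
  apply Real.rpow_le_rpow (by positivity) _ (by norm_num)
  exact div_le_div_of_nonneg_right h1 (by positivity)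

theorem lat_min (k : ℤ) (hk : ∀ a : ℤ, a ^ 3 ≠ k) (g : ℕ) (r : ℤ) (hr : (g : ℤ) ∣ r ^ 3 - k) :
    Mn g r (ll k g) := by
  intro u v huv hd
  have h1 := lat_dvd k r g hr u v hd
  have h2 := DD_ne k hk u v huv
  have h3 : (g : ℤ) ≤ |DD k u v| := Int.le_of_dvd (abs_pos.2 h2) ((dvd_abs _ _).2 h1)
  obtain ⟨m, hm⟩ : ∃ m : ℝ, m = max |(u : ℝ)| |(v : ℝ)| := ⟨_, rfl⟩
  rw [← hm]
  have hu : |(u : ℝ)| ≤ m := by rw [hm]; exact le_max_left _ _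
  have hv : |(v : ℝ)| ≤ m := by rw [hm]; exact le_max_right _ _
  have hm0 : 0 ≤ m := (abs_nonneg _).trans hu
  have h4 : (g : ℝ) ≤ |((DD k u v : ℤ) : ℝ)| := by exact_mod_cast h3
  have h5 : |((DD k u v : ℤ) : ℝ)| ≤ (1 + |(k : ℝ)|) * m ^ 3 := by
    unfold DD
    push_cast
    calc |(u : ℝ) ^ 3 - k * (v : ℝ) ^ 3| ≤ |(u : ℝ) ^ 3| + |(k : ℝ) * (v : ℝ) ^ 3| := abs_sub _ _
      _ = |(u : ℝ)| ^ 3 + |(k : ℝ)| * |(v : ℝ)| ^ 3 := by rw [abs_pow, abs_mul, abs_pow]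
      _ ≤ m ^ 3 + |(k : ℝ)| * m ^ 3 := by
          apply add_le_add
          · exact pow_le_pow_left₀ (abs_nonneg _) hu 3
          · exact mul_le_mul_of_nonneg_left (pow_le_pow_left₀ (abs_nonneg _) hv 3) (abs_nonneg _)
      _ = (1 + |(k : ℝ)|) * m ^ 3 := by ring
  have h6 : (g : ℝ) / (1 + |(k : ℝ)|) ≤ m ^ 3 := by
    rw [div_le_iff₀ (by positivity)]
    linarith
  unfold ll
  calc ((g : ℝ) / (1 + |(k : ℝ)|)) ^ (1 / 3 : ℝ) ≤ (m ^ 3) ^ (1 / 3 : ℝ) :=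
        Real.rpow_le_rpow (by positivity) h6 (by norm_num)
    _ = m := by
        rw [← Real.rpow_natCast, ← Real.rpow_mul hm0]
        norm_num

theorem mn_mul (g g' : ℕ) (r r' : ℤ) (l : ℝ) (h : Mn g r l) (hg : g ∣ g') (hr : (g : ℤ) ∣ r' - r) :
    Mn g' r' l := by
  intro u v huv hd
  apply h u v huv
  have h1 : (g : ℤ) ∣ u - r' * v := (Int.natCast_dvd_natCast.2 hg).trans hd
  have h2 : u - r * v = (u - r' * v) + (r' - r) * v := by ring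
  rw [h2]
  exact dvd_add h1 (hr.mul_right v)

end Pool.Agent.H6.LP
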