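import Pool.Agent.H6.LP.Defs

/-!
# [H6 LP DBD] Bounds in the box

PROOF. `v.1 in Ioc ⌊X1⌋ ⌊X1 + A/Q⌋` iff `X1 < v.1 <= X1 + A/Q` (`Int.floor_lt`, `Int.le_floor`), `X1 = (LMA - 1)/Q`; multiply by `Q > 0` and add `1`: `LMA < pb <= LMA + A`. The same for `pc`. `D = b^3 - k c^3 >= (LMA)^3 - |k| (MA+A)^3 >= (MA)^3 (L^3 - 8 |k|) >= A^3`
(`MA + A <= 2MA`; `L = |k|+2`, `(x+2)^3 - 8x >= 8 >= 1` for `x >= 0`), `D <= (LMA+A)^3 + |k| (2MA)^3 <= 8 (LMA)^3 + 8 |k| (MA)^3 <= 16 (LMA)^3` (`A <= LMA`, `|k| <= L^3`).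
`cop_Q`: `D = 1` mod `Q`.
-/

set_option autoImplicit false

namespace Pool.Agent.H6.LP

open Finset

theorem bx_bd (k : ℤ) (Q : ℕ) (hQ : 0 < Q) (M A : ℝ) (hM : 1 ≤ M) (hA : 1 ≤ A) (v : ℤ × ℤ) (hv : v ∈ Bx k Q M A) :
    Lk k * M * A < pb Q v ∧ (pb Q v : ℝ) ≤ Lk k * M * A + A ∧ M * A < pc Q v ∧ (pc Q v : ℝ) ≤ M * A + A ∧
      A ^ 3 ≤ DD k (pb Q v) (pc Q v) ∧ (DD k (pb Q v) (pc Q v) : ℝ) ≤ 16 * (Lk k * M * A) ^ 3 ∧
      (Q : ℤ) ∣ pb Q v - 1 ∧ (Q : ℤ) ∣ pc Q v := by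
  have hQR : (0 : ℝ) < Q := by exact_mod_cast hQ
  unfold Bx at hv
  rw [mem_product, mem_Ioc, mem_Ioc, Int.floor_lt, Int.le_floor, Int.floor_lt, Int.le_floor] at hv
  obtain ⟨⟨h1, h2⟩, h3, h4⟩ := hv
  rw [← add_div, le_div_iff₀ hQR] at h2 h4
  rw [div_lt_iff₀ hQR] at h1 h3
  obtain ⟨b, hb⟩ : ∃ b : ℝ, b = (pb Q v : ℝ) := ⟨_, rfl⟩
  obtain ⟨c, hc⟩ : ∃ c : ℝ, c = (pc Q v : ℝ) := ⟨_, rfl⟩
  have hb' : b = 1 + Q * v.1 := by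
    rw [hb]
    unfold pb
    push_cast
    ring
  have hc' : c = Q * v.2 := by
    rw [hc]
    unfold pc
    push_cast
    ring
  have hD : (DD k (pb Q v) (pc Q v) : ℝ) = b ^ 3 - k * c ^ 3 := by
    unfold DD
    push_cast
    rw [hb, hc]
  obtain ⟨x, hx⟩ : ∃ x : ℝ, x = |(k : ℝ)| := ⟨_, rfl⟩
  have hx0 : 0 ≤ x := hx ▸ abs_nonneg _
  have hL : Lk k = x + 2 := by
    rw [hx]
    rfl
  rw [← hb, ← hc, hD, hL]
  obtain ⟨m, hm⟩ : ∃ m : ℝ, m = M * A := ⟨_, rfl⟩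
  have hmA : A ≤ m := by
    rw [hm]
    exact le_mul_of_one_le_left (by linarith) hM
  have hLm : (x + 2) * M * A = (x + 2) * m := by rw [hm]; ring
  rw [hL] at h1 h2
  rw [hLm] at h1 h2 ⊢
  rw [← hm] at h3 h4 ⊢
  have hm0 : 0 < m := by linarith
  have b1 : (x + 2) * m < b := by rw [hb']; linarith
  have b2 : b ≤ (x + 2) * m + A := by rw [hb']; linarith
  have c1 : m < c := by rw [hc']; linarith
  have c2 : c ≤ m + A := by rw [hc']; linarith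
  have hc3 : c ^ 3 ≤ (2 * m) ^ 3 := pow_le_pow_left₀ (by linarith) (by linarith) 3
  have hc30 : 0 ≤ c ^ 3 := pow_nonneg (by linarith) 3
  have hk1 : |(k : ℝ) * c ^ 3| ≤ x * (2 * m) ^ 3 := by
    rw [abs_mul, ← hx, abs_of_nonneg hc30]
    exact mul_le_mul_of_nonneg_left hc3 hx0
  obtain ⟨k1, k2⟩ := abs_le.1 hk1
  have hb3 : ((x + 2) * m) ^ 3 ≤ b ^ 3 := pow_le_pow_left₀ (by positivity) b1.le 3
  have hb4 : b ^ 3 ≤ (2 * ((x + 2) * m)) ^ 3 := by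
    apply pow_le_pow_left₀ (by nlinarith)
    nlinarith
  have hmA3 : A ^ 3 ≤ m ^ 3 := pow_le_pow_left₀ (by linarith) hmA 3
  have hm3 : 0 < m ^ 3 := by positivity
  refine ⟨b1, b2, c1, c2, ?_, ?_, ?_, ?_⟩
  · have h5 : ((x + 2) * m) ^ 3 - x * (2 * m) ^ 3 = m ^ 3 + m ^ 3 * (x ^ 3 + 6 * x ^ 2 + 4 * x + 7) := by
      ring
    have h6 : 0 ≤ m ^ 3 * (x ^ 3 + 6 * x ^ 2 + 4 * x + 7) := by positivity
    linarith
  · have h5 : x * (2 * m) ^ 3 ≤ 8 * ((x + 2) * m) ^ 3 := by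
      have h6 : 8 * ((x + 2) * m) ^ 3 - x * (2 * m) ^ 3 = m ^ 3 * (8 * x ^ 3 + 48 * x ^ 2 + 88 * x + 64) := by
        ring
      have h7 : 0 ≤ m ^ 3 * (8 * x ^ 3 + 48 * x ^ 2 + 88 * x + 64) := by positivity
      linarith
    have h6 : (2 * ((x + 2) * m)) ^ 3 = 8 * ((x + 2) * m) ^ 3 := by ring
    rw [h6] at hb4
    linarith
  · unfold pb
    exact ⟨v.1, by ring⟩
  · unfold pc
    exact dvd_mul_right _ _

theorem cop_Q (k : ℤ) (Q : ℕ) (v : ℤ × ℤ) (p : ℕ) (hp : p.Prime) (h : (p : ℤ) ∣ DD k (pb Q v) (pc Q v)) : ¬ p ∣ Q := by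
  intro hd
  have h1 : (p : ℤ) ∣ (Q : ℤ) := Int.natCast_dvd_natCast.2 hd
  have h2 : DD k (pb Q v) (pc Q v) = 1 + Q * (3 * v.1 + 3 * Q * v.1 ^ 2 + Q ^ 2 * v.1 ^ 3 -
      k * Q ^ 2 * v.2 ^ 3) := by
    unfold DD pb pc
    ring
  rw [h2] at h
  have h3 : (p : ℤ) ∣ 1 := (dvd_add_left (dvd_mul_of_dvd_left h1 _)).1 h
  have h4 : p ∣ 1 := by exact_mod_cast h3
  exact hp.one_lt.ne' (Nat.dvd_one.1 h4)

theorem pb_pc_inj (Q : ℕ) (hQ : 0 < Q) : Function.Injective (fun v : ℤ × ℤ => (pb Q v, pc Q v)) := by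
  have hQZ : (Q : ℤ) ≠ 0 := by exact_mod_cast hQ.ne'
  intro v w h
  unfold pb pc at h
  simp only [Prod.mk.injEq] at h
  obtain ⟨h1, h2⟩ := h
  have h3 : (Q : ℤ) * v.1 = Q * w.1 := by linarith
  exact Prod.ext (mul_left_cancel₀ hQZ h3) (mul_left_cancel₀ hQZ h2)

/-- `D` has at most `T` prime factors above `A^α` if `α T > 3`, `A` large -/
theorem few_big (k : ℤ) (Q : ℕ) (hQ : 0 < Q) (M : ℝ) (hM : 1 ≤ M) (α : ℝ) (hα : 0 < α) (T : ℕ) (hT : 3 < α * (T + 1)) :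
    ∃ A0 : ℝ, 1 < A0 ∧ ∀ A : ℝ, A0 ≤ A → ∀ v ∈ Bx k Q M A,
      ((DD k (pb Q v) (pc Q v)).natAbs.primeFactors.filter (fun p : ℕ => A ^ α < (p : ℝ))).card ≤ T := by
  obtain ⟨δ, hδ⟩ : ∃ δ : ℝ, δ = α * (T + 1) - 3 := ⟨_, rfl⟩
  have hδ0 : 0 < δ := by rw [hδ]; linarith
  have hL : 0 < Lk k := by
    unfold Lk
    positivity
  obtain ⟨B, hB⟩ : ∃ B : ℝ, B = 16 * (Lk k * M) ^ 3 + 1 := ⟨_, rfl⟩
  have hB0 : 0 < B := by rw [hB]; positivity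
  refine ⟨max 2 (B ^ (1 / δ)), lt_max_of_lt_left (by norm_num), fun A hA v hv => ?_⟩
  have hA2 : 2 ≤ A := (le_max_left _ _).trans hA
  have hAB : B ^ (1 / δ) ≤ A := (le_max_right _ _).trans hA
  have hA1 : 1 ≤ A := by linarith
  have hA0 : 0 < A := by linarith
  have hBA : B ≤ A ^ δ := by
    have h1 : (B ^ (1 / δ)) ^ δ ≤ A ^ δ := Real.rpow_le_rpow (by positivity) hAB hδ0.le
    rwa [← Real.rpow_mul hB0.le, one_div_mul_cancel hδ0.ne', Real.rpow_one] at h1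
  obtain ⟨-, -, -, -, b5, b6, -⟩ := bx_bd k Q hQ M A hM hA1 v hv
  obtain ⟨D, hD⟩ : ∃ D, D = DD k (pb Q v) (pc Q v) := ⟨_, rfl⟩
  rw [← hD] at b5 b6 ⊢
  have hD0 : 0 < (D : ℝ) := lt_of_lt_of_le (by positivity) b5
  have hDZ : 0 < D := by exact_mod_cast hD0
  have hDn : 0 < D.natAbs := Int.natAbs_pos.2 hDZ.ne'
  obtain ⟨F, hF⟩ : ∃ F, F = D.natAbs.primeFactors.filter (fun p : ℕ => A ^ α < (p : ℝ)) := ⟨_, rfl⟩
  rw [← hF]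
  by_contra hc
  push Not at hc
  have h1 : ∏ p ∈ F, p ≤ D.natAbs := by
    have h2 : ∏ p ∈ F, p ∣ ∏ p ∈ D.natAbs.primeFactors, p := by
      rw [hF]
      exact Finset.prod_dvd_prod_of_subset _ _ _ (filter_subset _ _)
    exact Nat.le_of_dvd hDn (h2.trans (Nat.prod_primeFactors_dvd _))
  have h2 : (A ^ α) ^ F.card ≤ ∏ p ∈ F, (p : ℝ) := by
    rw [← Finset.prod_const]
    apply Finset.prod_le_prod
    · intro p _
      positivity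
    · intro p hp
      rw [hF, mem_filter] at hp
      exact hp.2.le
  have h3 : A ^ (α * (T + 1)) ≤ (A ^ α) ^ F.card := by
    rw [← Real.rpow_mul_natCast hA0.le]
    apply Real.rpow_le_rpow_of_exponent_le hA1
    apply mul_le_mul_of_nonneg_left _ hα.le
    exact_mod_cast hc
  have h4 : ∏ p ∈ F, (p : ℝ) ≤ D := by
    have h5 : ((∏ p ∈ F, p : ℕ) : ℝ) ≤ (D.natAbs : ℝ) := by exact_mod_cast h1
    have h6 : (D.natAbs : ℝ) = D := by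
      rw [Nat.cast_natAbs, abs_of_pos hDZ]
    rw [h6] at h5
    push_cast at h5
    exact h5
  have h5 : A ^ (α * (T + 1)) = A ^ δ * A ^ 3 := by
    have h6 : α * (T + 1) = δ + 3 := by rw [hδ]; ring
    rw [h6, Real.rpow_add hA0]
    congr 1
    exact_mod_cast Real.rpow_natCast A 3
  have h6 : A ^ δ * A ^ 3 ≤ 16 * (Lk k * M) ^ 3 * A ^ 3 := by
    calc A ^ δ * A ^ 3 ≤ D := by
          rw [← h5]
          linarith
      _ ≤ 16 * (Lk k * M * A) ^ 3 := b6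
      _ = 16 * (Lk k * M) ^ 3 * A ^ 3 := by ring
  have hA3 : 0 < A ^ 3 := by positivity
  have h7 : A ^ δ ≤ 16 * (Lk k * M) ^ 3 := le_of_mul_le_mul_right h6 hA3
  rw [hB] at hBA
  linarith

end Pool.Agent.H6.LP
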