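import Pool.Agent.H6.LP.Defs
import Pool.Agent.H6.LP.Cub

/-!
# [H6 LP ERR] The error terms are small

PROOF. `g = q1 q2`: `A^(5/4) < g <= A^(27/20)`, so `ll k g >= (1+|k|)^(-1/3) A^(5/12)` and `(A/Q)^2/g >= Q^(-2) A^(13/20)`, while `A^δ (16 (A/Q)/ll + 1) <= C A^(7/12+δ)`, and `7/12 + 1/50 < 13/20` (`0.6033 < 0.65`). For `A^(1/100)`-type factors: `δ = 1/50`. The second statement:
`A^(3/5 - 1/100) = o(A^(13/20))`. For large `A` the quotient is below any given `κ`.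
-/

set_option autoImplicit false

namespace Pool.Agent.H6.LP

open Finset

theorem err_small (k : ℤ) (Q : ℕ) (hQ : 0 < Q) (κ : ℝ) (hκ : 0 < κ) : ∃ A0 : ℝ, 1 < A0 ∧ ∀ A : ℝ, A0 ≤ A →
    ∀ (q1 q2 : ℕ) (r : ℤ), PQ k Q A q1 q2 r →
      A ^ (1 / 50 : ℝ) * (16 * (A / Q) / ll k (q1 * q2) + 1) ≤ κ * ((A / Q) ^ 2 / ((q1 * q2 : ℕ) : ℝ)) ∧
      A ^ (3 / 5 : ℝ) ≤ κ * ((A / Q) ^ 2 / ((q1 * q2 : ℕ) : ℝ)) := by
  have hQR : (1 : ℝ) ≤ Q := by exact_mod_cast hQ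
  have hQ0 : (0 : ℝ) < Q := by linarith
  obtain ⟨b, hb⟩ : ∃ b : ℝ, b = 1 + |(k : ℝ)| := ⟨_, rfl⟩
  have hb1 : 1 ≤ b := by
    rw [hb]
    linarith [abs_nonneg (k : ℝ)]
  have hb0 : 0 < b := by linarith
  obtain ⟨B, hB⟩ : ∃ B : ℝ, B = 17 * b * Q ^ 2 / κ + 1 := ⟨_, rfl⟩
  have hB1 : 1 ≤ B := by
    have : 0 < 17 * b * Q ^ 2 / κ := by positivity
    rw [hB]
    linarith
  refine ⟨max 2 (B ^ (30 : ℕ)), lt_max_of_lt_left (by norm_num), fun A hA q1 q2 r h => ?_⟩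
  have hA2 : 2 ≤ A := (le_max_left _ _).trans hA
  have hAB : B ^ (30 : ℕ) ≤ A := (le_max_right _ _).trans hA
  have hA1 : 1 ≤ A := by linarith
  have hA0 : 0 < A := by linarith
  have hs : B ≤ A ^ (1 / 30 : ℝ) := by
    have h1 : (B ^ (30 : ℕ)) ^ (1 / 30 : ℝ) ≤ A ^ (1 / 30 : ℝ) :=
      Real.rpow_le_rpow (by positivity) hAB (by norm_num)
    have h2 : (B ^ (30 : ℕ)) ^ (1 / 30 : ℝ) = B := by
      rw [← Real.rpow_natCast, ← Real.rpow_mul (by linarith)]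
      norm_num
    rwa [h2] at h1
  obtain ⟨g, hg⟩ : ∃ g : ℕ, g = q1 * q2 := ⟨_, rfl⟩
  have hg0 : 0 < g := hg ▸ Nat.mul_pos h.p1.pos h.p2.pos
  have hgR : (0 : ℝ) < g := by exact_mod_cast hg0
  have hg1 : A ^ (5 / 4 : ℝ) ≤ g := by
    have h1 : A ^ (5 / 4 : ℝ) = A ^ (3 / 5 : ℝ) * A ^ (13 / 20 : ℝ) := by
      rw [← Real.rpow_add hA0]
      norm_num
    rw [h1, hg]
    push_cast
    exact mul_le_mul h.l1.le h.l2.le (by positivity) (by positivity)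
  have hg2 : (g : ℝ) ≤ A ^ (27 / 20 : ℝ) := by
    have h1 : A ^ (27 / 20 : ℝ) = A ^ (13 / 20 : ℝ) * A ^ (7 / 10 : ℝ) := by
      rw [← Real.rpow_add hA0]
      norm_num
    rw [h1, hg]
    push_cast
    exact mul_le_mul h.u1 h.u2 (by positivity) (by positivity)
  rw [← hg]
  -- lower bound for ll
  have hll : A ^ (5 / 12 : ℝ) / b ≤ ll k g := by
    unfold ll
    rw [← hb]
    have h1 : (A ^ (5 / 4 : ℝ) / b) ^ (1 / 3 : ℝ) ≤ ((g : ℝ) / b) ^ (1 / 3 : ℝ) := by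
      apply Real.rpow_le_rpow (by positivity) _ (by norm_num)
      exact div_le_div_of_nonneg_right hg1 hb0.le
    refine le_trans ?_ h1
    rw [Real.div_rpow (by positivity) hb0.le, ← Real.rpow_mul hA0.le]
    have h2 : (5 / 4 * (1 / 3) : ℝ) = 5 / 12 := by norm_num
    rw [h2]
    apply div_le_div_of_nonneg_left (by positivity) (by positivity)
    calc b ^ (1 / 3 : ℝ) ≤ b ^ (1 : ℝ) := Real.rpow_le_rpow_of_exponent_le hb1 (by norm_num)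
      _ = b := Real.rpow_one b
  have hll0 : 0 < A ^ (5 / 12 : ℝ) / b := by positivity
  have h1 : 16 * (A / Q) / ll k g + 1 ≤ 17 * b * A ^ (7 / 12 : ℝ) := by
    have h2 : 16 * (A / Q) / ll k g ≤ 16 * A / (A ^ (5 / 12 : ℝ) / b) := by
      apply div_le_div₀ (by positivity) _ hll0 hll
      have : A / Q ≤ A := div_le_self hA0.le hQR
      linarith
    have h3 : 16 * A / (A ^ (5 / 12 : ℝ) / b) = 16 * b * A ^ (7 / 12 : ℝ) := by
      have h4 : A = A ^ (7 / 12 : ℝ) * A ^ (5 / 12 : ℝ) := by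
        rw [← Real.rpow_add hA0]
        norm_num
      have h5 : 0 < A ^ (5 / 12 : ℝ) := by positivity
      calc 16 * A / (A ^ (5 / 12 : ℝ) / b)
          = 16 * (A ^ (7 / 12 : ℝ) * A ^ (5 / 12 : ℝ)) / (A ^ (5 / 12 : ℝ) / b) := by rw [← h4]
        _ = 16 * b * A ^ (7 / 12 : ℝ) := by
            field_simp
    have h4 : 1 ≤ b * A ^ (7 / 12 : ℝ) := by
      have h5 : 1 ≤ A ^ (7 / 12 : ℝ) := Real.one_le_rpow hA1 (by norm_num)
      nlinarith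
    rw [h3] at h2
    linarith
  have h2 : A ^ (13 / 20 : ℝ) / Q ^ 2 ≤ (A / Q) ^ 2 / (g : ℝ) := by
    rw [div_pow, div_div, div_le_div_iff₀ (by positivity) (by positivity)]
    have h3 : A ^ 2 = A ^ (13 / 20 : ℝ) * A ^ (27 / 20 : ℝ) := by
      rw [← Real.rpow_add hA0, ← Real.rpow_natCast]
      norm_num
    rw [h3]
    calc A ^ (13 / 20 : ℝ) * ((Q : ℝ) ^ 2 * g) = A ^ (13 / 20 : ℝ) * g * Q ^ 2 := by ring
      _ ≤ A ^ (13 / 20 : ℝ) * A ^ (27 / 20 : ℝ) * Q ^ 2 := by gcongr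
  have h3 : 17 * b * Q ^ 2 ≤ κ * A ^ (1 / 30 : ℝ) := by
    have h4 : 17 * b * Q ^ 2 / κ ≤ A ^ (1 / 30 : ℝ) := by
      rw [hB] at hs
      linarith
    rw [div_le_iff₀ hκ] at h4
    linarith
  have key : 17 * b * A ^ (37 / 60 : ℝ) ≤ κ * ((A / Q) ^ 2 / (g : ℝ)) := by
    calc 17 * b * A ^ (37 / 60 : ℝ) = 17 * b * Q ^ 2 * A ^ (37 / 60 : ℝ) / Q ^ 2 := by
          field_simp
      _ ≤ κ * A ^ (1 / 30 : ℝ) * A ^ (37 / 60 : ℝ) / Q ^ 2 := by gcongr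
      _ = κ * (A ^ (13 / 20 : ℝ) / Q ^ 2) := by
          have h4 : A ^ (13 / 20 : ℝ) = A ^ (1 / 30 : ℝ) * A ^ (37 / 60 : ℝ) := by
            rw [← Real.rpow_add hA0]
            norm_num
          rw [h4]
          ring
      _ ≤ κ * ((A / Q) ^ 2 / (g : ℝ)) := mul_le_mul_of_nonneg_left h2 hκ.le
  constructor
  · calc A ^ (1 / 50 : ℝ) * (16 * (A / Q) / ll k g + 1)
        ≤ A ^ (1 / 50 : ℝ) * (17 * b * A ^ (7 / 12 : ℝ)) :=
          mul_le_mul_of_nonneg_left h1 (by positivity)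
      _ = 17 * b * (A ^ (1 / 50 : ℝ) * A ^ (7 / 12 : ℝ)) := by ring
      _ = 17 * b * A ^ (1 / 50 + 7 / 12 : ℝ) := by rw [← Real.rpow_add hA0]
      _ ≤ 17 * b * A ^ (37 / 60 : ℝ) := by
          apply mul_le_mul_of_nonneg_left _ (by positivity)
          exact Real.rpow_le_rpow_of_exponent_le hA1 (by norm_num)
      _ ≤ _ := key
  · calc A ^ (3 / 5 : ℝ) ≤ A ^ (37 / 60 : ℝ) := Real.rpow_le_rpow_of_exponent_le hA1 (by norm_num)
      _ ≤ 17 * b * A ^ (37 / 60 : ℝ) := by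
          apply le_mul_of_one_le_left (by positivity)
          linarith
      _ ≤ _ := key

end Pool.Agent.H6.LP
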