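import Pool.Agent.H6.LP.Defs
import Pool.Agent.H96.EB.Bas
import Pool.Agent.H96.EB.Red

/-!
# [H6 LP UPS] Upper bound for the number of points of a coset in a square

PROOF. If `S` is empty the bound is clear. Fix `v0 in S`. For `v in S` write `v - v0 = (Q a, Q b)`; `g | Q a - r Q b = Q (a - r b)`, `Q` and `g` coprime, so `g | a - r b`, `|a|, |b| <= Y`. Let `a = r b - g n`, i.e. `n = (r b - a)/g`. The map
`v ↦ (b, n)` from `S` to `Z x Z` is injective (`Q > 0`: if `Q = 0` then `Q.Coprime g` forces `g = 1` and all differences are divisible by `0`, so `#S <= 1`). Apply `H96.EB.red` with `X = 1`, `Y = 1/g`, `θ = r/g`: `gau 1 (1/g) (r/g) (b,n) = max |b| |g n - r b| = max |b| |a|` (`gau` is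
`max (|v.1|/X) (|v.2 - θ v.1|/Y)`), basis `v1, v2` with `det = 1`, `l1 = gau v1` minimal among nonzero vectors, `l1 <= l2`, `l1 l2 <= 2 g`; `bas_lo`: `1 <= 2 (1/g) l1 l2`, so `l1 l2 >= g/2`. `l <= l1`: the vector `v1 = (b1,n1) /= 0` gives `(r b1 - g n1, b1) /= (0,0)` in the lattice, so `hmin` gives `l <= l1`.
`bas_fin` with `t = Y` (if `Y < 0` then `S` has no element, as `|v.1 - v.1| = 0 <= Q Y`; or `Q = 0`): the image of `S` lies in a set of at most `(8Y/l1+1)(8Y/l2+1) = 64 Y^2/(l1 l2) + 8Y/l1 + 8Y/l2 + 1 <= 128 Y^2/g + 16 Y/l + 1` elements.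
-/

set_option autoImplicit false

namespace Pool.Agent.H6.LP

open Finset

private theorem gau_eq (g : ℕ) (hg : 0 < g) (r : ℤ) (v : ℤ × ℤ) :
    Pool.Agent.H96.EB.gau 1 (1 / g) (r / g) v =
      max |((r * v.1 - g * v.2 : ℤ) : ℝ)| |(v.1 : ℝ)| := by
  have hgR : (0 : ℝ) < g := by exact_mod_cast hg
  unfold Pool.Agent.H96.EB.gau
  rw [div_one, max_comm]
  congr 1
  have h1 : (v.2 : ℝ) - r / g * v.1 = -(((r * v.1 - g * v.2 : ℤ) : ℝ) / g) := by
    push_cast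
    field_simp
    ring
  rw [h1, abs_neg, abs_div, abs_of_pos hgR]
  field_simp

theorem ups (g Q : ℕ) (hg : 0 < g) (hQ : 0 < Q) (r : ℤ) (hQg : Q.Coprime g) (l : ℝ) (hl : 0 < l) (hmin : Mn g r l)
    (Y : ℝ) (hY : 0 ≤ Y) (S : Finset (ℤ × ℤ))
    (hS : ∀ v ∈ S, ∀ w ∈ S, (Q : ℤ) ∣ v.1 - w.1 ∧ (Q : ℤ) ∣ v.2 - w.2 ∧ (g : ℤ) ∣ (v.1 - w.1) - r * (v.2 - w.2) ∧
      |((v.1 - w.1 : ℤ) : ℝ)| ≤ Q * Y ∧ |((v.2 - w.2 : ℤ) : ℝ)| ≤ Q * Y) :
    (S.card : ℝ) ≤ 128 * Y ^ 2 / g + 16 * Y / l + 1 := by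
  classical
  have hgR : (0 : ℝ) < g := by exact_mod_cast hg
  have hQR : (0 : ℝ) < Q := by exact_mod_cast hQ
  have hgZ : (g : ℤ) ≠ 0 := by exact_mod_cast hg.ne'
  have hQZ : (Q : ℤ) ≠ 0 := by exact_mod_cast hQ.ne'
  rcases S.eq_empty_or_nonempty with hE | ⟨v0, hv0⟩
  · rw [hE, card_empty, Nat.cast_zero]
    positivity
  obtain ⟨v1, v2, hdet, hmin1, h12, hl12⟩ := Pool.Agent.H96.EB.red 1 (1 / g) (r / g) one_pos
    (by positivity)
  obtain ⟨T, hT, hTc⟩ := Pool.Agent.H96.EB.bas_fin 1 (1 / g) (r / g) one_pos (by positivity)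
    v1 v2 hdet hl12 Y hY
  have hlo := Pool.Agent.H96.EB.bas_lo 1 (1 / g) (r / g) one_pos (by positivity) v1 v2 hdet
  obtain ⟨l1, hl1⟩ : ∃ l1, l1 = Pool.Agent.H96.EB.gau 1 (1 / g) (r / g) v1 := ⟨_, rfl⟩
  obtain ⟨l2, hl2⟩ : ∃ l2, l2 = Pool.Agent.H96.EB.gau 1 (1 / g) (r / g) v2 := ⟨_, rfl⟩
  rw [← hl1, ← hl2] at hTc hlo
  rw [← hl1, ← hl2] at h12
  have hll1 : l ≤ l1 := by
    rw [hl1, gau_eq g hg r v1]
    apply hmin
    · intro h
      rw [Prod.mk.injEq] at h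
      obtain ⟨ha, hb⟩ := h
      rw [hb, mul_zero, zero_sub, neg_eq_zero] at ha
      have hc : v1.2 = 0 := (mul_eq_zero.1 ha).resolve_left hgZ
      rw [hb, hc] at hdet
      simp at hdet
    · exact ⟨-v1.2, by ring⟩
  have hl10 : 0 < l1 := by linarith
  have hl20 : 0 < l2 := by linarith
  -- the map
  have hrep : ∀ v ∈ S, ∃ a b n : ℤ, v.1 - v0.1 = Q * a ∧ v.2 - v0.2 = Q * b ∧ a = r * b - g * n := by
    intro v hv
    obtain ⟨⟨a, ha⟩, ⟨b, hb⟩, h3, -⟩ := hS v hv v0 hv0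
    rw [ha, hb] at h3
    have h4 : (Q : ℤ) * a - r * (Q * b) = Q * (a - r * b) := by ring
    rw [h4] at h3
    have hcop : IsCoprime (g : ℤ) (Q : ℤ) := hQg.symm.isCoprime
    obtain ⟨n, hn⟩ := hcop.dvd_of_dvd_mul_left h3
    exact ⟨a, b, -n, ha, hb, by linarith⟩
  choose! a b n h1 h2 h3 using hrep
  have hcard : S.card ≤ T.card := by
    apply card_le_card_of_injOn (fun v => (b v, n v))
    · intro v hv
      have hv' : v ∈ S := hv
      rw [mem_coe, hT, gau_eq g hg r]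
      dsimp only
      obtain ⟨-, -, -, h6, h7⟩ := hS v hv' v0 hv0
      rw [h1 v hv'] at h6
      rw [h2 v hv'] at h7
      push_cast at h6 h7
      rw [abs_mul, abs_of_pos hQR] at h6 h7
      have h8 := le_of_mul_le_mul_left h6 hQR
      have h9 := le_of_mul_le_mul_left h7 hQR
      rw [← h3 v hv']
      exact max_le h8 h9
    · intro v hv u hu huv
      have hv' : v ∈ S := hv
      have hu' : u ∈ S := hu
      simp only [Prod.mk.injEq] at huv
      obtain ⟨hb, hn⟩ := huv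
      have e1 : a v = a u := by rw [h3 v hv', h3 u hu', hb, hn]
      have e2 := h1 v hv'
      have e3 := h1 u hu'
      have e4 := h2 v hv'
      have e5 := h2 u hu'
      rw [e1] at e2
      rw [hb] at e4
      exact Prod.ext (by linarith) (by linarith)
  have hll : (g : ℝ) / 2 ≤ l1 * l2 := by
    have h4 : (1 : ℝ) ≤ 2 * (1 * (1 / g)) * (l1 * l2) := hlo
    have h5 : 2 * (1 * (1 / (g : ℝ))) * (l1 * l2) = 2 * (l1 * l2) / g := by ring
    rw [h5, le_div_iff₀ hgR] at h4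
    linarith
  have e1 : 64 * Y ^ 2 / (l1 * l2) ≤ 128 * Y ^ 2 / g := by
    rw [div_le_div_iff₀ (by positivity) hgR]
    have h4 : 0 ≤ Y ^ 2 := by positivity
    nlinarith
  have e2 : 8 * Y / l1 ≤ 8 * Y / l := div_le_div_of_nonneg_left (by positivity) hl hll1
  have e3 : 8 * Y / l2 ≤ 8 * Y / l := div_le_div_of_nonneg_left (by positivity) hl (by linarith)
  calc (S.card : ℝ) ≤ T.card := by exact_mod_cast hcard
    _ ≤ (8 * Y / l1 + 1) * (8 * Y / l2 + 1) := hTc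
    _ = 64 * Y ^ 2 / (l1 * l2) + 8 * Y / l1 + 8 * Y / l2 + 1 := by
        field_simp
        ring
    _ ≤ 128 * Y ^ 2 / g + 8 * Y / l + 8 * Y / l + 1 := by linarith
    _ = 128 * Y ^ 2 / g + 16 * Y / l + 1 := by ring

end Pool.Agent.H6.LP
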