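import Pool.Agent.H6.LP.Defs
import Pool.Agent.H6.LP.Cub
import Pool.Agent.H6.LP.Ups
import Pool.Agent.H6.LP.DBd
import Pool.Agent.H6.LP.Err

/-!
# [H6 LP BDI] Bad points (i): `b`, `c` not coprime

PROOF. `g = q1 q2`, `Y = A/Q`. A bad `v` has a prime `p | b, p | c`; `p` does not divide `Q` (`b = 1` mod `Q`), so `p > w`; `p <= c <= 2MA`. Write `b = p β`, `c = p γ`.
(1) `p` prime to `g`: `g | b - r c = p (β - r γ)`, so `g | β - r γ`; the set of the `(β,γ)` satisfies the hypotheses of `ups` with `Y/p` in place of `Y` (differences: `p (β - β')` is divisible by `Q`, `p` prime to `Q`; `|β - β'| <= A/p = Q (Y/p)`), `l = ll k g`: at most `128 (Y/p)^2/g + 16 (Y/p)/l + 1` points. Moreover the set is empty unless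
`p <= (LMA + A)/l`: `(β,γ) /= 0` is in the lattice, so `l <= max |β| |γ| <= (LMA+A)/p`. Sum over `w < p <= (LM+1)A/l =: T`: `∑ 1/p^2 <= 1/w` (over all integers `> w`), `∑_{p <= T} 1/p <= 1 + log T <= A^(1/50)` and `∑_{p <= T} 1 <= T` : total `<= (128/w) Y^2/g + 16 (Y/l) (1 + log T) + T`, and `T = (LM+1) A/l = (LM+1) Q Y/l <= A^(1/50) (16 Y/l + 1)`
for large `A`; with `w >= 20000` and `err_small` (`κ` small) this is `<= Y^2/(80 g)`.
(2) `p = q1`: `q2 | β - r γ` and the `(β,γ)` lie in a square of side `A/q1 < A^(2/5)`; for given `γ` (at most `A/q1 + 1` values) the `β` are congruent modulo `q2 > A^(13/20) > A/q1`, so at most one: at most `A^(2/5) + 1` points. (3) `p = q2`: the same with `q1 > A^(3/5) > A^(7/20) > A/q2`: at most `A^(7/20) + 1` points. Both together `<= A^(3/5) <= κ Y^2/g`.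
-/

set_option autoImplicit false

namespace Pool.Agent.H6.LP

open Finset

private theorem card_diff (G : Finset ℤ) (D : ℝ) (hD : 0 ≤ D)
    (h : ∀ x ∈ G, ∀ y ∈ G, |((x - y : ℤ) : ℝ)| ≤ D) : (G.card : ℝ) ≤ D + 1 := by
  rcases G.eq_empty_or_nonempty with h0 | h0
  · rw [h0, card_empty, Nat.cast_zero]
    linarith
  · obtain ⟨m, hm⟩ : ∃ m, m = G.min' h0 := ⟨_, rfl⟩
    have hmG : m ∈ G := by rw [hm]; exact G.min'_mem h0
    have hsub : G ⊆ Icc m (m + ⌊D⌋) := by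
      intro x hx
      rw [mem_Icc]
      have h1 : m ≤ x := by rw [hm]; exact G.min'_le x hx
      refine ⟨h1, ?_⟩
      have h2 := (abs_le.1 (h x hx m hmG)).2
      have h3 : x - m ≤ ⌊D⌋ := Int.le_floor.2 h2
      linarith
    have h1 := card_le_card hsub
    rw [Int.card_Icc] at h1
    have h2 : 0 ≤ ⌊D⌋ := Int.floor_nonneg.2 hD
    have h3 : (m + ⌊D⌋ + 1 - m).toNat = (⌊D⌋ + 1).toNat := by
      congr 1
      ring
    rw [h3] at h1
    have h4 : (G.card : ℤ) ≤ ⌊D⌋ + 1 := by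
      have h5 : ((⌊D⌋ + 1).toNat : ℤ) = ⌊D⌋ + 1 := Int.toNat_of_nonneg (by linarith)
      rw [← h5]
      exact_mod_cast h1
    have h5 : (G.card : ℝ) ≤ (⌊D⌋ : ℝ) + 1 := by exact_mod_cast h4
    have h6 := Int.floor_le D
    linarith

private theorem bdI_q (k : ℤ) (Q : ℕ) (hQ : 0 < Q) (M A : ℝ) (hM : 1 ≤ M) (hA : 1 ≤ A) (g q : ℕ) (r : ℤ)
    (hq : 0 < q) (hAg : A < g) (S : Finset (ℤ × ℤ))
    (hS : ∀ v ∈ S, v ∈ SG k Q M A g r ∧ (q : ℤ) ∣ pc Q v) : (S.card : ℝ) ≤ A / q + 1 := by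
  classical
  have hq0 : (0 : ℝ) < q := by exact_mod_cast hq
  have hbox : ∀ v ∈ S, Lk k * M * A < pb Q v ∧ (pb Q v : ℝ) ≤ Lk k * M * A + A ∧ M * A < pc Q v ∧
      (pc Q v : ℝ) ≤ M * A + A ∧ (g : ℤ) ∣ pb Q v - r * pc Q v := by
    intro v hv
    have h1 := (hS v hv).1
    unfold SG at h1
    rw [mem_filter] at h1
    obtain ⟨a1, a2, a3, a4, _⟩ := bx_bd k Q hQ M A hM hA v h1.1
    exact ⟨a1, a2, a3, a4, h1.2⟩
  have hinj : Set.InjOn (fun v : ℤ × ℤ => pc Q v / (q : ℤ)) (S : Set (ℤ × ℤ)) := by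
    intro v hv w hw hvw
    rw [mem_coe] at hv hw
    simp only at hvw
    obtain ⟨a1, a2, a3, a4, a5⟩ := hbox v hv
    obtain ⟨b1, b2, b3, b4, b5⟩ := hbox w hw
    obtain ⟨c1, hc1⟩ := (hS v hv).2
    obtain ⟨c2, hc2⟩ := (hS w hw).2
    have hqz : (q : ℤ) ≠ 0 := by exact_mod_cast hq.ne'
    rw [hc1, hc2, Int.mul_ediv_cancel_left _ hqz, Int.mul_ediv_cancel_left _ hqz] at hvw
    have hc : pc Q v = pc Q w := by rw [hc1, hc2, hvw]
    have h1 : (g : ℤ) ∣ pb Q v - pb Q w := by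
      have h2 : pb Q v - pb Q w = (pb Q v - r * pc Q v) - (pb Q w - r * pc Q w) := by
        rw [hc]
        ring
      rw [h2]
      exact dvd_sub a5 b5
    have h2 : pb Q v - pb Q w = 0 := by
      apply Int.eq_zero_of_abs_lt_dvd h1
      have h3 : (|pb Q v - pb Q w| : ℝ) < g := by
        rw [abs_lt]
        constructor <;> linarith
      exact_mod_cast h3
    have h3 := pb_pc_inj Q hQ
    apply h3
    simp only [Prod.mk.injEq]
    exact ⟨by linarith, hc⟩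
  have hcard : S.card = (S.image (fun v : ℤ × ℤ => pc Q v / (q : ℤ))).card :=
    (card_image_of_injOn hinj).symm
  rw [hcard]
  apply card_diff _ _ (by positivity)
  intro x hx y hy
  rw [mem_image] at hx hy
  obtain ⟨v, hv, rfl⟩ := hx
  obtain ⟨w, hw, rfl⟩ := hy
  obtain ⟨a1, a2, a3, a4, a5⟩ := hbox v hv
  obtain ⟨b1, b2, b3, b4, b5⟩ := hbox w hw
  obtain ⟨c1, hc1⟩ := (hS v hv).2
  obtain ⟨c2, hc2⟩ := (hS w hw).2
  have hqz : (q : ℤ) ≠ 0 := by exact_mod_cast hq.ne'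
  rw [hc1, hc2, Int.mul_ediv_cancel_left _ hqz, Int.mul_ediv_cancel_left _ hqz]
  rw [hc1] at a3 a4
  rw [hc2] at b3 b4
  push_cast at a3 a4 b3 b4 ⊢
  rw [abs_le, le_div_iff₀ hq0, ← neg_le_neg_iff, neg_neg]
  constructor
  · rw [le_div_iff₀ hq0]
    nlinarith
  · nlinarith

private theorem bdI_p (k : ℤ) (hk : ∀ a : ℤ, a ^ 3 ≠ k) (Q : ℕ) (hQ : 0 < Q) (M A : ℝ) (hM : 1 ≤ M)
    (hA : 1 ≤ A) (q1 q2 : ℕ) (r : ℤ) (h : PQ k Q A q1 q2 r) (p : ℕ) (hp : p.Prime) (hpQ : ¬ p ∣ Q)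
    (h1 : p ≠ q1) (h2 : p ≠ q2) (S : Finset (ℤ × ℤ))
    (hS : ∀ v ∈ S, v ∈ SG k Q M A (q1 * q2) r ∧ (p : ℤ) ∣ pb Q v ∧ (p : ℤ) ∣ pc Q v) :
    (S.card : ℝ) ≤ 128 * (A / Q / p) ^ 2 / ((q1 * q2 : ℕ) : ℝ) + 16 * (A / Q / p) / ll k (q1 * q2) + 1 ∧
      ∀ v ∈ S, (p : ℝ) * ll k (q1 * q2) ≤ Lk k * M * A + A := by
  classical
  obtain ⟨g, hg⟩ : ∃ g, g = q1 * q2 := ⟨_, rfl⟩
  have hg0 : 0 < g := by rw [hg]; exact Nat.mul_pos h.p1.pos h.p2.pos
  have hp0 : (0 : ℝ) < p := by exact_mod_cast hp.pos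
  have hQ0 : (0 : ℝ) < Q := by exact_mod_cast hQ
  have hmin := lat_min k hk (q1 * q2) r h.rt
  have hll := ll_pos k g hg0
  have hcq := h.cq
  rw [← hg] at hmin hcq ⊢
  have hpz : (p : ℤ) ≠ 0 := by exact_mod_cast hp.pos.ne'
  have hpg : IsCoprime (g : ℤ) (p : ℤ) := by
    rw [Nat.isCoprime_iff_coprime, hg]
    apply Nat.Coprime.mul_left
    · exact (Nat.coprime_primes h.p1 hp).2 (fun h3 => h1 h3.symm)
    · exact (Nat.coprime_primes h.p2 hp).2 (fun h3 => h2 h3.symm)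
  have hpQc : IsCoprime (Q : ℤ) (p : ℤ) := by
    rw [Nat.isCoprime_iff_coprime]
    exact ((Nat.Prime.coprime_iff_not_dvd hp).2 hpQ).symm
  have hbox : ∀ v ∈ S, Lk k * M * A < pb Q v ∧ (pb Q v : ℝ) ≤ Lk k * M * A + A ∧ M * A < pc Q v ∧
      (pc Q v : ℝ) ≤ M * A + A ∧ (g : ℤ) ∣ pb Q v - r * pc Q v := by
    intro v hv
    have h1 := (hS v hv).1
    rw [← hg] at h1
    unfold SG at h1
    rw [mem_filter] at h1
    obtain ⟨a1, a2, a3, a4, _⟩ := bx_bd k Q hQ M A hM hA v h1.1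
    exact ⟨a1, a2, a3, a4, h1.2⟩
  have hdiv : ∀ v ∈ S, pb Q v = p * (pb Q v / p) ∧ pc Q v = p * (pc Q v / p) := by
    intro v hv
    obtain ⟨_, h3, h4⟩ := hS v hv
    exact ⟨(Int.mul_ediv_cancel' h3).symm, (Int.mul_ediv_cancel' h4).symm⟩
  have hlat : ∀ v ∈ S, (g : ℤ) ∣ pb Q v / p - r * (pc Q v / p) := by
    intro v hv
    obtain ⟨e1, e2⟩ := hdiv v hv
    have h3 := (hbox v hv).2.2.2.2
    have h4 : pb Q v - r * pc Q v = (pb Q v / p - r * (pc Q v / p)) * p := by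
      linear_combination e1 - r * e2
    rw [h4] at h3
    exact hpg.dvd_of_dvd_mul_right h3
  constructor
  · have hinj : Set.InjOn (fun v : ℤ × ℤ => ((pb Q v / p, pc Q v / p) : ℤ × ℤ)) (S : Set (ℤ × ℤ)) := by
      intro v hv w hw hvw
      rw [mem_coe] at hv hw
      simp only [Prod.mk.injEq] at hvw
      obtain ⟨e1, e2⟩ := hdiv v hv
      obtain ⟨f1, f2⟩ := hdiv w hw
      apply pb_pc_inj Q hQ
      simp only [Prod.mk.injEq]
      exact ⟨by rw [e1, f1, hvw.1], by rw [e2, f2, hvw.2]⟩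
    rw [← card_image_of_injOn hinj]
    have hu := ups g Q hg0 hQ r hcq (ll k g) hll hmin (A / Q / p) (by positivity)
      (S.image (fun v : ℤ × ℤ => ((pb Q v / p, pc Q v / p) : ℤ × ℤ))) (by
      intro x hx y hy
      rw [mem_image] at hx hy
      obtain ⟨v, hv, rfl⟩ := hx
      obtain ⟨w, hw, rfl⟩ := hy
      simp only
      obtain ⟨e1, e2⟩ := hdiv v hv
      obtain ⟨f1, f2⟩ := hdiv w hw
      obtain ⟨a1, a2, a3, a4, _⟩ := hbox v hv
      obtain ⟨b1, b2, b3, b4, _⟩ := hbox w hw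
      obtain ⟨β, hβ⟩ : ∃ β, β = pb Q v / p := ⟨_, rfl⟩
      obtain ⟨γ, hγ⟩ : ∃ β, β = pc Q v / p := ⟨_, rfl⟩
      obtain ⟨β', hβ'⟩ : ∃ β, β = pb Q w / p := ⟨_, rfl⟩
      obtain ⟨γ', hγ'⟩ : ∃ β, β = pc Q w / p := ⟨_, rfl⟩
      have hlv := hlat v hv
      have hlw := hlat w hw
      rw [← hβ, ← hγ] at hlv
      rw [← hβ', ← hγ'] at hlw
      rw [← hβ] at e1
      rw [← hγ] at e2
      rw [← hβ'] at f1
      rw [← hγ'] at f2
      rw [← hβ, ← hγ, ← hβ', ← hγ']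
      have hQY : (Q : ℝ) * (A / Q / p) = A / p := by field_simp
      refine ⟨?_, ?_, ?_, ?_, ?_⟩
      · apply hpQc.dvd_of_dvd_mul_right
        have h3 : (β - β') * p = pb Q v - pb Q w := by rw [e1, f1]; ring
        rw [h3]
        unfold pb
        exact ⟨v.1 - w.1, by ring⟩
      · apply hpQc.dvd_of_dvd_mul_right
        have h3 : (γ - γ') * p = pc Q v - pc Q w := by rw [e2, f2]; ring
        rw [h3]
        unfold pc
        exact ⟨v.2 - w.2, by ring⟩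
      · have h3 : β - β' - r * (γ - γ') = (β - r * γ) - (β' - r * γ') := by ring
        rw [h3]
        exact dvd_sub hlv hlw
      · rw [hQY, le_div_iff₀ hp0]
        rw [e1] at a1 a2
        rw [f1] at b1 b2
        push_cast at a1 a2 b1 b2 ⊢
        have h5 : |(β : ℝ) - β'| * p = |((β : ℝ) - β') * p| := by rw [abs_mul, abs_of_pos hp0]
        rw [h5, abs_le]
        constructor <;> linarith
      · rw [hQY, le_div_iff₀ hp0]
        rw [e2] at a3 a4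
        rw [f2] at b3 b4
        push_cast at a3 a4 b3 b4 ⊢
        have h5 : |(γ : ℝ) - γ'| * p = |((γ : ℝ) - γ') * p| := by rw [abs_mul, abs_of_pos hp0]
        rw [h5, abs_le]
        constructor <;> linarith)
    exact hu
  · intro v hv
    obtain ⟨e1, e2⟩ := hdiv v hv
    obtain ⟨a1, a2, a3, a4, _⟩ := hbox v hv
    have hlv := hlat v hv
    obtain ⟨β, hβ⟩ : ∃ β, β = pb Q v / p := ⟨_, rfl⟩
    obtain ⟨γ, hγ⟩ : ∃ β, β = pc Q v / p := ⟨_, rfl⟩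
    rw [← hβ, ← hγ] at hlv
    rw [← hβ] at e1
    rw [← hγ] at e2
    have hA0 : 0 < A := by linarith
    have hM0 : 0 < M := by linarith
    have hL : 1 ≤ Lk k := by
      unfold Lk
      have := abs_nonneg (k : ℝ)
      linarith
    have hMA : M * A ≤ Lk k * M * A := by
      have h3 : 0 < M * A := mul_pos hM0 hA0
      nlinarith
    rw [e2] at a3 a4
    rw [e1] at a1 a2
    push_cast at a1 a2 a3 a4
    have hne : (β, γ) ≠ ((0, 0) : ℤ × ℤ) := by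
      intro h3
      have h4 : γ = 0 := congrArg Prod.snd h3
      rw [h4, Int.cast_zero, mul_zero] at a3
      have h3 : 0 < M * A := mul_pos hM0 hA0
      linarith
    have h3 := hmin β γ hne hlv
    have h4 : (p : ℝ) * ll k g ≤ p * max |(β : ℝ)| |(γ : ℝ)| := mul_le_mul_of_nonneg_left h3 hp0.le
    refine h4.trans ?_
    rw [mul_max_of_nonneg _ _ hp0.le]
    have h5 : (p : ℝ) * |(β : ℝ)| = |(p : ℝ) * β| := by rw [abs_mul, abs_of_pos hp0]
    have h6 : (p : ℝ) * |(γ : ℝ)| = |(p : ℝ) * γ| := by rw [abs_mul, abs_of_pos hp0]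
    have h7 : 0 < M * A := mul_pos hM0 hA0
    rw [h5, h6]
    apply max_le
    · rw [abs_le]
      constructor <;> linarith
    · rw [abs_le]
      constructor <;> linarith

private theorem bdI_par (k : ℤ) (Q : ℕ) (M : ℝ) (hM : 1 ≤ M) : ∃ A0 : ℝ, 1 < A0 ∧ ∀ A : ℝ, A0 ≤ A →
    1 + |(k : ℝ)| ≤ A ∧ 1 + Real.log ((Lk k * M + 1) * A) ≤ A ^ (1 / 50 : ℝ) / 2 ∧
    (Lk k * M + 1) * Q / 16 ≤ A ^ (1 / 50 : ℝ) / 2 ∧
    A ^ (2 / 5 : ℝ) + A ^ (7 / 20 : ℝ) + 2 ≤ A ^ (3 / 5 : ℝ) := by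
  have hL : 1 ≤ Lk k := by
    unfold Lk
    have := abs_nonneg (k : ℝ)
    linarith
  obtain ⟨c, hc⟩ : ∃ c, c = Lk k * M + 1 := ⟨_, rfl⟩
  have hc0 : 1 ≤ c := by
    rw [hc]
    nlinarith
  have h1 : Filter.Tendsto (fun A : ℝ => A ^ (1 / 50 : ℝ)) Filter.atTop Filter.atTop :=
    tendsto_rpow_atTop (by norm_num)
  have h2 : Filter.Tendsto (fun A : ℝ => A ^ (1 / 5 : ℝ)) Filter.atTop Filter.atTop :=
    tendsto_rpow_atTop (by norm_num)
  have h3 : ∀ᶠ x : ℝ in Filter.atTop, ‖Real.log x‖ ≤ 1 / 4 * ‖x ^ ((1 : ℝ) / 50)‖ :=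
    (isLittleO_log_rpow_atTop (by norm_num : (0 : ℝ) < 1 / 50)).def (by norm_num)
  have hev := h3.and ((Filter.eventually_ge_atTop (2 + |(k : ℝ)|)).and
    ((h1.eventually_ge_atTop (4 * (1 + Real.log c))).and
    ((h1.eventually_ge_atTop (c * Q / 8)).and (h2.eventually_ge_atTop 4))))
  obtain ⟨A0, hA0⟩ := Filter.eventually_atTop.1 hev
  refine ⟨max A0 2, lt_of_lt_of_le (by norm_num) (le_max_right _ _), fun A hA => ?_⟩
  obtain ⟨g1, g2, g3, g4, g5⟩ := hA0 A ((le_max_left _ _).trans hA)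
  have hk := abs_nonneg (k : ℝ)
  have hA1 : 1 ≤ A := by linarith
  have hA00 : 0 < A := by linarith
  rw [Real.norm_of_nonneg (Real.log_nonneg hA1), Real.norm_of_nonneg (Real.rpow_nonneg hA00.le _)] at g1
  rw [← hc]
  refine ⟨by linarith, ?_, by linarith, ?_⟩
  · rw [Real.log_mul (by linarith) hA00.ne']
    linarith
  · have e1 : A ^ (7 / 20 : ℝ) ≤ A ^ (2 / 5 : ℝ) :=
      Real.rpow_le_rpow_of_exponent_le hA1 (by norm_num)
    have e2 : 1 ≤ A ^ (2 / 5 : ℝ) := Real.one_le_rpow hA1 (by norm_num)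
    have e3 : A ^ (3 / 5 : ℝ) = A ^ (2 / 5 : ℝ) * A ^ (1 / 5 : ℝ) := by
      rw [← Real.rpow_add hA00]
      norm_num
    rw [e3]
    nlinarith

theorem bdI (k : ℤ) (hk : ∀ a : ℤ, a ^ 3 ≠ k) : ∃ w1 : ℕ, ∀ Q w : ℕ, w1 ≤ w → QW k Q w → ∀ M : ℝ, 1 ≤ M →
    ∃ A0 : ℝ, 1 < A0 ∧ ∀ A : ℝ, A0 ≤ A → ∀ (q1 q2 : ℕ) (r : ℤ), PQ k Q A q1 q2 r → ∀ S : Finset (ℤ × ℤ),
      (∀ v ∈ S, v ∈ SG k Q M A (q1 * q2) r ∧ ¬ IsCoprime (pb Q v) (pc Q v)) →
      (S.card : ℝ) ≤ (A / Q) ^ 2 / (40 * ((q1 * q2 : ℕ) : ℝ)) := by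
  classical
  refine ⟨20000, fun Q w hw hQW M hM => ?_⟩
  obtain ⟨A1, hA1, herr⟩ := err_small k Q hQW.pos (1 / 1000) (by norm_num)
  obtain ⟨A2, hA2, hpar⟩ := bdI_par k Q M hM
  refine ⟨max A1 A2, lt_of_lt_of_le hA1 (le_max_left _ _), fun A hA q1 q2 r h S hS => ?_⟩
  have hA1' : 1 < A := lt_of_lt_of_le hA1 ((le_max_left _ _).trans hA)
  obtain ⟨he1, he2⟩ := herr A ((le_max_left _ _).trans hA) q1 q2 r h
  obtain ⟨hk1, hlogA, hcA, hpow⟩ := hpar A ((le_max_right _ _).trans hA)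
  have hQ := hQW.pos
  have hQ0 : (0 : ℝ) < Q := by exact_mod_cast hQ
  have hA0 : 0 < A := by linarith
  have hw0 : 0 < w := by omega
  have hwR : (20000 : ℝ) ≤ w := by exact_mod_cast hw
  have hL : 1 ≤ Lk k := by
    unfold Lk
    have := abs_nonneg (k : ℝ)
    linarith
  have hq1 : (0 : ℝ) < q1 := by exact_mod_cast h.p1.pos
  have hq2 : (0 : ℝ) < q2 := by exact_mod_cast h.p2.pos
  obtain ⟨g, hg⟩ : ∃ g, g = q1 * q2 := ⟨_, rfl⟩
  have hg0 : 0 < g := by rw [hg]; exact Nat.mul_pos h.p1.pos h.p2.pos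
  have hgR : (0 : ℝ) < g := by exact_mod_cast hg0
  have hAg : A < g := by
    rw [hg]
    push_cast
    calc A = A ^ (1 : ℝ) := (Real.rpow_one A).symm
      _ ≤ A ^ (3 / 5 + 13 / 20 : ℝ) := Real.rpow_le_rpow_of_exponent_le hA1'.le (by norm_num)
      _ = A ^ (3 / 5 : ℝ) * A ^ (13 / 20 : ℝ) := Real.rpow_add hA0 _ _
      _ < q1 * q2 := mul_lt_mul'' h.l1 h.l2 (by positivity) (by positivity)
  obtain ⟨l, hl⟩ : ∃ l, l = ll k g := ⟨_, rfl⟩
  have hl1 : 1 ≤ l := by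
    rw [hl]
    unfold ll
    apply Real.one_le_rpow _ (by norm_num)
    rw [le_div_iff₀ (by positivity)]
    linarith
  obtain ⟨Y, hY⟩ : ∃ Y, Y = A / Q := ⟨_, rfl⟩
  have hY0 : 0 < Y := by rw [hY]; positivity
  obtain ⟨T, hT⟩ : ∃ T, T = (Lk k * M * A + A) / l := ⟨_, rfl⟩
  have hT0 : 0 ≤ T := by
    rw [hT]
    apply div_nonneg _ (by linarith)
    have : 0 ≤ Lk k * M * A := by positivity
    linarith
  obtain ⟨N, hN⟩ : ∃ N, N = ⌊T⌋₊ := ⟨_, rfl⟩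
  have hNT : (N : ℝ) ≤ T := by rw [hN]; exact Nat.floor_le hT0
  rw [← hg, ← hl, ← hY] at he1
  rw [← hg, ← hY] at he2
  rw [← hg, ← hY]
  -- the pieces
  obtain ⟨Sp, hSp⟩ : ∃ Sp : ℕ → Finset (ℤ × ℤ), Sp = fun p : ℕ =>
    S.filter (fun v => (p : ℤ) ∣ pb Q v ∧ (p : ℤ) ∣ pc Q v) := ⟨_, rfl⟩
  have hSpm : ∀ p v, v ∈ Sp p ↔ v ∈ S ∧ (p : ℤ) ∣ pb Q v ∧ (p : ℤ) ∣ pc Q v := by
    intro p v
    rw [hSp]
    exact mem_filter
  obtain ⟨P, hP⟩ : ∃ P : Finset ℕ, P = (Ioc w N).filter (fun p => p.Prime ∧ ¬ p ∣ Q ∧ p ≠ q1 ∧ p ≠ q2) :=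
    ⟨_, rfl⟩
  have hsub : S ⊆ P.biUnion Sp ∪ (Sp q1 ∪ Sp q2) := by
    intro v hv
    obtain ⟨hvS, hnc⟩ := hS v hv
    have h1 : ∃ p : ℕ, p.Prime ∧ (p : ℤ) ∣ pb Q v ∧ (p : ℤ) ∣ pc Q v := by
      rw [Int.isCoprime_iff_gcd_eq_one] at hnc
      obtain ⟨p, hp, hpd⟩ := Nat.exists_prime_and_dvd hnc
      exact ⟨p, hp, (Int.natCast_dvd_natCast.2 hpd).trans (Int.gcd_dvd_left _ _),
        (Int.natCast_dvd_natCast.2 hpd).trans (Int.gcd_dvd_right _ _)⟩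
    obtain ⟨p, hp, hpb, hpc⟩ := h1
    have hpQ : ¬ p ∣ Q := by
      intro h2
      have h3 : (p : ℤ) ∣ (Q : ℤ) * v.1 := Dvd.dvd.mul_right (Int.natCast_dvd_natCast.2 h2) _
      have h4 : (p : ℤ) ∣ 1 := by
        have h5 : (1 : ℤ) = pb Q v - Q * v.1 := by
          unfold pb
          ring
        rw [h5]
        exact dvd_sub hpb h3
      have h5 : p ∣ 1 := by exact_mod_cast h4
      exact hp.one_lt.ne' (Nat.dvd_one.1 h5)
    have hvp : v ∈ Sp p := (hSpm p v).2 ⟨hv, hpb, hpc⟩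
    rw [mem_union, mem_union, mem_biUnion]
    by_cases h1 : p = q1
    · right; left
      rw [← h1]
      exact hvp
    by_cases h2 : p = q2
    · right; right
      rw [← h2]
      exact hvp
    left
    refine ⟨p, ?_, hvp⟩
    rw [hP, mem_filter, mem_Ioc]
    refine ⟨⟨?_, ?_⟩, hp, hpQ, h1, h2⟩
    · by_contra h3
      exact hpQ (hQW.hw p hp (not_lt.1 h3))
    · rw [hN]
      apply Nat.le_floor
      rw [hT, le_div_iff₀ (by linarith)]
      have h3 := (bdI_p k hk Q hQ M A hM hA1'.le q1 q2 r h p hp hpQ h1 h2 (Sp p) (by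
        intro v' hv'
        obtain ⟨c1, c2, c3⟩ := (hSpm p v').1 hv'
        exact ⟨(hS v' c1).1, c2, c3⟩)).2 v hvp
      rw [← hg, ← hl] at h3
      exact h3
  have hc1 : ∀ p ∈ P, ((Sp p).card : ℝ) ≤ 128 * Y ^ 2 / g * ((p : ℝ) ^ 2)⁻¹ + 16 * Y / l * (p : ℝ)⁻¹ + 1 := by
    intro p hpP
    rw [hP, mem_filter] at hpP
    obtain ⟨_, hp, hpQ, h1, h2⟩ := hpP
    have h3 := (bdI_p k hk Q hQ M A hM hA1'.le q1 q2 r h p hp hpQ h1 h2 (Sp p) (by
        intro v' hv'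
        obtain ⟨c1, c2, c3⟩ := (hSpm p v').1 hv'
        exact ⟨(hS v' c1).1, c2, c3⟩)).1
    rw [← hg, ← hl, ← hY] at h3
    refine h3.trans (le_of_eq ?_)
    have hp0 : (0 : ℝ) < p := by exact_mod_cast hp.pos
    field_simp
  have hcq1 : ((Sp q1).card : ℝ) ≤ A / q1 + 1 := bdI_q k Q hQ M A hM hA1'.le g q1 r h.p1.pos hAg (Sp q1) (by
    intro v hv
    obtain ⟨c1, _, c3⟩ := (hSpm q1 v).1 hv
    rw [hg]
    exact ⟨(hS v c1).1, c3⟩)
  have hcq2 : ((Sp q2).card : ℝ) ≤ A / q2 + 1 := bdI_q k Q hQ M A hM hA1'.le g q2 r h.p2.pos hAg (Sp q2) (by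
    intro v hv
    obtain ⟨c1, _, c3⟩ := (hSpm q2 v).1 hv
    rw [hg]
    exact ⟨(hS v c1).1, c3⟩)
  have hq1A : A / q1 ≤ A ^ (2 / 5 : ℝ) := by
    rw [div_le_iff₀ hq1]
    have h1 : A = A ^ (2 / 5 : ℝ) * A ^ (3 / 5 : ℝ) := by
      rw [← Real.rpow_add hA0]
      norm_num
    calc A = A ^ (2 / 5 : ℝ) * A ^ (3 / 5 : ℝ) := h1
      _ ≤ A ^ (2 / 5 : ℝ) * q1 := mul_le_mul_of_nonneg_left h.l1.le (by positivity)
  have hq2A : A / q2 ≤ A ^ (7 / 20 : ℝ) := by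
    rw [div_le_iff₀ hq2]
    have h1 : A = A ^ (7 / 20 : ℝ) * A ^ (13 / 20 : ℝ) := by
      rw [← Real.rpow_add hA0]
      norm_num
    calc A = A ^ (7 / 20 : ℝ) * A ^ (13 / 20 : ℝ) := h1
      _ ≤ A ^ (7 / 20 : ℝ) * q2 := mul_le_mul_of_nonneg_left h.l2.le (by positivity)
  -- sums
  have hsum1 : ∑ p ∈ P, ((p : ℝ) ^ 2)⁻¹ ≤ 1 / 20000 := by
    rcases le_or_gt w N with hwN | hwN
    · have h1 : ∑ p ∈ P, ((p : ℝ) ^ 2)⁻¹ ≤ ∑ p ∈ Ioc w N, ((p : ℝ) ^ 2)⁻¹ := by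
        apply sum_le_sum_of_subset_of_nonneg
        · rw [hP]
          exact filter_subset _ _
        · intro p _ _
          positivity
      have h2 := sum_Ioc_inv_sq_le_sub (α := ℝ) hw0.ne' hwN
      have h3 : (0 : ℝ) ≤ ((N : ℝ))⁻¹ := by positivity
      have h4 : ((w : ℝ))⁻¹ ≤ 1 / 20000 := by
        rw [← one_div]
        exact one_div_le_one_div_of_le (by norm_num) hwR
      linarith
    · have h1 : P = ∅ := by
        rw [hP, Ioc_eq_empty_of_le hwN.le, filter_empty]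
      rw [h1, sum_empty]
      norm_num
  have hsum2 : ∑ p ∈ P, ((p : ℝ))⁻¹ ≤ 1 + Real.log ((Lk k * M + 1) * A) := by
    have h1 : ∑ p ∈ P, ((p : ℝ))⁻¹ ≤ ∑ p ∈ Icc 1 N, ((p : ℝ))⁻¹ := by
      apply sum_le_sum_of_subset_of_nonneg
      · intro p hp
        rw [hP, mem_filter, mem_Ioc] at hp
        rw [mem_Icc]
        omega
      · intro p _ _
        positivity
    have h2 := harmonic_le_one_add_log N
    rw [harmonic_eq_sum_Icc] at h2
    push_cast at h2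
    have h3 : Real.log N ≤ Real.log ((Lk k * M + 1) * A) := by
      have h4 : T ≤ (Lk k * M + 1) * A := by
        rw [hT, div_le_iff₀ (by linarith)]
        have h5 : 0 ≤ (Lk k * M + 1) * A := by positivity
        nlinarith
      rcases Nat.eq_zero_or_pos N with h5 | h5
      · rw [h5, Nat.cast_zero, Real.log_zero]
        apply Real.log_nonneg
        have h6 : 1 ≤ Lk k * M + 1 := by
          have : 0 ≤ Lk k * M := by positivity
          linarith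
        nlinarith
      · apply Real.log_le_log (by exact_mod_cast h5)
        linarith
    linarith
  have hPc : (P.card : ℝ) ≤ T := by
    have h1 : P ⊆ Icc 1 N := by
      intro p hp
      rw [hP, mem_filter, mem_Ioc] at hp
      rw [mem_Icc]
      omega
    have h2 := card_le_card h1
    rw [Nat.card_Icc, Nat.add_sub_cancel] at h2
    have h3 : (P.card : ℝ) ≤ N := by exact_mod_cast h2
    linarith
  have hmain : ((P.biUnion Sp).card : ℝ) ≤ 128 * Y ^ 2 / g * (1 / 20000) +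
      16 * Y / l * (A ^ (1 / 50 : ℝ) / 2) + T := by
    have h1 : ((P.biUnion Sp).card : ℝ) ≤ ∑ p ∈ P, ((Sp p).card : ℝ) := by
      exact_mod_cast card_biUnion_le
    refine h1.trans ((sum_le_sum hc1).trans ?_)
    rw [sum_add_distrib, sum_add_distrib, ← mul_sum, ← mul_sum, sum_const, nsmul_eq_mul, mul_one]
    have h2 : 128 * Y ^ 2 / g * ∑ p ∈ P, ((p : ℝ) ^ 2)⁻¹ ≤ 128 * Y ^ 2 / g * (1 / 20000) :=
      mul_le_mul_of_nonneg_left hsum1 (by positivity)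
    have h3 : 16 * Y / l * ∑ p ∈ P, ((p : ℝ))⁻¹ ≤ 16 * Y / l * (A ^ (1 / 50 : ℝ) / 2) :=
      mul_le_mul_of_nonneg_left (hsum2.trans hlogA) (by positivity)
    linarith
  have hTb : T ≤ 16 * Y / l * (A ^ (1 / 50 : ℝ) / 2) := by
    have h1 : T = (Lk k * M + 1) * Q / 16 * (16 * Y / l) := by
      rw [hT, hY]
      field_simp
    rw [h1, mul_comm]
    exact mul_le_mul_of_nonneg_left hcA (by positivity)
  have hcard : (S.card : ℝ) ≤ (P.biUnion Sp).card + ((Sp q1).card + (Sp q2).card) := by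
    have h1 := (card_le_card hsub).trans (card_union_le _ _)
    have h2 := h1.trans (Nat.add_le_add_left (card_union_le _ _) _)
    exact_mod_cast h2
  obtain ⟨Z, hZ⟩ : ∃ Z, Z = Y ^ 2 / (g : ℝ) := ⟨_, rfl⟩
  rw [← hZ] at he1 he2
  have hZ0 : 0 < Z := by rw [hZ]; positivity
  have h1 : 128 * Y ^ 2 / g * (1 / 20000) = 128 / 20000 * Z := by
    rw [hZ]
    ring
  have h2 : Y ^ 2 / (40 * (g : ℝ)) = 1 / 40 * Z := by
    rw [hZ]
    field_simp
  have h3 : 16 * Y / l * (A ^ (1 / 50 : ℝ) / 2) + 16 * Y / l * (A ^ (1 / 50 : ℝ) / 2) =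
      A ^ (1 / 50 : ℝ) * (16 * Y / l) := by ring
  have h4 : A ^ (1 / 50 : ℝ) * (16 * Y / l) ≤ A ^ (1 / 50 : ℝ) * (16 * Y / l + 1) :=
    mul_le_mul_of_nonneg_left (by linarith) (by positivity)
  rw [h1] at hmain
  rw [h2]
  linarith

end Pool.Agent.H6.LP
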