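import Pool.Agent.H6.LP.Defs
import Pool.Agent.H6.LP.Cub
import Pool.Agent.H6.LP.Ups
import Pool.Agent.H6.LP.Rts
import Pool.Agent.H6.LP.DBd

/-!
# [H6 LP MOD] Points of `SG` with `p^j | D`

PROOF. Let `g = q1 q2`, `v` in the set, `b = pb`, `c = pc`. `p` does not divide `c` (else `p | b^3`, so `p | b`, against `IsCoprime`), so there is `t in range (p^j)` with `b = t c` mod `p^j`, and then `p^j | t^3 - k` (`c^3 (t^3 - k) = b^3 - k c^3` mod `p^j`). At most 3 such `t` (`rts`; `p` does not divide `3k`: `3 |k| | Q`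
and `p` does not divide `Q`). For fixed `t` take `r'` with `g | r' - r`, `p^j | r' - t` (`root_crt`, or Chinese remainders; `p` is prime to `g`): then `g p^j | r'^3 - k` and `g p^j | b - r' c`. The set of the pairs `(b,c)` satisfies the hypotheses of `ups` with modulus `g p^j` (coprime to `Q`: `PQ.cq`, `p` not dividing `Q`),
`Y = A/Q`, `l = ll k g`, `Mn (g p^j) r' (ll k g)` by `mn_mul` from `lat_min` for `g` (differences of `b`: divisible by `Q`, at most `A` in absolute value, as both lie in an interval of length `A`). `(b,c)` determines `v`. Sum over the at most three `t`.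
-/

set_option autoImplicit false

namespace Pool.Agent.H6.LP

open Finset

private theorem ex_t (k b c : ℤ) (p j : ℕ) (hp : p.Prime) (hj : 1 ≤ j) (hbc : IsCoprime b c)
    (hd : ((p ^ j : ℕ) : ℤ) ∣ DD k b c) :
    ∃ t : ℕ, t ∈ (range (p ^ j)).filter (fun t : ℕ => ((p ^ j : ℕ) : ℤ) ∣ (t : ℤ) ^ 3 - k) ∧
      ((p ^ j : ℕ) : ℤ) ∣ b - t * c := by
  have hpZ : Prime (p : ℤ) := Nat.prime_iff_prime_int.1 hp
  have hpd : (p : ℤ) ∣ DD k b c := by
    refine dvd_trans ?_ hd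
    exact_mod_cast dvd_pow_self p (by omega : j ≠ 0)
  have hpc : ¬ (p : ℤ) ∣ c := by
    intro h
    have h1 : (p : ℤ) ∣ b ^ 3 := by
      have h2 : b ^ 3 = DD k b c + k * c ^ 3 := by
        unfold DD
        ring
      rw [h2]
      exact dvd_add hpd (dvd_mul_of_dvd_right (dvd_pow h (by norm_num)) k)
    have h2 : (p : ℤ) ∣ b := hpZ.dvd_of_dvd_pow h1
    exact hpZ.not_isUnit (hbc.isUnit_of_dvd' h2 h)
  have hcop : IsCoprime ((p ^ j : ℕ) : ℤ) c := by
    have h1 : IsCoprime (p : ℤ) c := (Prime.coprime_iff_not_dvd hpZ).2 hpc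
    push_cast
    exact h1.pow_left
  obtain ⟨s, u, hsu⟩ := hcop
  have hP0 : (0 : ℤ) < ((p ^ j : ℕ) : ℤ) := by
    exact_mod_cast pow_pos hp.pos j
  obtain ⟨P, hP⟩ : ∃ P : ℤ, P = ((p ^ j : ℕ) : ℤ) := ⟨_, rfl⟩
  rw [← hP] at hsu hd hP0 ⊢
  have ht0 : 0 ≤ (b * u) % P := Int.emod_nonneg _ hP0.ne'
  have ht1 : (b * u) % P < P := Int.emod_lt_of_pos _ hP0
  obtain ⟨t, ht⟩ : ∃ t : ℕ, (t : ℤ) = (b * u) % P := ⟨((b * u) % P).toNat, Int.toNat_of_nonneg ht0⟩
  have hbt : P ∣ b - t * c := by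
    rw [ht]
    have h1 : b - (b * u) % P * c = P * (b * s + (b * u) / P * c) := by
      have h2 := Int.emod_add_mul_ediv (b * u) P
      have h3 : (b * u) % P = b * u - P * ((b * u) / P) := by linarith
      have h4 : b = b * (s * P + u * c) := by rw [hsu, mul_one]
      rw [h3]
      linear_combination h4
    rw [h1]
    exact dvd_mul_right _ _
  refine ⟨t, ?_, hbt⟩
  rw [mem_filter, mem_range]
  constructor
  · have : (t : ℤ) < ((p ^ j : ℕ) : ℤ) := by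
      rw [ht, ← hP]
      exact ht1
    exact_mod_cast this
  · have hc3 : IsCoprime P (c ^ 3) := by
      have : IsCoprime P c := ⟨s, u, hsu⟩
      exact this.pow_right
    apply hc3.dvd_of_dvd_mul_right
    have h1 : ((t : ℤ) ^ 3 - k) * c ^ 3 = DD k b c - (b - t * c) * (b ^ 2 + b * (t * c) + (t * c) ^ 2) := by
      unfold DD
      ring
    rw [h1]
    exact dvd_sub hd (dvd_mul_of_dvd_left hbt _)

theorem modc (k : ℤ) (hk : ∀ a : ℤ, a ^ 3 ≠ k) (Q w : ℕ) (hQ : QW k Q w) (M A : ℝ) (hM : 1 ≤ M) (hA : 1 ≤ A)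
    (q1 q2 : ℕ) (r : ℤ) (h : PQ k Q A q1 q2 r) (p : ℕ) (hp : p.Prime) (hpQ : ¬ p ∣ Q) (h1 : p ≠ q1) (h2 : p ≠ q2)
    (j : ℕ) (hj : 1 ≤ j) (S : Finset (ℤ × ℤ))
    (hS : ∀ v ∈ S, v ∈ SG k Q M A (q1 * q2) r ∧ IsCoprime (pb Q v) (pc Q v) ∧
      ((p ^ j : ℕ) : ℤ) ∣ DD k (pb Q v) (pc Q v)) :
    (S.card : ℝ) ≤ 3 * (128 * (A / Q) ^ 2 / (((q1 * q2 : ℕ) : ℝ) * (p : ℝ) ^ j) +
      16 * (A / Q) / ll k (q1 * q2) + 1) := by
  classical
  obtain ⟨g, hg⟩ : ∃ g : ℕ, g = q1 * q2 := ⟨_, rfl⟩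
  have hg0 : 0 < g := hg ▸ Nat.mul_pos h.p1.pos h.p2.pos
  have hQ0 : 0 < Q := hQ.pos
  have hQR : (0 : ℝ) < Q := by exact_mod_cast hQ0
  have hA0 : 0 < A := by linarith
  have hpg : Nat.Coprime g (p ^ j) := by
    apply Nat.Coprime.pow_right
    rw [hg]
    exact Nat.Coprime.mul_left ((Nat.coprime_primes h.p1 hp).2 (Ne.symm h1))
      ((Nat.coprime_primes h.p2 hp).2 (Ne.symm h2))
  have hrg : (g : ℤ) ∣ r ^ 3 - k := by
    rw [hg]
    exact h.rt
  have h3k : ¬ (p : ℤ) ∣ 3 * k := by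
    intro hd
    apply hpQ
    refine dvd_trans ?_ hQ.h3k
    have h3 := Int.natAbs_dvd_natAbs.2 hd
    rwa [Int.natAbs_natCast, Int.natAbs_mul] at h3
  obtain ⟨R, hR⟩ : ∃ R, R = (range (p ^ j)).filter
    (fun t : ℕ => ((p ^ j : ℕ) : ℤ) ∣ (t : ℤ) ^ 3 - k) := ⟨_, rfl⟩
  have hRc : R.card ≤ 3 := hR ▸ rts k p hp h3k j hj
  have hcov : S ⊆ R.biUnion (fun t => S.filter (fun v => ((p ^ j : ℕ) : ℤ) ∣ pb Q v - t * pc Q v)) := by
    intro v hv
    obtain ⟨-, h4, h5⟩ := hS v hv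
    obtain ⟨t, ht, htd⟩ := ex_t k (pb Q v) (pc Q v) p j hp hj h4 h5
    rw [mem_biUnion]
    exact ⟨t, hR ▸ ht, mem_filter.2 ⟨hv, htd⟩⟩
  obtain ⟨Z, hZ⟩ : ∃ Z : ℝ, Z = 128 * (A / Q) ^ 2 / (((q1 * q2 : ℕ) : ℝ) * (p : ℝ) ^ j) +
      16 * (A / Q) / ll k (q1 * q2) + 1 := ⟨_, rfl⟩
  rw [← hZ]
  have hll : 0 < ll k g := ll_pos k g hg0
  have hZ0 : 0 ≤ Z := by
    rw [hZ, ← hg]
    positivity
  have hone : ∀ t ∈ R, ((S.filter (fun v => ((p ^ j : ℕ) : ℤ) ∣ pb Q v - t * pc Q v)).card : ℝ) ≤ Z := by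
    intro t ht
    rw [hR, mem_filter] at ht
    obtain ⟨r', hr1, hr2, hr3⟩ := root_crt k g (p ^ j) hpg r t hrg ht.2
    obtain ⟨T0, hT0⟩ : ∃ T0, T0 = S.filter (fun v => ((p ^ j : ℕ) : ℤ) ∣ pb Q v - t * pc Q v) :=
      ⟨_, rfl⟩
    rw [← hT0]
    have hinj := pb_pc_inj Q hQ0
    have hcard : (T0.image (fun v : ℤ × ℤ => (pb Q v, pc Q v))).card = T0.card :=
      card_image_of_injective _ hinj
    have hQg : Q.Coprime (g * p ^ j) := by
      apply Nat.Coprime.mul_right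
      · rw [hg]
        exact h.cq
      · apply Nat.Coprime.pow_right
        exact (Nat.Coprime.symm ((Nat.Prime.coprime_iff_not_dvd hp).2 hpQ))
    have hmn : Mn (g * p ^ j) r' (ll k g) :=
      mn_mul g (g * p ^ j) r r' (ll k g) (lat_min k hk g r hrg) (dvd_mul_right _ _) hr1
    have hdiv : ∀ v ∈ T0, ((g * p ^ j : ℕ) : ℤ) ∣ pb Q v - r' * pc Q v := by
      intro v hv
      rw [hT0, mem_filter] at hv
      obtain ⟨h4, -, -⟩ := hS v hv.1
      unfold SG at h4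
      rw [mem_filter, ← hg] at h4
      have h5 : (g : ℤ) ∣ pb Q v - r' * pc Q v := by
        have h6 : pb Q v - r' * pc Q v = (pb Q v - r * pc Q v) - (r' - r) * pc Q v := by ring
        rw [h6]
        exact dvd_sub h4.2 (dvd_mul_of_dvd_left hr1 _)
      have h7 : ((p ^ j : ℕ) : ℤ) ∣ pb Q v - r' * pc Q v := by
        have h6 : pb Q v - r' * pc Q v = (pb Q v - t * pc Q v) - (r' - t) * pc Q v := by ring
        rw [h6]
        exact dvd_sub hv.2 (dvd_mul_of_dvd_left hr2 _)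
      push_cast
      have h8 : IsCoprime (g : ℤ) (((p ^ j : ℕ) : ℤ)) := hpg.isCoprime
      push_cast at h8 h7
      exact h8.mul_dvd h5 h7
    have hbd : ∀ v ∈ T0, Lk k * M * A < pb Q v ∧ (pb Q v : ℝ) ≤ Lk k * M * A + A ∧
        M * A < pc Q v ∧ (pc Q v : ℝ) ≤ M * A + A := by
      intro v hv
      rw [hT0, mem_filter] at hv
      obtain ⟨h4, -, -⟩ := hS v hv.1
      unfold SG at h4
      rw [mem_filter] at h4
      obtain ⟨b1, b2, b3, b4, -⟩ := bx_bd k Q hQ0 M A hM hA v h4.1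
      exact ⟨b1, b2, b3, b4⟩
    have hQA : (Q : ℝ) * (A / Q) = A := by
      field_simp
    have key := ups (g * p ^ j) Q (Nat.mul_pos hg0 (pow_pos hp.pos j)) hQ0 r' hQg (ll k g) hll hmn
      (A / Q) (by positivity) (T0.image (fun v : ℤ × ℤ => (pb Q v, pc Q v))) (by
        intro v' hv' w' hw'
        rw [mem_image] at hv' hw'
        obtain ⟨v, hv, rfl⟩ := hv'
        obtain ⟨u, hu, rfl⟩ := hw'
        dsimp only
        obtain ⟨a1, a2, a3, a4⟩ := hbd v hv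
        obtain ⟨c1, c2, c3, c4⟩ := hbd u hu
        refine ⟨?_, ?_, ?_, ?_, ?_⟩
        · unfold pb
          exact ⟨v.1 - u.1, by ring⟩
        · unfold pc
          exact ⟨v.2 - u.2, by ring⟩
        · have h6 : (pb Q v - pb Q u) - r' * (pc Q v - pc Q u) =
              (pb Q v - r' * pc Q v) - (pb Q u - r' * pc Q u) := by ring
          rw [h6]
          exact dvd_sub (hdiv v hv) (hdiv u hu)
        · rw [hQA]
          push_cast
          rw [abs_le]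
          constructor <;> linarith
        · rw [hQA]
          push_cast
          rw [abs_le]
          constructor <;> linarith)
    rw [hcard] at key
    refine key.trans (le_of_eq ?_)
    rw [hZ, hg]
    push_cast
    ring
  have hfin : (S.card : ℝ) ≤ ∑ t ∈ R, ((S.filter
      (fun v => ((p ^ j : ℕ) : ℤ) ∣ pb Q v - t * pc Q v)).card : ℝ) := by
    exact_mod_cast (card_le_card hcov).trans card_biUnion_le
  calc (S.card : ℝ) ≤ _ := hfin
    _ ≤ ∑ _t ∈ R, Z := sum_le_sum hone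
    _ = R.card * Z := by rw [sum_const, nsmul_eq_mul]
    _ ≤ 3 * Z := mul_le_mul_of_nonneg_right (by exact_mod_cast hRc) hZ0

end Pool.Agent.H6.LP
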