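import Pool.Agent.H6.LP.Defs
import Pool.Agent.H6.LP.Mod
import Pool.Agent.H6.LP.Err

/-!
# [H6 LP BD2] Bad points (ii): `p^2 | D` with `p <= A^(1/100)`

PROOF. `p | D` gives `p` not dividing `Q` (`cop_Q`), so `p > w`; `p /= q1, q2` because `p <= A^(1/100) < A^(3/5)`. `modc` with `j = 2`: at most `3 (128 Y^2/(g p^2) + 16 Y/l + 1)` points for each `p`, `Y = A/Q`. Sum over the primes `w < p <= A^(1/100)`: `<= (384/w) Y^2/g + 3 A^(1/100) (16 Y/l + 1)`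
(`∑_{n > w} 1/n^2 <= 1/w`), with `w >= 40000` and `err_small` at most `Y^2/(40 g)` (`3 A^(1/100) <= A^(1/50)` for large `A`).
-/

set_option autoImplicit false

namespace Pool.Agent.H6.LP

open Finset

theorem bdII (k : ℤ) (hk : ∀ a : ℤ, a ^ 3 ≠ k) : ∃ w1 : ℕ, ∀ Q w : ℕ, w1 ≤ w → QW k Q w → ∀ M : ℝ, 1 ≤ M →
    ∃ A0 : ℝ, 1 < A0 ∧ ∀ A : ℝ, A0 ≤ A → ∀ (q1 q2 : ℕ) (r : ℤ), PQ k Q A q1 q2 r → ∀ S : Finset (ℤ × ℤ),
      (∀ v ∈ S, v ∈ SG k Q M A (q1 * q2) r ∧ IsCoprime (pb Q v) (pc Q v) ∧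
        ∃ p : ℕ, p.Prime ∧ (p : ℝ) ≤ A ^ (1 / 100 : ℝ) ∧ ((p ^ 2 : ℕ) : ℤ) ∣ DD k (pb Q v) (pc Q v)) →
      (S.card : ℝ) ≤ (A / Q) ^ 2 / (40 * ((q1 * q2 : ℕ) : ℝ)) := by
  classical
  refine ⟨40000, fun Q w hw hQ M hM => ?_⟩
  obtain ⟨A1, hA1, herr⟩ := err_small k Q hQ.pos (1 / 100) (by norm_num)
  refine ⟨max A1 (3 ^ (100 : ℕ)), lt_max_of_lt_left hA1, fun A hA q1 q2 r h S hS => ?_⟩
  have hA1' : A1 ≤ A := (le_max_left _ _).trans hA
  have hA3 : (3 : ℝ) ^ (100 : ℕ) ≤ A := (le_max_right _ _).trans hA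
  have hA0 : 1 < A := by linarith
  have hAp : 0 < A := by linarith
  obtain ⟨z, hz⟩ : ∃ z : ℝ, z = A ^ (1 / 100 : ℝ) := ⟨_, rfl⟩
  have hz0 : 0 < z := hz ▸ Real.rpow_pos_of_pos hAp _
  have hz3 : 3 ≤ z := by
    have h1 : ((3 : ℝ) ^ (100 : ℕ)) ^ (1 / 100 : ℝ) ≤ A ^ (1 / 100 : ℝ) :=
      Real.rpow_le_rpow (by positivity) hA3 (by norm_num)
    have h2 : ((3 : ℝ) ^ (100 : ℕ)) ^ (1 / 100 : ℝ) = 3 := by
      rw [← Real.rpow_natCast, ← Real.rpow_mul (by norm_num)]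
      norm_num
    rw [hz, ← h2]
    exact h1
  have hz2 : A ^ (1 / 50 : ℝ) = z * z := by
    rw [hz, ← Real.rpow_add hAp]
    norm_num
  have hzA : z < A ^ (3 / 5 : ℝ) := by
    rw [hz]
    exact Real.rpow_lt_rpow_of_exponent_lt hA0 (by norm_num)
  have hzA' : z < A ^ (13 / 20 : ℝ) := by
    rw [hz]
    exact Real.rpow_lt_rpow_of_exponent_lt hA0 (by norm_num)
  obtain ⟨g, hg⟩ : ∃ g : ℕ, g = q1 * q2 := ⟨_, rfl⟩
  have hg0 : 0 < g := hg ▸ Nat.mul_pos h.p1.pos h.p2.pos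
  have hgR : (0 : ℝ) < g := by exact_mod_cast hg0
  have hQR : (0 : ℝ) < Q := by exact_mod_cast hQ.pos
  obtain ⟨e1, -⟩ := herr A hA1' q1 q2 r h
  rw [← hg] at e1 ⊢
  obtain ⟨Y, hY⟩ : ∃ Y : ℝ, Y = A / Q := ⟨_, rfl⟩
  have hY0 : 0 < Y := by rw [hY]; positivity
  have hll : 0 < ll k g := ll_pos k g hg0
  obtain ⟨E, hE⟩ : ∃ E : ℝ, E = 16 * Y / ll k g + 1 := ⟨_, rfl⟩
  have hE0 : 0 < E := by rw [hE]; positivity
  rw [← hY] at e1 ⊢
  rw [← hE, hz2] at e1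
  obtain ⟨N, hN⟩ : ∃ N : ℕ, N = ⌊z⌋₊ := ⟨_, rfl⟩
  obtain ⟨P, hP⟩ : ∃ P : Finset ℕ, P = (Ioc w N).filter Nat.Prime := ⟨_, rfl⟩
  have hPp : ∀ p ∈ P, p.Prime ∧ w < p ∧ (p : ℝ) ≤ z := by
    intro p hp
    rw [hP, mem_filter, mem_Ioc, hN] at hp
    exact ⟨hp.2, hp.1.1, (Nat.le_floor_iff hz0.le).1 hp.1.2⟩
  obtain ⟨F, hF⟩ : ∃ F : ℕ → Finset (ℤ × ℤ), F = fun p => S.filter
      (fun v => ¬ p ∣ Q ∧ ((p ^ 2 : ℕ) : ℤ) ∣ DD k (pb Q v) (pc Q v)) := ⟨_, rfl⟩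
  have hcov : S ⊆ P.biUnion F := by
    intro v hv
    obtain ⟨-, -, p, hp, hpz, hpd⟩ := hS v hv
    have hpd1 : (p : ℤ) ∣ DD k (pb Q v) (pc Q v) := by
      refine dvd_trans ?_ hpd
      exact_mod_cast dvd_pow_self p (by norm_num : 2 ≠ 0)
    have hpQ := cop_Q k Q v p hp hpd1
    have hpw : w < p := by
      by_contra hc
      push Not at hc
      exact hpQ (hQ.hw p hp hc)
    rw [mem_biUnion]
    refine ⟨p, ?_, ?_⟩
    · rw [hP, mem_filter, mem_Ioc, hN]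
      exact ⟨⟨hpw, Nat.le_floor (by rw [hz]; exact hpz)⟩, hp⟩
    · rw [hF, mem_filter]
      exact ⟨hv, hpQ, hpd⟩
  have hone : ∀ p ∈ P, ((F p).card : ℝ) ≤ 384 * Y ^ 2 / g * ((p : ℝ) ^ 2)⁻¹ + 3 * E := by
    intro p hp
    obtain ⟨hp1, hp2, hp3⟩ := hPp p hp
    have hpR : (0 : ℝ) < p := by exact_mod_cast hp1.pos
    by_cases hpQ : p ∣ Q
    · have : F p = ∅ := by
        rw [hF]
        apply filter_false_of_mem
        intro v _ hv
        exact hv.1 hpQ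
      rw [this, card_empty, Nat.cast_zero]
      positivity
    · have h1 : p ≠ q1 := by
        intro he
        have h2 := h.l1
        rw [← he] at h2
        linarith
      have h2 : p ≠ q2 := by
        intro he
        have h2 := h.l2
        rw [← he] at h2
        linarith
      have key := modc k hk Q w hQ M A hM hA0.le q1 q2 r h p hp1 hpQ h1 h2 2 (by norm_num) (F p) (by
        intro v hv
        rw [hF, mem_filter] at hv
        obtain ⟨a1, a2, -⟩ := hS v hv.1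
        exact ⟨a1, a2, hv.2.2⟩)
      rw [← hg, ← hY] at key
      refine key.trans (le_of_eq ?_)
      rw [hE]
      field_simp
      ring
  have hsum : ∑ p ∈ P, ((p : ℝ) ^ 2)⁻¹ ≤ 1 / 40000 := by
    have hw0 : w ≠ 0 := by omega
    have hwR : (40000 : ℝ) ≤ w := by exact_mod_cast hw
    rcases le_total w N with hwN | hwN
    · calc ∑ p ∈ P, ((p : ℝ) ^ 2)⁻¹ ≤ ∑ p ∈ Ioc w N, ((p : ℝ) ^ 2)⁻¹ := by
            rw [hP]
            exact sum_le_sum_of_subset_of_nonneg (filter_subset _ _) fun _ _ _ => by positivity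
        _ ≤ (w : ℝ)⁻¹ - (N : ℝ)⁻¹ := sum_Ioc_inv_sq_le_sub hw0 hwN
        _ ≤ (w : ℝ)⁻¹ := by
            have : (0 : ℝ) ≤ (N : ℝ)⁻¹ := by positivity
            linarith
        _ ≤ 1 / 40000 := by
            rw [inv_eq_one_div]
            exact one_div_le_one_div_of_le (by norm_num) hwR
    · have : P = ∅ := by
        rw [hP, Ioc_eq_empty (by omega), filter_empty]
      rw [this, sum_empty]
      norm_num
  have hPc : (P.card : ℝ) ≤ z := by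
    have h1 : P.card ≤ N := by
      calc P.card ≤ (Ioc w N).card := by rw [hP]; exact card_filter_le _ _
        _ = N - w := Nat.card_Ioc _ _
        _ ≤ N := Nat.sub_le _ _
    calc (P.card : ℝ) ≤ N := by exact_mod_cast h1
      _ ≤ z := hN ▸ Nat.floor_le hz0.le
  have hc1 : (S.card : ℝ) ≤ ∑ p ∈ P, ((F p).card : ℝ) := by
    exact_mod_cast (card_le_card hcov).trans card_biUnion_le
  have hYg : 0 < Y ^ 2 / g := by positivity
  calc (S.card : ℝ) ≤ ∑ p ∈ P, ((F p).card : ℝ) := hc1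
    _ ≤ ∑ p ∈ P, (384 * Y ^ 2 / g * ((p : ℝ) ^ 2)⁻¹ + 3 * E) := sum_le_sum hone
    _ = 384 * (Y ^ 2 / g) * ∑ p ∈ P, ((p : ℝ) ^ 2)⁻¹ + P.card * (3 * E) := by
        rw [sum_add_distrib, ← mul_sum, sum_const, nsmul_eq_mul]
        ring
    _ ≤ 384 * (Y ^ 2 / g) * (1 / 40000) + z * (z * E) := by
        apply add_le_add
        · exact mul_le_mul_of_nonneg_left hsum (by positivity)
        · apply mul_le_mul hPc _ (by positivity) hz0.le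
          exact mul_le_mul_of_nonneg_right hz3 hE0.le
    _ = 384 * (Y ^ 2 / g) * (1 / 40000) + z * z * E := by ring
    _ ≤ 384 * (Y ^ 2 / g) * (1 / 40000) + 1 / 100 * (Y ^ 2 / g) := by linarith
    _ ≤ 1 / 40 * (Y ^ 2 / g) := by linarith
    _ = Y ^ 2 / (40 * (g : ℝ)) := by
        field_simp

end Pool.Agent.H6.LP
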