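import Pool.Agent.H6.LP.Defs

/-!
# [H6 LP PRM] Coprime pairs in a lattice have separated slopes

PROOF. For `v in S` let `s v = v.1/v.2`, `0 < v.2 <= MA + A <= 2MA`, `0 <= s v <= (LMA + A)/(MA) <= L + 1`. For `v /= w` in `S`: `v.1 w.2 - w.1 v.2 = (v.1 - r v.2) w.2 - (w.1 - r w.2) v.2` is divisible by `g`; it is not zero: `v.1 w.2 = w.1 v.2` with both pairs coprime and positive gives `v = w`
(`v.1 | w.1` and `w.1 | v.1`, etc.). So `|s v - s w| = |v.1 w.2 - w.1 v.2|/(v.2 w.2) >= g/(2MA)^2 =: δ`. So `v ↦ ⌊s v/δ⌋` is injective on `S` with values in `[0, ⌊(L+1)/δ⌋]` (`Int.abs_sub_lt_one_of_floor_eq_floor`), hence `#S <= (L+1)/δ + 1`.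
-/

set_option autoImplicit false

namespace Pool.Agent.H6.LP

open Finset

theorem prm (k : ℤ) (M A : ℝ) (hM : 1 ≤ M) (hA : 0 < A) (g : ℕ) (hg : 0 < g) (r : ℤ) (S : Finset (ℤ × ℤ))
    (hS : ∀ v ∈ S, IsCoprime v.1 v.2 ∧ Lk k * M * A < v.1 ∧ (v.1 : ℝ) ≤ Lk k * M * A + A ∧ M * A < v.2 ∧
      (v.2 : ℝ) ≤ M * A + A ∧ (g : ℤ) ∣ v.1 - r * v.2) :
    (S.card : ℝ) ≤ 1 + (Lk k + 1) * (2 * M * A) ^ 2 / g := by
  have hL : 0 < Lk k := by
    unfold Lk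
    positivity
  have hg0 : (0 : ℝ) < g := by exact_mod_cast hg
  have hM0 : 0 < M := by linarith
  have hMA : A ≤ M * A := by nlinarith
  have hMA0 : 0 < M * A := by positivity
  obtain ⟨δ, hδ⟩ : ∃ δ : ℝ, δ = g / (2 * M * A) ^ 2 := ⟨_, rfl⟩
  have hδ0 : 0 < δ := by rw [hδ]; positivity
  have hpos : ∀ v ∈ S, (0 : ℝ) < v.1 ∧ (0 : ℝ) < v.2 ∧ (v.2 : ℝ) ≤ 2 * M * A ∧
      (v.1 : ℝ) / v.2 ≤ Lk k + 1 := by
    intro v hv
    obtain ⟨_, h2, h3, h4, h5, _⟩ := hS v hv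
    have h6 : 0 < Lk k * M * A := by positivity
    have h7 : (0 : ℝ) < v.2 := by linarith
    refine ⟨by linarith, h7, by linarith, ?_⟩
    rw [div_le_iff₀ h7]
    have h8 : (v.1 : ℝ) ≤ (Lk k + 1) * (M * A) := by
      calc (v.1 : ℝ) ≤ Lk k * M * A + A := h3
        _ ≤ Lk k * M * A + M * A := by linarith
        _ = (Lk k + 1) * (M * A) := by ring
    have h9 : (Lk k + 1) * (M * A) ≤ (Lk k + 1) * v.2 :=
      mul_le_mul_of_nonneg_left h4.le (by linarith)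
    linarith
  have hinj : ∀ v ∈ S, ∀ w ∈ S, ⌊(v.1 : ℝ) / v.2 / δ⌋ = ⌊(w.1 : ℝ) / w.2 / δ⌋ → v = w := by
    intro v hv w hw hf
    by_contra hne
    obtain ⟨c1, _, _, _, _, d1⟩ := hS v hv
    obtain ⟨c2, _, _, _, _, d2⟩ := hS w hw
    obtain ⟨p1, p2, p3, _⟩ := hpos v hv
    obtain ⟨q1, q2, q3, _⟩ := hpos w hw
    have z1 : 0 < v.1 := by exact_mod_cast p1
    have z2 : 0 < v.2 := by exact_mod_cast p2
    have z3 : 0 < w.1 := by exact_mod_cast q1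
    have z4 : 0 < w.2 := by exact_mod_cast q2
    have hcross : v.1 * w.2 - w.1 * v.2 ≠ 0 := by
      intro h0
      have h1 : v.1 * w.2 = w.1 * v.2 := by linarith
      have h2 : v.1 ∣ w.1 := c1.dvd_of_dvd_mul_right ⟨w.2, h1.symm⟩
      have h3 : w.1 ∣ v.1 := c2.dvd_of_dvd_mul_right ⟨v.2, h1⟩
      have h4 : v.1 = w.1 := Int.dvd_antisymm z1.le z3.le h2 h3
      rw [h4] at h1
      have h5 : w.2 = v.2 := mul_left_cancel₀ z3.ne' h1
      exact hne (Prod.ext h4 h5.symm)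
    have hdvd : (g : ℤ) ∣ v.1 * w.2 - w.1 * v.2 := by
      have h1 : v.1 * w.2 - w.1 * v.2 = (v.1 - r * v.2) * w.2 - (w.1 - r * w.2) * v.2 := by ring
      rw [h1]
      exact dvd_sub (d1.mul_right _) (d2.mul_right _)
    have hge : (g : ℤ) ≤ |v.1 * w.2 - w.1 * v.2| :=
      Int.le_of_dvd (abs_pos.2 hcross) ((dvd_abs _ _).2 hdvd)
    have hgeR : (g : ℝ) ≤ |(v.1 : ℝ) * w.2 - w.1 * v.2| := by exact_mod_cast hge
    have h1 := Int.abs_sub_lt_one_of_floor_eq_floor hf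
    have h2 : (v.1 : ℝ) / v.2 / δ - (w.1 : ℝ) / w.2 / δ =
        ((v.1 : ℝ) * w.2 - w.1 * v.2) / (v.2 * w.2 * δ) := by
      field_simp
    rw [h2, abs_div, abs_of_pos (by positivity : (0 : ℝ) < v.2 * w.2 * δ),
      div_lt_one (by positivity)] at h1
    have h3 : (v.2 : ℝ) * w.2 * δ ≤ g := by
      have h4 : (v.2 : ℝ) * w.2 ≤ (2 * M * A) ^ 2 := by
        rw [pow_two]
        exact mul_le_mul p3 q3 q2.le (by positivity)
      calc (v.2 : ℝ) * w.2 * δ ≤ (2 * M * A) ^ 2 * δ := mul_le_mul_of_nonneg_right h4 hδ0.le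
        _ = g := by
            rw [hδ]
            field_simp
    linarith
  have hcard : S.card ≤ (Finset.Icc (0 : ℤ) ⌊(Lk k + 1) / δ⌋).card := by
    apply Finset.card_le_card_of_injOn (fun v => ⌊(v.1 : ℝ) / v.2 / δ⌋)
    · intro v hv
      obtain ⟨p1, p2, _, p4⟩ := hpos v hv
      rw [Finset.mem_coe, Finset.mem_Icc]
      constructor
      · apply Int.floor_nonneg.2
        positivity
      · apply Int.floor_le_floor
        exact div_le_div_of_nonneg_right p4 hδ0.le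
    · intro v hv w hw h
      exact hinj v hv w hw h
  have h5 : (0 : ℝ) ≤ (Lk k + 1) / δ := by positivity
  have h6 : 0 ≤ ⌊(Lk k + 1) / δ⌋ := Int.floor_nonneg.2 h5
  have h7 : ((Finset.Icc (0 : ℤ) ⌊(Lk k + 1) / δ⌋).card : ℝ) ≤ (Lk k + 1) / δ + 1 := by
    rw [Int.card_Icc, sub_zero]
    have h8 : ((⌊(Lk k + 1) / δ⌋ + 1).toNat : ℝ) = ((⌊(Lk k + 1) / δ⌋ + 1 : ℤ) : ℝ) := by
      have h9 : (((⌊(Lk k + 1) / δ⌋ + 1).toNat : ℕ) : ℤ) = ⌊(Lk k + 1) / δ⌋ + 1 :=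
        Int.toNat_of_nonneg (by omega)
      exact_mod_cast h9
    rw [h8]
    push_cast
    linarith [Int.floor_le ((Lk k + 1) / δ)]
  have h8 : (S.card : ℝ) ≤ ((Finset.Icc (0 : ℤ) ⌊(Lk k + 1) / δ⌋).card : ℝ) := by
    exact_mod_cast hcard
  have h9 : (Lk k + 1) / δ = (Lk k + 1) * (2 * M * A) ^ 2 / g := by
    rw [hδ]
    field_simp
  rw [← h9]
  linarith

end Pool.Agent.H6.LP
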