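import Pool.Agent.H6.LP.Defs
import Pool.Agent.H6.LP.Prm
import Pool.Agent.H6.LP.Rts
import Pool.Agent.H6.LP.DBd

/-!
# [H6 LP BD3] Bad points (iii): `p^2 | D` with `p > A^(1/100)`

PROOF. `p^2 <= D <= 16 (LMA)^3` (`bx_bd`), so `p <= 4 (LMA)^(3/2)`. `p` does not divide `Q` (`cop_Q`), so not `3k`. For given `p`: `p` does not divide `c` (coprime), `b = t c` mod `p^2` with `t in range (p^2)`, `p^2 | t^3 - k`: at most 3 values of `t` (`rts`); for each `t` the pairs `(b,c)` satisfy `prm` with `g = p^2`: at most `1 + (L+1)(2MA)^2/p^2`.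
So for each `p` at most `3 + 3 (L+1) (2MA)^2/p^2` points (`(b,c)` determines `v`), and in all `<= 3 * 4 (LMA)^(3/2) + 3 (L+1)(2MA)^2 * ∑_{n > A^(1/100)} 1/n^2 <= C A^(3/2) + C A^2 * 2 A^(-1/100) <= C' A^(199/100)` (`∑_{n > z} 1/n^2 <= 2/z` for `z >= 1`).
-/

set_option autoImplicit false

namespace Pool.Agent.H6.LP

open Finset

private theorem sum_inv_sq (z : ℝ) (hz : 1 ≤ z) (N : ℕ) (P : Finset ℕ) (hP : ∀ p ∈ P, z < (p : ℝ) ∧ p ≤ N) :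
    ∑ p ∈ P, ((p : ℝ) ^ 2)⁻¹ ≤ 2 / z := by
  have hz0 : 0 < z := by linarith
  obtain ⟨m, hm⟩ : ∃ m : ℕ, m = ⌊z⌋₊ := ⟨_, rfl⟩
  have hm1 : 1 ≤ m := by rw [hm]; exact (Nat.one_le_floor_iff z).2 hz
  have hmz : (m : ℝ) ≤ z := by rw [hm]; exact Nat.floor_le hz0.le
  have hzm : z < m + 1 := by rw [hm]; exact Nat.lt_floor_add_one z
  have hsub : P ⊆ Ioc m (max m N) := by
    intro p hp
    obtain ⟨h1, h2⟩ := hP p hp
    rw [mem_Ioc]
    refine ⟨?_, h2.trans (le_max_right _ _)⟩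
    have h3 : (m : ℝ) < p := by linarith
    exact_mod_cast h3
  have h1 : ∑ p ∈ P, ((p : ℝ) ^ 2)⁻¹ ≤ ∑ p ∈ Ioc m (max m N), ((p : ℝ) ^ 2)⁻¹ :=
    sum_le_sum_of_subset_of_nonneg hsub fun p _ _ => by positivity
  have h2 := sum_Ioc_inv_sq_le_sub (α := ℝ) (by omega : m ≠ 0) (le_max_left m N)
  have h3 : (0 : ℝ) ≤ (((max m N : ℕ) : ℝ))⁻¹ := by positivity
  have hmR : (1 : ℝ) ≤ m := by exact_mod_cast hm1
  have h4 : ((m : ℝ))⁻¹ ≤ 2 / z := by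
    rw [← one_div, div_le_div_iff₀ (by linarith) hz0]
    linarith
  linarith

private theorem bd3_t (k : ℤ) (M A : ℝ) (hM : 1 ≤ M) (hA : 1 ≤ A) (Q : ℕ) (hQ : 0 < Q) (p : ℕ) (hp : p.Prime)
    (h3k : ¬ (p : ℤ) ∣ 3 * k) (S : Finset (ℤ × ℤ))
    (hS : ∀ v ∈ S, v ∈ Bx k Q M A ∧ IsCoprime (pb Q v) (pc Q v) ∧
      ((p ^ 2 : ℕ) : ℤ) ∣ DD k (pb Q v) (pc Q v)) :
    (S.card : ℝ) ≤ 3 * (1 + (Lk k + 1) * (2 * M * A) ^ 2 / ((p ^ 2 : ℕ) : ℝ)) := by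
  classical
  obtain ⟨R, hR⟩ : ∃ R, R = (range (p ^ 2)).filter (fun t : ℕ => ((p ^ 2 : ℕ) : ℤ) ∣ (t : ℤ) ^ 3 - k) :=
    ⟨_, rfl⟩
  have hRc : R.card ≤ 3 := by rw [hR]; exact rts k p hp h3k 2 (by norm_num)
  have hp2 : 0 < p ^ 2 := pow_pos hp.pos 2
  obtain ⟨St, hSt⟩ : ∃ St : ℕ → Finset (ℤ × ℤ), St = fun t : ℕ =>
    S.filter (fun v => ((p ^ 2 : ℕ) : ℤ) ∣ pb Q v - t * pc Q v) := ⟨_, rfl⟩
  have hsub : S ⊆ R.biUnion St := by
    intro v hv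
    obtain ⟨_, hco, hd⟩ := hS v hv
    obtain ⟨b, hb⟩ : ∃ b, b = pb Q v := ⟨_, rfl⟩
    obtain ⟨c, hc⟩ : ∃ c, c = pc Q v := ⟨_, rfl⟩
    rw [← hb, ← hc] at hco hd
    have hpp : (p : ℤ) ∣ ((p ^ 2 : ℕ) : ℤ) := by
      push_cast
      exact dvd_pow_self _ (by norm_num)
    have hpc : ¬ (p : ℤ) ∣ c := by
      intro h1
      have h2 : (p : ℤ) ∣ b ^ 3 := by
        have h3 : b ^ 3 = DD k b c + k * c ^ 3 := by
          unfold DD
          ring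
        rw [h3]
        exact dvd_add (hpp.trans hd) (Dvd.dvd.mul_left (dvd_pow h1 (by norm_num)) _)
      have h3 : (p : ℤ) ∣ b := (Nat.prime_iff_prime_int.1 hp).dvd_of_dvd_pow h2
      have h4 := hco.isUnit_of_dvd' h3 h1
      exact (Nat.prime_iff_prime_int.1 hp).not_isUnit h4
    have hcp : IsCoprime c ((p ^ 2 : ℕ) : ℤ) := by
      push_cast
      apply IsCoprime.pow_right
      rw [isCoprime_comm]
      exact (Prime.coprime_iff_not_dvd (Nat.prime_iff_prime_int.1 hp)).2 hpc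
    obtain ⟨u, w, huw⟩ := hcp
    -- t = u b mod p^2
    obtain ⟨t, ht⟩ : ∃ t : ℕ, (t : ℤ) = (u * b) % ((p ^ 2 : ℕ) : ℤ) :=
      ⟨((u * b) % ((p ^ 2 : ℕ) : ℤ)).toNat, Int.toNat_of_nonneg (Int.emod_nonneg _ (by
        exact_mod_cast hp2.ne'))⟩
    have hd1 : ((p ^ 2 : ℕ) : ℤ) ∣ u * b - t := by
      rw [ht]
      exact Int.dvd_self_sub_emod
    have hd2 : ((p ^ 2 : ℕ) : ℤ) ∣ b - t * c := by
      have h1 : b - t * c = (u * b - t) * c + w * b * ((p ^ 2 : ℕ) : ℤ) := by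
        linear_combination (-b) * huw
      rw [h1]
      exact dvd_add (Dvd.dvd.mul_right hd1 _) (Dvd.intro_left _ rfl)
    have hd3 : ((p ^ 2 : ℕ) : ℤ) ∣ (t : ℤ) ^ 3 - k := by
      have h1 : ((p ^ 2 : ℕ) : ℤ) ∣ ((t : ℤ) ^ 3 - k) * c ^ 3 := by
        have h2 : ((t : ℤ) ^ 3 - k) * c ^ 3 =
            DD k b c - (b - t * c) * (b ^ 2 + b * (t * c) + (t * c) ^ 2) := by
          unfold DD
          ring
        rw [h2]
        exact dvd_sub hd (Dvd.dvd.mul_right hd2 _)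
      have h3 : IsCoprime (((p ^ 2 : ℕ) : ℤ)) (c ^ 3) := by
        apply IsCoprime.pow_right
        rw [isCoprime_comm]
        exact ⟨u, w, huw⟩
      exact h3.dvd_of_dvd_mul_right h1
    rw [mem_biUnion]
    refine ⟨t, ?_, ?_⟩
    · rw [hR, mem_filter, mem_range]
      refine ⟨?_, hd3⟩
      have h1 : (t : ℤ) < ((p ^ 2 : ℕ) : ℤ) := by
        rw [ht]
        exact Int.emod_lt_of_pos _ (by exact_mod_cast hp2)
      exact_mod_cast h1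
    · rw [hSt]
      simp only [mem_filter]
      rw [← hb, ← hc]
      exact ⟨hv, hd2⟩
  have hone : ∀ t ∈ R, ((St t).card : ℝ) ≤ 1 + (Lk k + 1) * (2 * M * A) ^ 2 / ((p ^ 2 : ℕ) : ℝ) := by
    intro t _
    have hinj := pb_pc_inj Q hQ
    rw [← card_image_of_injective (St t) hinj]
    apply prm k M A hM (by linarith) (p ^ 2) hp2 t
    intro x hx
    rw [mem_image] at hx
    obtain ⟨v, hv, rfl⟩ := hx
    rw [hSt] at hv
    simp only [mem_filter] at hv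
    obtain ⟨hvB, hco, _⟩ := hS v hv.1
    obtain ⟨a1, a2, a3, a4, _⟩ := bx_bd k Q hQ M A hM hA v hvB
    exact ⟨hco, a1, a2, a3, a4, hv.2⟩
  have h1 : (S.card : ℝ) ≤ ∑ t ∈ R, ((St t).card : ℝ) := by
    have h2 := (card_le_card hsub).trans card_biUnion_le
    exact_mod_cast h2
  refine h1.trans ((sum_le_sum hone).trans ?_)
  rw [sum_const, nsmul_eq_mul]
  have h2 : (R.card : ℝ) ≤ 3 := by exact_mod_cast hRc
  apply mul_le_mul_of_nonneg_right h2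
  have h3 : 0 ≤ Lk k := by
    unfold Lk
    positivity
  positivity

theorem bdIII (k : ℤ) (hk : ∀ a : ℤ, a ^ 3 ≠ k) (Q w : ℕ) (hQ : QW k Q w) (M : ℝ) (hM : 1 ≤ M) :
    ∃ C A0 : ℝ, 0 < C ∧ 1 < A0 ∧ ∀ A : ℝ, A0 ≤ A → ∀ S : Finset (ℤ × ℤ),
      (∀ v ∈ S, v ∈ Bx k Q M A ∧ IsCoprime (pb Q v) (pc Q v) ∧
        ∃ p : ℕ, p.Prime ∧ A ^ (1 / 100 : ℝ) < (p : ℝ) ∧ ((p ^ 2 : ℕ) : ℤ) ∣ DD k (pb Q v) (pc Q v)) →
      (S.card : ℝ) ≤ C * A ^ (199 / 100 : ℝ) := by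
  classical
  have hQ0 := hQ.pos
  have hL : 2 ≤ Lk k := by
    unfold Lk
    have := abs_nonneg (k : ℝ)
    linarith
  obtain ⟨c1, hc1⟩ : ∃ c1 : ℝ, c1 = 4 * (Lk k * M) ^ (3 / 2 : ℝ) := ⟨_, rfl⟩
  have hLM : 1 ≤ Lk k * M := by nlinarith
  have hc10 : 0 < c1 := by rw [hc1]; positivity
  refine ⟨3 * c1 + 3 * (Lk k + 1) * (2 * M) ^ 2 * 2, 2, by positivity, by norm_num,
    fun A hA S hS => ?_⟩
  have hA1 : 1 ≤ A := by linarith
  have hA0 : 0 < A := by linarith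
  obtain ⟨z, hz⟩ : ∃ z, z = A ^ (1 / 100 : ℝ) := ⟨_, rfl⟩
  have hz1 : 1 ≤ z := by rw [hz]; exact Real.one_le_rpow hA1 (by norm_num)
  obtain ⟨T, hT⟩ : ∃ T, T = 4 * (Lk k * M * A) ^ (3 / 2 : ℝ) := ⟨_, rfl⟩
  have hT0 : 0 ≤ T := by rw [hT]; positivity
  obtain ⟨N, hN⟩ : ∃ N, N = ⌊T⌋₊ := ⟨_, rfl⟩
  obtain ⟨P, hP⟩ : ∃ P : Finset ℕ, P = (Icc 1 N).filter (fun p : ℕ => p.Prime ∧ z < (p : ℝ) ∧ ¬ p ∣ Q) :=
    ⟨_, rfl⟩
  obtain ⟨Sp, hSp⟩ : ∃ Sp : ℕ → Finset (ℤ × ℤ), Sp = fun p : ℕ =>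
    S.filter (fun v => ((p ^ 2 : ℕ) : ℤ) ∣ DD k (pb Q v) (pc Q v)) := ⟨_, rfl⟩
  have hsub : S ⊆ P.biUnion Sp := by
    intro v hv
    obtain ⟨hvB, hco, p, hp, hpz, hpd⟩ := hS v hv
    rw [mem_biUnion]
    refine ⟨p, ?_, ?_⟩
    · have hpp : (p : ℤ) ∣ ((p ^ 2 : ℕ) : ℤ) := by
        push_cast
        exact dvd_pow_self _ (by norm_num)
      rw [hP, mem_filter, mem_Icc]
      refine ⟨⟨hp.one_le, ?_⟩, hp, by rw [hz]; exact hpz, cop_Q k Q v p hp (hpp.trans hpd)⟩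
      rw [hN]
      apply Nat.le_floor
      obtain ⟨_, _, _, _, b5, b6, _⟩ := bx_bd k Q hQ0 M A hM hA1 v hvB
      have hDpos : 0 < DD k (pb Q v) (pc Q v) := by
        have h1 : (0 : ℝ) < DD k (pb Q v) (pc Q v) := lt_of_lt_of_le (by positivity) b5
        exact_mod_cast h1
      have h1 := Int.le_of_dvd hDpos hpd
      have h2 : ((p : ℝ)) ^ 2 ≤ 16 * (Lk k * M * A) ^ 3 := by
        have h3 : (((p ^ 2 : ℕ) : ℤ) : ℝ) ≤ (DD k (pb Q v) (pc Q v) : ℝ) := by exact_mod_cast h1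
        push_cast at h3
        linarith
      have h3 : T ^ 2 = 16 * (Lk k * M * A) ^ 3 := by
        rw [hT, mul_pow, ← Real.rpow_natCast ((Lk k * M * A) ^ (3 / 2 : ℝ)) 2,
          ← Real.rpow_mul (by positivity)]
        norm_num
      rw [← h3] at h2
      exact le_of_sq_le_sq h2 hT0
    · rw [hSp]
      simp only [mem_filter]
      exact ⟨hv, hpd⟩
  have hone : ∀ p ∈ P, ((Sp p).card : ℝ) ≤ 3 + 3 * ((Lk k + 1) * (2 * M * A) ^ 2) * ((p : ℝ) ^ 2)⁻¹ := by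
    intro p hpP
    rw [hP, mem_filter] at hpP
    obtain ⟨_, hp, _, hpQ⟩ := hpP
    have h3k : ¬ (p : ℤ) ∣ 3 * k := by
      intro h1
      apply hpQ
      have h2 : p ∣ (3 * k).natAbs := Int.natCast_dvd.1 h1
      have h3 : (3 * k).natAbs = 3 * k.natAbs := by
        rw [Int.natAbs_mul]
        rfl
      rw [h3] at h2
      exact h2.trans hQ.h3k
    have h1 := bd3_t k M A hM hA1 Q hQ0 p hp h3k (Sp p) (by
      intro v hv
      rw [hSp] at hv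
      simp only [mem_filter] at hv
      obtain ⟨c1, c2, _⟩ := hS v hv.1
      exact ⟨c1, c2, hv.2⟩)
    refine h1.trans (le_of_eq ?_)
    push_cast
    ring
  have h1 : (S.card : ℝ) ≤ ∑ p ∈ P, ((Sp p).card : ℝ) := by
    have h2 := (card_le_card hsub).trans card_biUnion_le
    exact_mod_cast h2
  refine h1.trans ((sum_le_sum hone).trans ?_)
  rw [sum_add_distrib, ← mul_sum, sum_const, nsmul_eq_mul]
  have hPc : (P.card : ℝ) ≤ T := by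
    have h2 : P ⊆ Icc 1 N := by
      rw [hP]
      exact filter_subset _ _
    have h3 := card_le_card h2
    rw [Nat.card_Icc, Nat.add_sub_cancel] at h3
    have h4 : (P.card : ℝ) ≤ N := by exact_mod_cast h3
    have h5 : (N : ℝ) ≤ T := by rw [hN]; exact Nat.floor_le hT0
    linarith
  have hs := sum_inv_sq z hz1 N P (fun p hp => by
    rw [hP, mem_filter, mem_Icc] at hp
    exact ⟨hp.2.2.1, hp.1.2⟩)
  have hTA : T ≤ c1 * A ^ (199 / 100 : ℝ) := by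
    have h2 : T = c1 * A ^ (3 / 2 : ℝ) := by
      rw [hT, hc1, Real.mul_rpow (by positivity) hA0.le]
      ring
    rw [h2]
    apply mul_le_mul_of_nonneg_left _ hc10.le
    exact Real.rpow_le_rpow_of_exponent_le hA1 (by norm_num)
  have hzA : A ^ 2 * (2 / z) = 2 * A ^ (199 / 100 : ℝ) := by
    have h2 : A ^ 2 = A ^ (199 / 100 : ℝ) * z := by
      rw [hz, ← Real.rpow_add hA0, ← Real.rpow_natCast A 2]
      norm_num
    rw [h2]
    have h3 : z ≠ 0 := by linarith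
    field_simp
  have h2 : 3 * ((Lk k + 1) * (2 * M * A) ^ 2) * ∑ p ∈ P, ((p : ℝ) ^ 2)⁻¹ ≤
      3 * ((Lk k + 1) * (2 * M * A) ^ 2) * (2 / z) := mul_le_mul_of_nonneg_left hs (by positivity)
  have h3 : 3 * ((Lk k + 1) * (2 * M * A) ^ 2) * (2 / z) =
      3 * (Lk k + 1) * (2 * M) ^ 2 * (A ^ 2 * (2 / z)) := by ring
  rw [h3, hzA] at h2
  have h4 : (P.card : ℝ) * 3 ≤ 3 * (c1 * A ^ (199 / 100 : ℝ)) := by linarith
  have h5 : (3 * c1 + 3 * (Lk k + 1) * (2 * M) ^ 2 * 2) * A ^ (199 / 100 : ℝ) =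
      3 * (c1 * A ^ (199 / 100 : ℝ)) + 3 * (Lk k + 1) * (2 * M) ^ 2 * (2 * A ^ (199 / 100 : ℝ)) := by
    ring
  rw [h5]
  linarith

end Pool.Agent.H6.LP
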