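import Pool.Agent.H6.LP.Defs
import Pool.Agent.H6.LP.Mod
import Pool.Agent.H6.LP.Err
import Pool.Agent.H75.AP.MertensA

/-!
# [H6 LP BD5] Bad points (v): the product of the small primes of `D` is large

PROOF. `log (smp D z) = ∑_{p | D, p <= z} log p`, `z = A^τ`, `τ <= ε/10^5 <= 1/10^5`. Markov: `#S * ε log A <= ∑_{v in S} ∑_{p | D, p <= z} log p <= ∑_{w < p <= z} log p #{v in S : p | D} <= ∑_{p <= z} log p * 3 (128 Y^2/(g p) + 16 Y/l + 1)` (`modc`, `j = 1`; `cop_Q`; `p <= z < A^(3/5)`, so `p /= q1, q2`)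
`<= 384 (Y^2/g) (τ log A + C) + 3 z log z (16 Y/l + 1)` (`Pool.Agent.H75.AP.mertens_one`: `∑_{p <= x} log p/p <= log x + C`; its `PI 0 x` is the set of the primes `<= x`). Divide by `ε log A`: `#S <= (Y^2/g) (384 τ/ε + 384 C/(ε log A)) + A^(1/50) (16 Y/l + 1)` for large `A`, and `384 τ/ε <= 0.00384`, so with `err_small`
`#S <= Y^2/(40 g)` for `A >= A0(ε, τ, Q)`.
-/

set_option autoImplicit false

namespace Pool.Agent.H6.LP

open Finset

private theorem bd5_log (D : ℤ) (z : ℝ) : Real.log (smp D z) =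
    ∑ p ∈ D.natAbs.primeFactors.filter (fun p : ℕ => (p : ℝ) ≤ z), Real.log p := by
  unfold smp
  rw [Real.log_prod]
  intro p hp
  rw [mem_filter] at hp
  have h1 := (Nat.prime_of_mem_primeFactors hp.1).pos
  exact_mod_cast h1.ne'

private theorem bd5_par (C : ℝ) (ε : ℝ) (hε : 0 < ε) (τ : ℝ) (hτ1 : τ ≤ 1 / 10 ^ 5) :
    ∃ A0 : ℝ, 1 < A0 ∧ ∀ A : ℝ, A0 ≤ A →
      384 * C ≤ 1 / 1000 * (ε * Real.log A) ∧ A ^ τ < A ^ (3 / 5 : ℝ) ∧ A ^ τ ≤ A ^ (1 / 50 : ℝ) ∧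
      0 < Real.log A := by
  have h1 := Real.tendsto_log_atTop.eventually_ge_atTop (384 * C * 1000 / ε)
  obtain ⟨A0, hA0⟩ := Filter.eventually_atTop.1 h1
  refine ⟨max A0 2, lt_of_lt_of_le (by norm_num) (le_max_right _ _), fun A hA => ?_⟩
  have h2 := hA0 A ((le_max_left _ _).trans hA)
  have h3 : 2 ≤ A := (le_max_right _ _).trans hA
  rw [div_le_iff₀ hε] at h2
  have h4 : τ < 3 / 5 := lt_of_le_of_lt hτ1 (by norm_num)
  have h5 : τ ≤ 1 / 50 := hτ1.trans (by norm_num)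
  exact ⟨by linarith, Real.rpow_lt_rpow_of_exponent_lt (by linarith) h4,
    Real.rpow_le_rpow_of_exponent_le (by linarith) h5, Real.log_pos (by linarith)⟩

theorem bdV (k : ℤ) (hk : ∀ a : ℤ, a ^ 3 ≠ k) (Q w : ℕ) (hQ : QW k Q w) (M : ℝ) (hM : 1 ≤ M) (ε : ℝ) (hε : 0 < ε) (hε1 : ε ≤ 1)
    (τ : ℝ) (hτ : 0 < τ) (hτ1 : τ ≤ ε / 10 ^ 5) :
    ∃ A0 : ℝ, 1 < A0 ∧ ∀ A : ℝ, A0 ≤ A → ∀ (q1 q2 : ℕ) (r : ℤ), PQ k Q A q1 q2 r → ∀ S : Finset (ℤ × ℤ),
      (∀ v ∈ S, v ∈ SG k Q M A (q1 * q2) r ∧ IsCoprime (pb Q v) (pc Q v) ∧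
        A ^ ε < smp (DD k (pb Q v) (pc Q v)) (A ^ τ)) →
      (S.card : ℝ) ≤ (A / Q) ^ 2 / (40 * ((q1 * q2 : ℕ) : ℝ)) := by
  classical
  obtain ⟨C, hC, hmer⟩ := Pool.Agent.H75.AP.mertens_one
  have hτ5 : τ ≤ 1 / 10 ^ 5 := hτ1.trans (div_le_div_of_nonneg_right hε1 (by norm_num))
  obtain ⟨A1, hA1, herr⟩ := err_small k Q hQ.pos (1 / 1000) (by norm_num)
  obtain ⟨A2, hA2, hpar⟩ := bd5_par C ε hε τ hτ5
  refine ⟨max A1 A2, lt_of_lt_of_le hA1 (le_max_left _ _), fun A hA q1 q2 r h S hS => ?_⟩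
  have hA1' : 1 < A := lt_of_lt_of_le hA1 ((le_max_left _ _).trans hA)
  have hA0 : 0 < A := by linarith
  obtain ⟨he1, _⟩ := herr A ((le_max_left _ _).trans hA) q1 q2 r h
  obtain ⟨hpC, hz35, hz50, hlog⟩ := hpar A ((le_max_right _ _).trans hA)
  have hQ0 : (0 : ℝ) < Q := by exact_mod_cast hQ.pos
  obtain ⟨z, hz⟩ : ∃ z, z = A ^ τ := ⟨_, rfl⟩
  have hz1 : 1 ≤ z := by rw [hz]; exact Real.one_le_rpow hA1'.le hτ.le
  have hz0 : 0 < z := by linarith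
  have hlz : Real.log z = τ * Real.log A := by rw [hz, Real.log_rpow hA0]
  rw [← hz] at hz35 hz50
  obtain ⟨g, hg⟩ : ∃ g, g = q1 * q2 := ⟨_, rfl⟩
  have hg0 : 0 < g := by rw [hg]; exact Nat.mul_pos h.p1.pos h.p2.pos
  have hgR : (0 : ℝ) < g := by exact_mod_cast hg0
  obtain ⟨l, hl⟩ : ∃ l, l = ll k g := ⟨_, rfl⟩
  have hl0 : 0 < l := by rw [hl]; exact ll_pos k g hg0
  obtain ⟨Y, hY⟩ : ∃ Y, Y = A / Q := ⟨_, rfl⟩
  have hY0 : 0 < Y := by rw [hY]; positivity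
  obtain ⟨Z, hZ⟩ : ∃ Z, Z = Y ^ 2 / (g : ℝ) := ⟨_, rfl⟩
  have hZ0 : 0 < Z := by rw [hZ]; positivity
  obtain ⟨E, hE⟩ : ∃ E, E = 16 * Y / l + 1 := ⟨_, rfl⟩
  have hE0 : 0 < E := by rw [hE]; positivity
  rw [← hg, ← hl, ← hY, ← hZ, ← hE] at he1
  obtain ⟨P, hP⟩ : ∃ P : Finset ℕ, P = (range (⌊z⌋₊ + 1)).filter (fun p : ℕ => p.Prime ∧ 0 < (p : ℝ)) :=
    ⟨_, rfl⟩
  have hPI : Pool.Agent.H75.AP.PI 0 z = P := by
    rw [hP]
    rfl
  have hPm : ∀ p, p ∈ P ↔ p.Prime ∧ (p : ℝ) ≤ z := by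
    intro p
    rw [hP, mem_filter, mem_range, Nat.lt_succ_iff, Nat.le_floor_iff hz0.le]
    constructor
    · rintro ⟨h1, h2, _⟩
      exact ⟨h2, h1⟩
    · rintro ⟨h1, h2⟩
      exact ⟨h2, h1, by exact_mod_cast h1.pos⟩
  -- the double sum
  obtain ⟨Sp, hSp⟩ : ∃ Sp : ℕ → Finset (ℤ × ℤ), Sp = fun p : ℕ =>
    S.filter (fun v => (p : ℤ) ∣ DD k (pb Q v) (pc Q v)) := ⟨_, rfl⟩
  have hDne : ∀ v ∈ S, DD k (pb Q v) (pc Q v) ≠ 0 := by
    intro v hv
    obtain ⟨h1, _, _⟩ := hS v hv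
    unfold SG at h1
    rw [mem_filter] at h1
    obtain ⟨_, _, _, _, b5, _⟩ := bx_bd k Q hQ.pos M A hM hA1'.le v h1.1
    intro h2
    rw [h2, Int.cast_zero] at b5
    have : 0 < A ^ 3 := by positivity
    linarith
  have hlow : ∀ v ∈ S, ε * Real.log A ≤
      ∑ p ∈ P, if (p : ℤ) ∣ DD k (pb Q v) (pc Q v) then Real.log p else 0 := by
    intro v hv
    obtain ⟨_, _, h3⟩ := hS v hv
    have h4 : Real.log (A ^ ε) ≤ Real.log (smp (DD k (pb Q v) (pc Q v)) z) := by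
      apply Real.log_le_log (by positivity)
      rw [hz]
      exact h3.le
    rw [Real.log_rpow hA0, bd5_log] at h4
    refine h4.trans (le_of_eq ?_)
    rw [← sum_filter]
    apply sum_congr _ fun _ _ => rfl
    ext p
    rw [mem_filter, mem_filter, Nat.mem_primeFactors, hPm]
    constructor
    · rintro ⟨⟨h5, h6, _⟩, h7⟩
      exact ⟨⟨h5, h7⟩, Int.natCast_dvd.2 h6⟩
    · rintro ⟨⟨h5, h7⟩, h6⟩
      exact ⟨⟨h5, Int.natCast_dvd.1 h6, Int.natAbs_ne_zero.2 (hDne v hv)⟩, h7⟩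
  have hdbl : S.card * (ε * Real.log A) ≤ ∑ p ∈ P, Real.log p * ((Sp p).card : ℝ) := by
    calc S.card * (ε * Real.log A) = ∑ v ∈ S, ε * Real.log A := by rw [sum_const, nsmul_eq_mul]
      _ ≤ ∑ v ∈ S, ∑ p ∈ P, (if (p : ℤ) ∣ DD k (pb Q v) (pc Q v) then Real.log p else 0) :=
          sum_le_sum hlow
      _ = ∑ p ∈ P, ∑ v ∈ S, (if (p : ℤ) ∣ DD k (pb Q v) (pc Q v) then Real.log p else 0) := sum_comm
      _ = ∑ p ∈ P, Real.log p * ((Sp p).card : ℝ) := by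
          refine sum_congr rfl fun p _ => ?_
          rw [← sum_filter, sum_const, nsmul_eq_mul, mul_comm, hSp]
  have hlogp : ∀ p ∈ P, 0 ≤ Real.log (p : ℝ) := fun p _ => Real.log_natCast_nonneg p
  have hone : ∀ p ∈ P, ((Sp p).card : ℝ) ≤ 384 * Z * (1 / (p : ℝ)) + 3 * E := by
    intro p hpP
    obtain ⟨hp, hpz⟩ := (hPm p).1 hpP
    have hp0 : (0 : ℝ) < p := by exact_mod_cast hp.pos
    rcases (Sp p).eq_empty_or_nonempty with h0 | ⟨v0, hv0⟩
    · rw [h0, card_empty, Nat.cast_zero]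
      positivity
    · have hpQ : ¬ p ∣ Q := by
        rw [hSp] at hv0
        simp only [mem_filter] at hv0
        exact cop_Q k Q v0 p hp hv0.2
      have h1 : (p : ℝ) < A ^ (3 / 5 : ℝ) := lt_of_le_of_lt hpz hz35
      have hne1 : p ≠ q1 := by
        intro h2
        have h3 := h.l1
        rw [← h2] at h3
        linarith
      have hne2 : p ≠ q2 := by
        intro h2
        have h3 := h.l2
        rw [← h2] at h3
        have h4 : A ^ (3 / 5 : ℝ) ≤ A ^ (13 / 20 : ℝ) :=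
          Real.rpow_le_rpow_of_exponent_le hA1'.le (by norm_num)
        linarith
      have h2 := modc k hk Q w hQ M A hM hA1'.le q1 q2 r h p hp hpQ hne1 hne2 1 le_rfl (Sp p) (by
        intro v hv
        rw [hSp] at hv
        simp only [mem_filter] at hv
        obtain ⟨c1, c2, _⟩ := hS v hv.1
        refine ⟨c1, c2, ?_⟩
        rw [pow_one]
        exact hv.2)
      rw [← hg, ← hl, ← hY] at h2
      refine h2.trans (le_of_eq ?_)
      rw [hZ, hE, pow_one]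
      field_simp
      ring
  have hsum1 : ∑ p ∈ P, Real.log p * (1 / (p : ℝ)) ≤ τ * Real.log A + C := by
    have h1 := (abs_le.1 (hmer z hz1)).2
    rw [hPI, hlz] at h1
    have h2 : ∑ p ∈ P, Real.log p * (1 / (p : ℝ)) = ∑ p ∈ P, Real.log p / p :=
      sum_congr rfl fun p _ => by rw [mul_one_div]
    rw [h2]
    linarith
  have hsum2 : ∑ p ∈ P, Real.log p ≤ z * (τ * Real.log A) := by
    have h1 : ∀ p ∈ P, Real.log p ≤ τ * Real.log A := by
      intro p hpP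
      obtain ⟨hp, hpz⟩ := (hPm p).1 hpP
      rw [← hlz]
      exact Real.log_le_log (by exact_mod_cast hp.pos) hpz
    refine (sum_le_sum h1).trans ?_
    rw [sum_const, nsmul_eq_mul]
    apply mul_le_mul_of_nonneg_right _ (by positivity)
    have h2 : P ⊆ Icc 1 ⌊z⌋₊ := by
      intro p hpP
      obtain ⟨hp, hpz⟩ := (hPm p).1 hpP
      rw [mem_Icc]
      exact ⟨hp.one_le, Nat.le_floor hpz⟩
    have h3 := card_le_card h2
    rw [Nat.card_Icc, Nat.add_sub_cancel] at h3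
    have h4 : (P.card : ℝ) ≤ ⌊z⌋₊ := by exact_mod_cast h3
    exact h4.trans (Nat.floor_le hz0.le)
  have hmain : S.card * (ε * Real.log A) ≤ 384 * Z * (τ * Real.log A + C) +
      3 * E * (z * (τ * Real.log A)) := by
    refine hdbl.trans ?_
    calc ∑ p ∈ P, Real.log p * ((Sp p).card : ℝ)
        ≤ ∑ p ∈ P, (384 * Z * (Real.log p * (1 / (p : ℝ))) + 3 * E * Real.log p) := by
          refine sum_le_sum fun p hpP => ?_
          have h1 := mul_le_mul_of_nonneg_left (hone p hpP) (hlogp p hpP)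
          refine h1.trans (le_of_eq ?_)
          ring
      _ = 384 * Z * ∑ p ∈ P, Real.log p * (1 / (p : ℝ)) + 3 * E * ∑ p ∈ P, Real.log p := by
          rw [sum_add_distrib, ← mul_sum, ← mul_sum]
      _ ≤ _ := add_le_add (mul_le_mul_of_nonneg_left hsum1 (by positivity))
          (mul_le_mul_of_nonneg_left hsum2 (by positivity))
  obtain ⟨L, hL⟩ : ∃ L, L = Real.log A := ⟨_, rfl⟩
  rw [← hL] at hmain hpC hlog
  have hεL : 0 < ε * L := mul_pos hε hlog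
  have hτL : τ * L ≤ 1 / 10 ^ 5 * (ε * L) := by
    have h1 := mul_le_mul_of_nonneg_right hτ1 hlog.le
    refine h1.trans (le_of_eq ?_)
    ring
  have hzE : z * E ≤ 1 / 1000 * Z := by
    have h1 : z * E ≤ A ^ (1 / 50 : ℝ) * E := mul_le_mul_of_nonneg_right hz50 hE0.le
    linarith
  have hfin : S.card * (ε * L) ≤ Z / 40 * (ε * L) := by
    have h1 : 384 * Z * (τ * L + C) ≤ 384 * Z * (1 / 10 ^ 5 * (ε * L)) + Z * (1 / 1000 * (ε * L)) := by
      have h2 : 384 * Z * (τ * L) ≤ 384 * Z * (1 / 10 ^ 5 * (ε * L)) :=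
        mul_le_mul_of_nonneg_left hτL (by positivity)
      have h3 : Z * (384 * C) ≤ Z * (1 / 1000 * (ε * L)) := mul_le_mul_of_nonneg_left hpC hZ0.le
      linarith
    have h2 : 3 * E * (z * (τ * L)) ≤ 3 * (1 / 1000 * Z) * (1 / 10 ^ 5 * (ε * L)) := by
      have h3 : 3 * E * (z * (τ * L)) = 3 * (z * E) * (τ * L) := by ring
      rw [h3]
      exact mul_le_mul (by linarith) hτL (by positivity) (by positivity)
    have h3 : 0 ≤ Z * (ε * L) := by positivity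
    have h4 : 384 * Z * (1 / 10 ^ 5 * (ε * L)) = 384 / 10 ^ 5 * (Z * (ε * L)) := by ring
    have h5 : Z * (1 / 1000 * (ε * L)) = 1 / 1000 * (Z * (ε * L)) := by ring
    have h6 : 3 * (1 / 1000 * Z) * (1 / 10 ^ 5 * (ε * L)) = 3 / 10 ^ 8 * (Z * (ε * L)) := by ring
    have h7 : Z / 40 * (ε * L) = 1 / 40 * (Z * (ε * L)) := by ring
    rw [h7]
    rw [h4, h5] at h1
    rw [h6] at h2
    linarith
  have hres := le_of_mul_le_mul_right hfin hεL
  rw [← hg, ← hY]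
  refine hres.trans (le_of_eq ?_)
  rw [hZ]
  field_simp

end Pool.Agent.H6.LP
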