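import Pool.Agent.H6.LP.Defs
import Pool.Agent.H96.EB.Bas
import Pool.Agent.H96.EB.Red

/-!
# [H6 LP LOW] Lower bound for the number of points of a coset in a square

PROOF. (1) COVERING. `red` (H96/EB/Red) with `X = 1`, `Y = 1/g`, `θ = r/g` gives `v1 = (y1,n1)`, `v2 = (y2,n2)` with `y1 n2 - n1 y2 = 1`; put `x_i = r y_i - g n_i`, so `(x_i,y_i)` is in the lattice `{g | x - r y}`, of sup norm `l_i = gau v_i`
(`gau 1 (1/g) (r/g) (y,n) = max |y| |g n - r y|`), `l <= l1` (`hmin`, `(x1,y1) /= (0,0)` as `v1 /= 0`), `l1 <= l2`, `l1 l2 <= 2 g`, so `l2 <= 2 g/l`. `x1 y2 - x2 y1 = g (y1 n2 - n1 y2) = g` (up to sign). CLAIM: for every integer `ρ` there are integers `e1, e2` with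
`g | e1 - r e2 - ρ` and `|e1|, |e2| <= λ := (l1+l2)/2 <= 2g/l`: solve `(ρ,0) = α (x1,y1) + β (x2,y2)` with real `α, β` (determinant `±g /= 0`), `e = (ρ,0) - round α (x1,y1) - round β (x2,y2)`; `|α - round α| <= 1/2` (`abs_sub_round`).
(2) Let `t` with `g | Q t + β` (exists: `Q`, `g` coprime). Then `g | (β + Q v1) - r Q v2` iff `g | v1 - r v2 - t` (multiply by the inverse of `Q`; `β + Q v1 - r Q v2 = Q (v1 - r v2 - t) + (Q t + β)`).
(3) Inner square: the integer points `p` with `X1 + λ < p1 <= X1 + Y - λ`, `X2 + λ < p2 <= X2 + Y - λ`; there are at least `(Y - 2λ - 1)^2 >= (Y/2)^2` of them (`λ <= 2g/l <= Y/8`, `1 <= Y/4`; number of integers in `(x, x+T]` is `⌊x+T⌋ - ⌊x⌋ >= T - 1`).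
For such `p` let `ρ = (p1 - r p2 - t) mod g` in `range g`, `e = e(ρ)` as in (1) (choice, one `e` for each `ρ`), `f p = p - e(ρ)`: `f p` is in the big square and `g | (f p).1 - r (f p).2 - t`. Every value `w` has at most `g` preimages `p = w + e(ρ)`. So `(Y/2)^2 <= g * card`
(`Finset.card_le_mul_card_image` or inject `p ↦ (ρ, f p)` into `range g ×ˢ big`).
-/

set_option autoImplicit false

namespace Pool.Agent.H6.LP

open Finset

private theorem low_cov (g : ℕ) (hg : 0 < g) (r : ℤ) (l : ℝ) (hl : 0 < l) (hmin : Mn g r l) :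
    ∃ lam : ℝ, 0 ≤ lam ∧ lam ≤ 2 * g / l ∧ ∀ ρ : ℤ, ∃ e1 e2 : ℤ, (g : ℤ) ∣ e1 - r * e2 - ρ ∧
      |(e1 : ℝ)| ≤ lam ∧ |(e2 : ℝ)| ≤ lam := by
  have hg0 : (0 : ℝ) < g := by exact_mod_cast hg
  obtain ⟨⟨y1, n1⟩, ⟨y2, n2⟩, hdet, _, hle, hprod⟩ := Pool.Agent.H96.EB.red 1 (1 / (g : ℝ)) ((r : ℝ) / g)
    one_pos (by positivity)
  simp only at hdet
  obtain ⟨l1, hl1⟩ : ∃ l1, l1 = Pool.Agent.H96.EB.gau 1 (1 / (g : ℝ)) ((r : ℝ) / g) (y1, n1) := ⟨_, rfl⟩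
  obtain ⟨l2, hl2⟩ : ∃ l2, l2 = Pool.Agent.H96.EB.gau 1 (1 / (g : ℝ)) ((r : ℝ) / g) (y2, n2) := ⟨_, rfl⟩
  have hy1 := Pool.Agent.H96.EB.gau_x 1 (1 / (g : ℝ)) ((r : ℝ) / g) one_pos (y1, n1)
  have hy2 := Pool.Agent.H96.EB.gau_x 1 (1 / (g : ℝ)) ((r : ℝ) / g) one_pos (y2, n2)
  have hn1 := Pool.Agent.H96.EB.gau_y 1 (1 / (g : ℝ)) ((r : ℝ) / g) (by positivity) (y1, n1)
  have hn2 := Pool.Agent.H96.EB.gau_y 1 (1 / (g : ℝ)) ((r : ℝ) / g) (by positivity) (y2, n2)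
  rw [← hl1, ← hl2] at hle hprod
  rw [← hl1] at hy1 hn1
  rw [← hl2] at hy2 hn2
  simp only [one_mul] at hy1 hy2
  have hx : ∀ (y n : ℤ) (L : ℝ), |(n : ℝ) - (r : ℝ) / g * y| ≤ 1 / (g : ℝ) * L →
      |((r * y - g * n : ℤ) : ℝ)| ≤ L := by
    intro y n L h
    have h1 : ((r * y - g * n : ℤ) : ℝ) = -(g * ((n : ℝ) - (r : ℝ) / g * y)) := by
      push_cast
      field_simp
      ring
    rw [h1, abs_neg, abs_mul, abs_of_pos hg0]
    have h2 := mul_le_mul_of_nonneg_left h hg0.le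
    have h3 : (g : ℝ) * (1 / (g : ℝ) * L) = L := by field_simp
    rw [h3] at h2
    exact h2
  obtain ⟨x1, hx1⟩ : ∃ x1 : ℤ, x1 = r * y1 - g * n1 := ⟨_, rfl⟩
  obtain ⟨x2, hx2⟩ : ∃ x2 : ℤ, x2 = r * y2 - g * n2 := ⟨_, rfl⟩
  have hx1l : |(x1 : ℝ)| ≤ l1 := by rw [hx1]; exact hx y1 n1 l1 hn1
  have hx2l : |(x2 : ℝ)| ≤ l2 := by rw [hx2]; exact hx y2 n2 l2 hn2
  have hll1 : l ≤ l1 := by
    have h1 : (x1, y1) ≠ ((0, 0) : ℤ × ℤ) := by
      intro h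
      have ha : x1 = 0 := congrArg Prod.fst h
      have hb : y1 = 0 := congrArg Prod.snd h
      rw [ha, hb] at hx1
      have h2 : (g : ℤ) * n1 = 0 := by linarith
      have h3 : n1 = 0 := by
        rcases mul_eq_zero.1 h2 with h4 | h4
        · exfalso
          have : g = 0 := by exact_mod_cast h4
          omega
        · exact h4
      rw [hb, h3] at hdet
      simp at hdet
    have h2 : (g : ℤ) ∣ x1 - r * y1 := ⟨-n1, by rw [hx1]; ring⟩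
    exact (hmin x1 y1 h1 h2).trans (max_le hx1l hy1)
  have hl10 : 0 < l1 := lt_of_lt_of_le hl hll1
  have hl2g : l2 ≤ 2 * g / l := by
    have h1 : l1 * l2 ≤ 2 * g := by
      refine hprod.trans (le_of_eq ?_)
      field_simp
    rw [le_div_iff₀ hl]
    have h2 : l * l2 ≤ l1 * l2 := mul_le_mul_of_nonneg_right hll1 (by linarith)
    linarith
  refine ⟨(l1 + l2) / 2, by linarith, by linarith, fun ρ => ?_⟩
  have hdg : x1 * y2 - x2 * y1 = g := by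
    rw [hx1, hx2]
    linear_combination (g : ℤ) * hdet
  have hdgR : (x1 : ℝ) * y2 - x2 * y1 = g := by exact_mod_cast hdg
  obtain ⟨α, hα⟩ : ∃ α : ℝ, α = ρ * y2 / g := ⟨_, rfl⟩
  obtain ⟨β, hβ⟩ : ∃ β : ℝ, β = -(ρ * y1 / g) := ⟨_, rfl⟩
  have h1 : α * x1 + β * x2 = ρ := by
    rw [hα, hβ]
    have h2 : (ρ : ℝ) * y2 / g * x1 + -(ρ * y1 / g) * x2 = ρ * ((x1 : ℝ) * y2 - x2 * y1) / g := by ring
    rw [h2, hdgR]
    field_simp
  have h2 : α * y1 + β * y2 = 0 := by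
    rw [hα, hβ]
    ring
  have ha := abs_sub_round α
  have hb := abs_sub_round β
  refine ⟨ρ - round α * x1 - round β * x2, - round α * y1 - round β * y2, ?_, ?_, ?_⟩
  · have h3 : (g : ℤ) ∣ x1 - r * y1 := ⟨-n1, by rw [hx1]; ring⟩
    have h4 : (g : ℤ) ∣ x2 - r * y2 := ⟨-n2, by rw [hx2]; ring⟩
    have h5 : ρ - round α * x1 - round β * x2 - r * (- round α * y1 - round β * y2) - ρ =
        -(round α * (x1 - r * y1)) - round β * (x2 - r * y2) := by ring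
    rw [h5]
    exact dvd_sub (dvd_neg.2 (Dvd.dvd.mul_left h3 _)) (Dvd.dvd.mul_left h4 _)
  · have h3 : ((ρ - round α * x1 - round β * x2 : ℤ) : ℝ) =
        (α - round α) * x1 + (β - round β) * x2 := by
      push_cast
      linear_combination -h1
    rw [h3]
    refine (abs_add_le _ _).trans ?_
    rw [abs_mul, abs_mul]
    have h4 : |α - round α| * |(x1 : ℝ)| ≤ 1 / 2 * l1 :=
      mul_le_mul ha hx1l (abs_nonneg _) (by norm_num)
    have h5 : |β - round β| * |(x2 : ℝ)| ≤ 1 / 2 * l2 :=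
      mul_le_mul hb hx2l (abs_nonneg _) (by norm_num)
    linarith
  · have h3 : ((- round α * y1 - round β * y2 : ℤ) : ℝ) =
        (α - round α) * y1 + (β - round β) * y2 := by
      push_cast
      linear_combination -h2
    rw [h3]
    refine (abs_add_le _ _).trans ?_
    rw [abs_mul, abs_mul]
    have h4 : |α - round α| * |(y1 : ℝ)| ≤ 1 / 2 * l1 :=
      mul_le_mul ha hy1 (abs_nonneg _) (by norm_num)
    have h5 : |β - round β| * |(y2 : ℝ)| ≤ 1 / 2 * l2 :=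
      mul_le_mul hb hy2 (abs_nonneg _) (by norm_num)
    linarith

private theorem low_ioc (a b : ℝ) (h : 0 ≤ b - a - 1) : b - a - 1 ≤ ((Ioc ⌊a⌋ ⌊b⌋).card : ℝ) := by
  rw [Int.card_Ioc]
  have h1 : ((⌊b⌋ - ⌊a⌋ : ℤ) : ℝ) ≤ ((⌊b⌋ - ⌊a⌋).toNat : ℝ) := by
    exact_mod_cast Int.self_le_toNat (⌊b⌋ - ⌊a⌋)
  have h2 := Int.floor_le a
  have h3 := Int.lt_floor_add_one b
  push_cast at h1
  linarith

theorem low (g Q : ℕ) (hg : 0 < g) (r β : ℤ) (hQg : Q.Coprime g) (l : ℝ) (hl : 0 < l) (hmin : Mn g r l)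
    (X1 X2 Y : ℝ) (hY : 16 * g / l ≤ Y) (hY4 : 4 ≤ Y) :
    Y ^ 2 / (4 * g) ≤ ((((Ioc ⌊X1⌋ ⌊X1 + Y⌋) ×ˢ (Ioc ⌊X2⌋ ⌊X2 + Y⌋)).filter
      (fun v : ℤ × ℤ => (g : ℤ) ∣ (β + Q * v.1) - r * (Q * v.2))).card : ℝ) := by
  classical
  have hg0 : (0 : ℝ) < g := by exact_mod_cast hg
  have hgZ : (0 : ℤ) < g := by exact_mod_cast hg
  obtain ⟨lam, hlam0, hlam, hcov⟩ := low_cov g hg r l hl hmin
  have hlY : 8 * lam ≤ Y := by
    have h1 : 8 * (2 * g / l) = 16 * g / l := by ring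
    linarith
  choose e1 e2 he he1 he2 using hcov
  -- the inverse
  obtain ⟨t, ht⟩ : ∃ t : ℤ, (g : ℤ) ∣ Q * t + β := by
    have h1 : IsCoprime (Q : ℤ) (g : ℤ) := Nat.isCoprime_iff_coprime.2 hQg
    obtain ⟨u, v, huv⟩ := h1
    refine ⟨-(u * β), v * β, ?_⟩
    linear_combination (-β) * huv
  obtain ⟨Big, hBig⟩ : ∃ Big, Big = ((Ioc ⌊X1⌋ ⌊X1 + Y⌋) ×ˢ (Ioc ⌊X2⌋ ⌊X2 + Y⌋)).filter
      (fun v : ℤ × ℤ => (g : ℤ) ∣ (β + Q * v.1) - r * (Q * v.2)) := ⟨_, rfl⟩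
  rw [← hBig]
  obtain ⟨P, hP⟩ : ∃ P, P = (Ioc ⌊X1 + lam⌋ ⌊X1 + Y - lam⌋) ×ˢ (Ioc ⌊X2 + lam⌋ ⌊X2 + Y - lam⌋) :=
    ⟨_, rfl⟩
  have hPc : (Y / 2) ^ 2 ≤ (P.card : ℝ) := by
    rw [hP, card_product, Nat.cast_mul, sq]
    have h1 := low_ioc (X1 + lam) (X1 + Y - lam) (by linarith)
    have h2 := low_ioc (X2 + lam) (X2 + Y - lam) (by linarith)
    exact mul_le_mul (by linarith) (by linarith) (by linarith) (by positivity)
  obtain ⟨rho, hrho⟩ : ∃ rho : ℤ × ℤ → ℤ, rho = fun p => (p.1 - r * p.2 - t) % g := ⟨_, rfl⟩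
  have hmaps : ∀ p ∈ P, (rho p, ((p.1 - e1 (rho p), p.2 - e2 (rho p)) : ℤ × ℤ)) ∈
      (Ico (0 : ℤ) g) ×ˢ Big := by
    intro p hp
    rw [hP, mem_product, mem_Ioc, mem_Ioc] at hp
    obtain ⟨⟨p1, p2⟩, p3, p4⟩ := hp
    rw [Int.floor_lt] at p1 p3
    rw [Int.le_floor] at p2 p4
    rw [mem_product, mem_Ico]
    have hr1 : rho p = (p.1 - r * p.2 - t) % g := by rw [hrho]
    refine ⟨⟨by rw [hr1]; exact Int.emod_nonneg _ hgZ.ne', by rw [hr1]; exact Int.emod_lt_of_pos _ hgZ⟩, ?_⟩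
    have b1 := abs_le.1 (he1 (rho p))
    have b2 := abs_le.1 (he2 (rho p))
    rw [hBig, mem_filter, mem_product, mem_Ioc, mem_Ioc]
    refine ⟨⟨⟨?_, ?_⟩, ?_, ?_⟩, ?_⟩
    · rw [Int.floor_lt]
      push_cast
      linarith
    · rw [Int.le_floor]
      push_cast
      linarith
    · rw [Int.floor_lt]
      push_cast
      linarith
    · rw [Int.le_floor]
      push_cast
      linarith
    · have h1 := he (rho p)
      have h2 : (g : ℤ) ∣ (p.1 - r * p.2 - t) - rho p := by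
        rw [hr1]
        exact Int.dvd_self_sub_emod
      have h3 : (g : ℤ) ∣ (p.1 - e1 (rho p)) - r * (p.2 - e2 (rho p)) - t := by
        have h4 : (p.1 - e1 (rho p)) - r * (p.2 - e2 (rho p)) - t =
            ((p.1 - r * p.2 - t) - rho p) - (e1 (rho p) - r * e2 (rho p) - rho p) := by ring
        rw [h4]
        exact dvd_sub h2 h1
      show (g : ℤ) ∣ (β + Q * (p.1 - e1 (rho p))) - r * (Q * (p.2 - e2 (rho p)))
      have h5 : (β + Q * (p.1 - e1 (rho p))) - r * (Q * (p.2 - e2 (rho p))) =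
          Q * ((p.1 - e1 (rho p)) - r * (p.2 - e2 (rho p)) - t) + (Q * t + β) := by ring
      rw [h5]
      exact dvd_add (Dvd.dvd.mul_left h3 _) ht
  have hinj : Set.InjOn (fun p : ℤ × ℤ => (rho p, ((p.1 - e1 (rho p), p.2 - e2 (rho p)) : ℤ × ℤ)))
      (P : Set (ℤ × ℤ)) := by
    intro p _ q _ hpq
    simp only [Prod.mk.injEq] at hpq
    obtain ⟨h1, h2, h3⟩ := hpq
    rw [h1] at h2 h3
    ext
    · linarith
    · linarith
  have hcard := card_le_card_of_injOn _ hmaps hinj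
  rw [card_product, Int.card_Ico, sub_zero, Int.toNat_natCast] at hcard
  have hc : (P.card : ℝ) ≤ g * (Big.card : ℝ) := by exact_mod_cast hcard
  rw [div_le_iff₀ (by positivity)]
  nlinarith

end Pool.Agent.H6.LP
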