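import Pool.Agent.H6.LP.Defs
import Pool.Agent.H6.LP.Cub
import Pool.Agent.H6.LP.Low

/-!
# [H6 LP CNL] Lower bound for one pair of primes

PROOF. `g = q1 q2 <= A^(27/20)`. `low` with `l = ll k g` (`lat_min`), `β = 1`, `X1 = (LMA-1)/Q`, `X2 = MA/Q`, `Y = A/Q`: `16 g/l = 16 (1+|k|)^(1/3) g^(2/3) <= 16 (1+|k|) A^(9/10) <= A/Q` and `4 <= A/Q` for large `A`. The filter is that of `SG` (`pb`, `pc`).
-/

set_option autoImplicit false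

namespace Pool.Agent.H6.LP

open Finset

theorem cntL (k : ℤ) (hk : ∀ a : ℤ, a ^ 3 ≠ k) (Q : ℕ) (hQ : 0 < Q) (M : ℝ) (hM : 1 ≤ M) : ∃ A0 : ℝ, 1 < A0 ∧ ∀ A : ℝ, A0 ≤ A →
    ∀ (q1 q2 : ℕ) (r : ℤ), PQ k Q A q1 q2 r → (A / Q) ^ 2 / (4 * ((q1 * q2 : ℕ) : ℝ)) ≤ (SG k Q M A (q1 * q2) r).card := by
  have hQR : (1 : ℝ) ≤ Q := by exact_mod_cast hQ
  have hQ0 : (0 : ℝ) < Q := by linarith
  obtain ⟨b, hb⟩ : ∃ b : ℝ, b = 1 + |(k : ℝ)| := ⟨_, rfl⟩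
  have hb1 : 1 ≤ b := by
    rw [hb]
    linarith [abs_nonneg (k : ℝ)]
  have hb0 : 0 < b := by linarith
  obtain ⟨B, hB⟩ : ∃ B : ℝ, B = 16 * b * Q := ⟨_, rfl⟩
  have hB0 : 0 < B := by rw [hB]; positivity
  refine ⟨max (2 + 4 * Q) (B ^ (10 : ℕ)), lt_max_of_lt_left (by linarith),
    fun A hA q1 q2 r h => ?_⟩
  have hA2 : 2 + 4 * (Q : ℝ) ≤ A := (le_max_left _ _).trans hA
  have hAB : B ^ (10 : ℕ) ≤ A := (le_max_right _ _).trans hA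
  have hA1 : 1 ≤ A := by linarith
  have hA0 : 0 < A := by linarith
  have hs : B ≤ A ^ (1 / 10 : ℝ) := by
    have h1 : (B ^ (10 : ℕ)) ^ (1 / 10 : ℝ) ≤ A ^ (1 / 10 : ℝ) :=
      Real.rpow_le_rpow (by positivity) hAB (by norm_num)
    have h2 : (B ^ (10 : ℕ)) ^ (1 / 10 : ℝ) = B := by
      rw [← Real.rpow_natCast, ← Real.rpow_mul hB0.le]
      norm_num
    rwa [h2] at h1
  obtain ⟨g, hg⟩ : ∃ g : ℕ, g = q1 * q2 := ⟨_, rfl⟩
  have hg0 : 0 < g := hg ▸ Nat.mul_pos h.p1.pos h.p2.pos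
  have hgR : (0 : ℝ) < g := by exact_mod_cast hg0
  have hg2 : (g : ℝ) ≤ A ^ (27 / 20 : ℝ) := by
    have h1 : A ^ (27 / 20 : ℝ) = A ^ (13 / 20 : ℝ) * A ^ (7 / 10 : ℝ) := by
      rw [← Real.rpow_add hA0]
      norm_num
    rw [h1, hg]
    push_cast
    exact mul_le_mul h.u1 h.u2 (by positivity) (by positivity)
  have hcq : Q.Coprime g := hg ▸ h.cq
  have hrt : (g : ℤ) ∣ r ^ 3 - k := hg ▸ h.rt
  rw [← hg]
  have hll : 0 < ll k g := ll_pos k g hg0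
  have h1 : 16 * (g : ℝ) / ll k g ≤ A / Q := by
    have h2 : (g : ℝ) / ll k g ≤ b * A ^ (9 / 10 : ℝ) := by
      unfold ll
      rw [← hb, Real.div_rpow hgR.le hb0.le, div_div_eq_mul_div]
      have h3 : (g : ℝ) * b ^ (1 / 3 : ℝ) / (g : ℝ) ^ (1 / 3 : ℝ) =
          b ^ (1 / 3 : ℝ) * (g : ℝ) ^ (2 / 3 : ℝ) := by
        have h4 : (g : ℝ) = (g : ℝ) ^ (2 / 3 : ℝ) * (g : ℝ) ^ (1 / 3 : ℝ) := by
          rw [← Real.rpow_add hgR]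
          norm_num
        have h5 : 0 < (g : ℝ) ^ (1 / 3 : ℝ) := by positivity
        rw [div_eq_iff h5.ne']
        calc (g : ℝ) * b ^ (1 / 3 : ℝ) = ((g : ℝ) ^ (2 / 3 : ℝ) * (g : ℝ) ^ (1 / 3 : ℝ)) *
              b ^ (1 / 3 : ℝ) := by rw [← h4]
          _ = _ := by ring
      rw [h3]
      have h4 : b ^ (1 / 3 : ℝ) ≤ b := by
        calc b ^ (1 / 3 : ℝ) ≤ b ^ (1 : ℝ) := Real.rpow_le_rpow_of_exponent_le hb1 (by norm_num)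
          _ = b := Real.rpow_one b
      have h5 : (g : ℝ) ^ (2 / 3 : ℝ) ≤ A ^ (9 / 10 : ℝ) := by
        calc (g : ℝ) ^ (2 / 3 : ℝ) ≤ (A ^ (27 / 20 : ℝ)) ^ (2 / 3 : ℝ) :=
              Real.rpow_le_rpow hgR.le hg2 (by norm_num)
          _ = A ^ (9 / 10 : ℝ) := by
              rw [← Real.rpow_mul hA0.le]
              norm_num
      exact mul_le_mul h4 h5 (by positivity) hb0.le
    rw [le_div_iff₀ hQ0]
    calc 16 * (g : ℝ) / ll k g * Q = 16 * Q * ((g : ℝ) / ll k g) := by ring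
      _ ≤ 16 * Q * (b * A ^ (9 / 10 : ℝ)) := mul_le_mul_of_nonneg_left h2 (by positivity)
      _ = B * A ^ (9 / 10 : ℝ) := by rw [hB]; ring
      _ ≤ A ^ (1 / 10 : ℝ) * A ^ (9 / 10 : ℝ) := mul_le_mul_of_nonneg_right hs (by positivity)
      _ = A := by
          rw [← Real.rpow_add hA0]
          norm_num
  have h2 : 4 ≤ A / Q := by
    rw [le_div_iff₀ hQ0]
    linarith
  exact low g Q hg0 r 1 hcq (ll k g) hll (lat_min k hk g r hrt) ((Lk k * M * A - 1) / Q)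
    (M * A / Q) (A / Q) h1 h2

end Pool.Agent.H6.LP
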