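import Pool.Agent.H6.LP.Defs
import Pool.Agent.H6.LP.DBd

/-!
# [H6 LP GDO] A point which is not bad is good

PROOF. `bl .. cQ`, `pos`: `bx_bd`. `q12`: `q1 | g | D` by `lat_dvd`-type congruence: `g | b - r c`, `g | r^3 - k` give `g | b^3 - k c^3`. `sqf`: if a prime `p` has `p^2 | D` then (ii) or (iii) (`Int.squarefree_natAbs`, `Nat.squarefree_iff_prime_squarefree`). `rc`: `few_big` with `α = 1/100`, `T = 300` (`3 < 301/100`): at most 300 primes
`p | D` above `A^(1/100)`, each has `1/p < A^(-1/100)`, so they contribute at most `300 A^(-1/100) <= 1/200` for large `A`; the others at most `1/200` (not (iv)). `sm`: not (v).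
-/

set_option autoImplicit false

namespace Pool.Agent.H6.LP

open Finset

theorem gd_of (k : ℤ) (hk : ∀ a : ℤ, a ^ 3 ≠ k) (Q w : ℕ) (hQ : QW k Q w) (M : ℝ) (hM : 1 ≤ M) (τ ε : ℝ) :
    ∃ A0 : ℝ, 1 < A0 ∧ ∀ A : ℝ, A0 ≤ A → ∀ (q1 q2 : ℕ) (r : ℤ), PQ k Q A q1 q2 r →
      ∀ v ∈ SG k Q M A (q1 * q2) r, IsCoprime (pb Q v) (pc Q v) →
      (¬ ∃ p : ℕ, p.Prime ∧ (p : ℝ) ≤ A ^ (1 / 100 : ℝ) ∧ ((p ^ 2 : ℕ) : ℤ) ∣ DD k (pb Q v) (pc Q v)) →
      (¬ ∃ p : ℕ, p.Prime ∧ A ^ (1 / 100 : ℝ) < (p : ℝ) ∧ ((p ^ 2 : ℕ) : ℤ) ∣ DD k (pb Q v) (pc Q v)) →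
      (¬ 1 / 200 < ∑ p ∈ (DD k (pb Q v) (pc Q v)).natAbs.primeFactors.filter (fun p : ℕ => (p : ℝ) ≤ A ^ (1 / 100 : ℝ)),
          1 / (p : ℝ)) →
      (¬ A ^ ε < smp (DD k (pb Q v) (pc Q v)) (A ^ τ)) →
      Good k Q M A τ ε (pb Q v) (pc Q v) := by
  obtain ⟨A1, hA1, hfew⟩ := few_big k Q hQ.pos M hM (1 / 100) (by norm_num) 300 (by norm_num)
  refine ⟨max A1 (60000 ^ (100 : ℕ)), lt_max_of_lt_left hA1, fun A hA q1 q2 r h v hv hcop h2 h3 h4 h5 => ?_⟩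
  have hA1' : A1 ≤ A := (le_max_left _ _).trans hA
  have hA3 : (60000 : ℝ) ^ (100 : ℕ) ≤ A := (le_max_right _ _).trans hA
  have hA0 : 1 < A := by linarith
  have hAp : 0 < A := by linarith
  obtain ⟨z, hz⟩ : ∃ z : ℝ, z = A ^ (1 / 100 : ℝ) := ⟨_, rfl⟩
  have hz0 : 0 < z := hz ▸ Real.rpow_pos_of_pos hAp _
  have hz3 : 60000 ≤ z := by
    have h1 : ((60000 : ℝ) ^ (100 : ℕ)) ^ (1 / 100 : ℝ) ≤ A ^ (1 / 100 : ℝ) :=
      Real.rpow_le_rpow (by positivity) hA3 (by norm_num)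
    have h2 : ((60000 : ℝ) ^ (100 : ℕ)) ^ (1 / 100 : ℝ) = 60000 := by
      rw [← Real.rpow_natCast, ← Real.rpow_mul (by norm_num)]
      norm_num
    rw [hz, ← h2]
    exact h1
  unfold SG at hv
  obtain ⟨hvB, hvd⟩ := mem_filter.1 hv
  obtain ⟨b1, b2, b3, b4, b5, -, b7, b8⟩ := bx_bd k Q hQ.pos M A hM hA0.le v hvB
  have hfew := hfew A hA1' v hvB
  obtain ⟨D, hD⟩ : ∃ D, D = DD k (pb Q v) (pc Q v) := ⟨_, rfl⟩
  have hD0 : 0 < D := by
    have : (0 : ℝ) < D := by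
      rw [hD]
      exact lt_of_lt_of_le (by positivity) b5
    exact_mod_cast this
  have hgD : ((q1 * q2 : ℕ) : ℤ) ∣ D := by
    rw [hD]
    unfold DD
    have h6 := h.rt
    have h7 : pb Q v ^ 3 - k * pc Q v ^ 3 = (pb Q v - r * pc Q v) *
        (pb Q v ^ 2 + pb Q v * (r * pc Q v) + (r * pc Q v) ^ 2) + (r ^ 3 - k) * pc Q v ^ 3 := by
      ring
    rw [h7]
    exact dvd_add (dvd_mul_of_dvd_left hvd _) (dvd_mul_of_dvd_left h6 _)
  rw [← hD, ← hz] at h2 h3 h4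
  rw [← hD] at h5
  rw [← hD, ← hz] at hfew
  refine ⟨b1, b2, b3, b4, b7, b8, hcop, by rw [← hD]; exact hD0, ?_, ?_, ?_, ?_⟩
  · rw [← hD, ← Int.squarefree_natAbs, Nat.squarefree_iff_prime_squarefree]
    intro p hp hpp
    have hpD : ((p ^ 2 : ℕ) : ℤ) ∣ D := by
      rw [Int.natCast_dvd, pow_two]
      exact hpp
    rcases le_or_gt (p : ℝ) z with h6 | h6
    · exact h2 ⟨p, hp, h6, hpD⟩
    · exact h3 ⟨p, hp, h6, hpD⟩
  · rw [← hD, ← sum_filter_add_sum_filter_not _ (fun p : ℕ => (p : ℝ) ≤ z)]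
    push Not at h4
    have h6 : ∑ p ∈ D.natAbs.primeFactors.filter (fun p : ℕ => ¬ (p : ℝ) ≤ z), 1 / (p : ℝ) ≤ 1 / 200 := by
      have h7 : D.natAbs.primeFactors.filter (fun p : ℕ => ¬ (p : ℝ) ≤ z) =
          D.natAbs.primeFactors.filter (fun p : ℕ => z < (p : ℝ)) := by
        apply filter_congr
        intro p _
        exact not_le
      rw [h7]
      calc ∑ p ∈ D.natAbs.primeFactors.filter (fun p : ℕ => z < (p : ℝ)), 1 / (p : ℝ)
          ≤ ∑ _p ∈ D.natAbs.primeFactors.filter (fun p : ℕ => z < (p : ℝ)), (1 / 60000 : ℝ) := by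
            apply sum_le_sum
            intro p hp
            rw [mem_filter] at hp
            exact one_div_le_one_div_of_le (by norm_num) (by linarith [hp.2])
        _ = (D.natAbs.primeFactors.filter (fun p : ℕ => z < (p : ℝ))).card * (1 / 60000 : ℝ) := by
            rw [sum_const, nsmul_eq_mul]
        _ ≤ 300 * (1 / 60000 : ℝ) := by
            apply mul_le_mul_of_nonneg_right _ (by norm_num)
            exact_mod_cast hfew
        _ = 1 / 200 := by norm_num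
    linarith
  · rw [← hD]
    exact not_lt.1 h5
  · refine ⟨q1, q2, h.p1, h.p2, ?_, ?_, h.l1, h.u1, h.l2, h.u2⟩
    · rw [← hD]
      refine dvd_trans ?_ hgD
      push_cast
      exact dvd_mul_right _ _
    · rw [← hD]
      refine dvd_trans ?_ hgD
      push_cast
      exact dvd_mul_left _ _

end Pool.Agent.H6.LP
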