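import Pool.Agent.H6.LP.Defs
import Pool.Agent.H6.LP.Rts

/-!
# [H6 LP QSU] Sum of `1/p` over the primes of `(A^α, A^β]` with a cube root of `k`

PROOF. Let `S x = ∑_{p <= x} nu log p/p`. `MertensOne`: `S x/log x -> 1`. With `x = A^α`, `A^β` (both tend to infinity): `S(A^β) >= (β - (β-α)/4) log A`, `S(A^α) <= (α + (β-α)/4) log A` for large `A`, so `S(A^β) - S(A^α) >= (β-α)/2 * log A`. The difference is the sum over the
primes `A^α < p <= A^β` (`p <= ⌊A^α⌋₊` iff `(p:ℝ) <= A^α`), only the `p` with `nu >= 1` contribute, and `nu log p/p <= 3 β log A/p` (`nu_le`, `p <= A^β`). Divide by `3 β log A > 0`.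
-/

set_option autoImplicit false

namespace Pool.Agent.H6.LP

open Finset

theorem qsum (k : ℤ) (hM : MertensOne k) (α β : ℝ) (h0 : 0 < α) (h1 : α < β) : ∃ A0 : ℝ, 1 < A0 ∧ ∀ A : ℝ, A0 ≤ A →
    (β - α) / (6 * β) ≤ ∑ p ∈ (Icc 1 ⌊A ^ β⌋₊).filter (fun p : ℕ => p.Prime ∧ A ^ α < (p : ℝ) ∧ 1 ≤ nu k p), 1 / (p : ℝ) := by
  classical
  have hβ : 0 < β := h0.trans h1
  set S : ℝ → ℝ := fun x => ∑ p ∈ (Icc 1 ⌊x⌋₊).filter Nat.Prime, (nu k p : ℝ) * Real.log p / p with hS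
  set ε : ℝ := (β - α) / (4 * β) with hε
  have hε0 : 0 < ε := by
    rw [hε]
    have : 0 < β - α := by linarith
    positivity
  have hM' : Filter.Tendsto (fun x : ℝ => S x / Real.log x) Filter.atTop (nhds 1) := hM
  have ev1 : ∀ᶠ x : ℝ in Filter.atTop, 1 - ε < S x / Real.log x ∧ S x / Real.log x < 1 + ε :=
    (hM'.eventually_const_lt (by linarith)).and (hM'.eventually_lt_const (by linarith))
  have ev2 : ∀ᶠ A : ℝ in Filter.atTop, 1 - ε < S (A ^ β) / Real.log (A ^ β) ∧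
      S (A ^ β) / Real.log (A ^ β) < 1 + ε := (tendsto_rpow_atTop hβ).eventually ev1
  have ev3 : ∀ᶠ A : ℝ in Filter.atTop, 1 - ε < S (A ^ α) / Real.log (A ^ α) ∧
      S (A ^ α) / Real.log (A ^ α) < 1 + ε := (tendsto_rpow_atTop h0).eventually ev1
  obtain ⟨A1, hA1⟩ := Filter.eventually_atTop.mp (ev2.and ev3)
  refine ⟨max A1 2, lt_of_lt_of_le (by norm_num) (le_max_right _ _), ?_⟩
  intro A hA
  obtain ⟨⟨e1, _⟩, ⟨_, e4⟩⟩ := hA1 A ((le_max_left _ _).trans hA)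
  have hA2 : 2 ≤ A := (le_max_right _ _).trans hA
  have hA0 : 0 < A := by linarith
  have hA1' : 1 ≤ A := by linarith
  have hlog : 0 < Real.log A := Real.log_pos (by linarith)
  rw [Real.log_rpow hA0, lt_div_iff₀ (by positivity)] at e1
  rw [Real.log_rpow hA0, div_lt_iff₀ (by positivity)] at e4
  have hdiff : (β - α) / 2 * Real.log A ≤ S (A ^ β) - S (A ^ α) := by
    have h2 : ε * β = (β - α) / 4 := by
      rw [hε]
      field_simp
    have h3 : ε * α ≤ ε * β := mul_le_mul_of_nonneg_left h1.le hε0.le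
    have h4 : (1 - ε) * (β * Real.log A) = (β - (β - α) / 4) * Real.log A := by
      rw [← h2]; ring
    have h5 : (1 + ε) * (α * Real.log A) ≤ (α + (β - α) / 4) * Real.log A := by
      have h6 : (1 + ε) * α ≤ α + (β - α) / 4 := by nlinarith
      nlinarith
    nlinarith
  have hAα : A ^ α ≤ A ^ β := Real.rpow_le_rpow_of_exponent_le hA1' h1.le
  have hsplit : S (A ^ β) = ∑ p ∈ ((Icc 1 ⌊A ^ β⌋₊).filter Nat.Prime).filter (fun p : ℕ => A ^ α < (p : ℝ)),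
      (nu k p : ℝ) * Real.log p / p + S (A ^ α) := by
    simp only [hS]
    rw [← Finset.sum_filter_add_sum_filter_not ((Icc 1 ⌊A ^ β⌋₊).filter Nat.Prime)
      (fun p : ℕ => A ^ α < (p : ℝ))]
    congr 1
    apply Finset.sum_congr _ (fun _ _ => rfl)
    ext p
    simp only [Finset.mem_filter, Finset.mem_Icc, not_lt]
    constructor
    · rintro ⟨⟨⟨a1, a2⟩, a3⟩, a4⟩
      exact ⟨⟨a1, Nat.le_floor a4⟩, a3⟩
    · rintro ⟨⟨a1, a2⟩, a3⟩
      have a4 : (p : ℝ) ≤ A ^ α := (Nat.le_floor_iff (by positivity)).mp a2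
      exact ⟨⟨⟨a1, Nat.le_floor (a4.trans hAα)⟩, a3⟩, a4⟩
  have hbound : ∑ p ∈ ((Icc 1 ⌊A ^ β⌋₊).filter Nat.Prime).filter (fun p : ℕ => A ^ α < (p : ℝ)),
      (nu k p : ℝ) * Real.log p / p ≤ 3 * (β * Real.log A) *
      ∑ p ∈ (Icc 1 ⌊A ^ β⌋₊).filter (fun p : ℕ => p.Prime ∧ A ^ α < (p : ℝ) ∧ 1 ≤ nu k p), 1 / (p : ℝ) := by
    rw [Finset.mul_sum]
    have hsub : (Icc 1 ⌊A ^ β⌋₊).filter (fun p : ℕ => p.Prime ∧ A ^ α < (p : ℝ) ∧ 1 ≤ nu k p) ⊆
        ((Icc 1 ⌊A ^ β⌋₊).filter Nat.Prime).filter (fun p : ℕ => A ^ α < (p : ℝ)) := by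
      intro p hp
      rw [Finset.mem_filter] at hp
      rw [Finset.mem_filter, Finset.mem_filter]
      exact ⟨⟨hp.1, hp.2.1⟩, hp.2.2.1⟩
    rw [← Finset.sum_subset hsub]
    · refine Finset.sum_le_sum fun p hp => ?_
      rw [Finset.mem_filter, Finset.mem_Icc] at hp
      obtain ⟨⟨a1, a2⟩, a3, a4, a5⟩ := hp
      have hp0 : (0 : ℝ) < p := by exact_mod_cast a3.pos
      have hpβ : (p : ℝ) ≤ A ^ β := (Nat.le_floor_iff (by positivity)).mp a2
      have hlp : Real.log p ≤ β * Real.log A := by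
        rw [← Real.log_rpow hA0]
        exact Real.log_le_log hp0 hpβ
      have hlp0 : 0 ≤ Real.log p := Real.log_nonneg (by exact_mod_cast a1)
      have hnu : (nu k p : ℝ) ≤ 3 := by exact_mod_cast nu_le k p a3
      rw [mul_one_div]
      apply div_le_div_of_nonneg_right _ hp0.le
      exact mul_le_mul hnu hlp hlp0 (by norm_num)
    · intro p hp hnot
      rw [Finset.mem_filter, Finset.mem_filter] at hp
      have : nu k p = 0 := by
        by_contra hne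
        apply hnot
        rw [Finset.mem_filter]
        exact ⟨hp.1.1, hp.1.2, hp.2, by omega⟩
      rw [this]
      simp
  have hfin : (β - α) / 2 * Real.log A ≤ 3 * (β * Real.log A) *
      ∑ p ∈ (Icc 1 ⌊A ^ β⌋₊).filter (fun p : ℕ => p.Prime ∧ A ^ α < (p : ℝ) ∧ 1 ≤ nu k p), 1 / (p : ℝ) := by
    rw [hsplit] at hdiff
    linarith
  rw [div_le_iff₀ (by positivity)]
  have h7 : Real.log A * (β - α) ≤ Real.log A * ((∑ p ∈ (Icc 1 ⌊A ^ β⌋₊).filter
      (fun p : ℕ => p.Prime ∧ A ^ α < (p : ℝ) ∧ 1 ≤ nu k p), 1 / (p : ℝ)) * (6 * β)) := by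
    linarith
  exact le_of_mul_le_mul_left h7 hlog

end Pool.Agent.H6.LP
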