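import Pool.Agent.H6.LP.Defs
import Pool.Agent.H6.LP.QSum
import Pool.Agent.H6.LP.CntL
import Pool.Agent.H6.LP.BdI
import Pool.Agent.H6.LP.BdII
import Pool.Agent.H6.LP.BdIII
import Pool.Agent.H6.LP.BdIV
import Pool.Agent.H6.LP.BdV
import Pool.Agent.H6.LP.GdOf

/-!
# [H6 LP PAI] Theorem (G): a positive proportion of the pairs `(b,c)` is good

PROOF. `w1` = the maximum of the `w1` of `bdI`, `bdII`, `bdIV`. `Q1` = primes `q1` with `A^(3/5) < q1 <= A^(13/20)`, `nu k q1 >= 1`; `Q2` = primes `q2` with `A^(13/20) < q2 <= A^(7/10)`, `nu k q2 >= 1`. For `q1 in Q1`, `q2 in Q2` choose roots (`root_ex`) and `r = r(q1,q2)` (`root_crt`, `q1 /= q2`), so `PQ k Q A q1 q2 r` (for `A` so large that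
`A^(3/5) > Q`: a prime `q > Q` does not divide `Q`). Let `S(q1,q2) = SG k Q M A (q1 q2) r`, `Y = A/Q`. By `cntL` `#S(q1,q2) >= Y^2/(4g)`, `g = q1 q2`. Let `G` = the image under `v ↦ (pb, pc)` (injective, `pb_pc_inj`) of the `v in Bx` with `Good`. `S(q1,q2)` is covered by its good points and the bad ones of the types (i), (ii), (iii), (iv), (v)
(`gd_of`): `Y^2/(4g) <= #(S ∩ good) + 4 Y^2/(40g) + #(S ∩ iii)`, so `(3/20) Y^2/g <= #(S ∩ good) + #(S ∩ iii)`. Sum over `(q1,q2)`: `∑ 1/g = (∑ 1/q1)(∑ 1/q2) >= (1/100)^2` (`qsum` with `(3/5,13/20)`: `(1/20)/(39/10) = 1/78`, and `(13/20,7/10)`: `(1/20)/(21/5) = 1/84`). Each `v` is in at most `5 * 5 = 25` of the sets `S(q1,q2)`: `q1, q2` divide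
`D` and are `> A^(3/5)`: `few_big` with `α = 3/5`, `T = 5` (`3 < 18/5`). So `(3/20) 10^(-4) Y^2 <= 25 #G + 25 C A^(199/100)` (`bdIII`), hence `#G >= 10^(-7) (A/Q)^2` for large `A`. `c = 10^(-7)/Q^2`.
-/

set_option autoImplicit false

namespace Pool.Agent.H6.LP

open Finset

private theorem cov_sum (X : Finset (ℕ × ℕ)) (S : ℕ × ℕ → Finset (ℤ × ℤ)) (H : Finset (ℤ × ℤ))
    (hX : ∀ v ∈ H, ((X.filter (fun q => v ∈ S q)).card : ℝ) ≤ 25) :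
    ∑ q ∈ X, (((S q).filter (fun v => v ∈ H)).card : ℝ) ≤ 25 * H.card := by
  classical
  have h1 : ∀ q ∈ X, (((S q).filter (fun v => v ∈ H)).card : ℝ) =
      ∑ v ∈ H, if v ∈ S q then (1 : ℝ) else 0 := by
    intro q _
    rw [← sum_filter, sum_const, nsmul_eq_mul, mul_one]
    congr 2
    ext v
    rw [mem_filter, mem_filter]
    exact and_comm
  rw [sum_congr rfl h1, sum_comm]
  calc ∑ v ∈ H, ∑ q ∈ X, (if v ∈ S q then (1 : ℝ) else 0) ≤ ∑ _v ∈ H, (25 : ℝ) := by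
        apply sum_le_sum
        intro v hv
        rw [← sum_filter, sum_const, nsmul_eq_mul, mul_one]
        exact hX v hv
    _ = 25 * H.card := by
        rw [sum_const, nsmul_eq_mul]
        ring

theorem pairs (k : ℤ) (hk : ∀ a : ℤ, a ^ 3 ≠ k) (hM1 : MertensOne k) : ∃ w1 : ℕ, ∀ Q w : ℕ, w1 ≤ w → QW k Q w →
    ∀ M : ℝ, 1 ≤ M → ∀ ε : ℝ, 0 < ε → ε ≤ 1 → ∀ τ : ℝ, 0 < τ → τ ≤ ε / 10 ^ 5 →
    ∃ c A0 : ℝ, 0 < c ∧ 1 < A0 ∧ ∀ A : ℝ, A0 ≤ A → ∃ G : Finset (ℤ × ℤ), c * A ^ 2 ≤ G.card ∧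
      ∀ x ∈ G, Good k Q M A τ ε x.1 x.2 := by
  classical
  obtain ⟨wa, Ha⟩ := bdI k hk
  obtain ⟨wb, Hb⟩ := bdII k hk
  obtain ⟨wd, Hd⟩ := bdIV k hk
  refine ⟨max wa (max wb wd), fun Q w hw hQ M hM ε hε hε1 τ hτ hτ1 => ?_⟩
  obtain ⟨Aa, hAa, Ha⟩ := Ha Q w ((le_max_left _ _).trans hw) hQ M hM
  obtain ⟨Ab, hAb, Hb⟩ := Hb Q w (((le_max_left _ _).trans (le_max_right _ _)).trans hw) hQ M hM
  obtain ⟨Ad, hAd, Hd⟩ := Hd Q w (((le_max_right _ _).trans (le_max_right _ _)).trans hw) hQ M hM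
  obtain ⟨C, Ac, hC, hAc, Hc⟩ := bdIII k hk Q w hQ M hM
  obtain ⟨Ae, hAe, He⟩ := bdV k hk Q w hQ M hM ε hε hε1 τ hτ hτ1
  obtain ⟨Ag, hAg, Hg⟩ := gd_of k hk Q w hQ M hM τ ε
  obtain ⟨Al, hAl, Hl⟩ := cntL k hk Q hQ.pos M hM
  obtain ⟨Af, hAf, Hf⟩ := few_big k Q hQ.pos M hM (3 / 5) (by norm_num) 5 (by norm_num)
  obtain ⟨A1, hA1, H1⟩ := qsum k hM1 (3 / 5) (13 / 20) (by norm_num) (by norm_num)
  obtain ⟨A2, hA2, H2⟩ := qsum k hM1 (13 / 20) (7 / 10) (by norm_num) (by norm_num)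
  have hQR : (0 : ℝ) < Q := by exact_mod_cast hQ.pos
  obtain ⟨Am, hAm⟩ : ∃ Am : ℝ, Am = Aa + Ab + Ad + Ac + Ae + Ag + Al + Af + A1 + A2 +
    ((Q : ℝ) + 1) ^ 2 + (C * Q ^ 2 * 10 ^ 7) ^ (100 : ℕ) := ⟨_, rfl⟩
  have hq2 : 0 < ((Q : ℝ) + 1) ^ 2 := by positivity
  have hcq : 0 < (C * Q ^ 2 * 10 ^ 7) ^ (100 : ℕ) := by positivity
  refine ⟨1 / 10 ^ 7 / Q ^ 2, Am, by positivity, by rw [hAm]; linarith, fun A hA => ?_⟩
  have ha : Aa ≤ A := by linarith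
  have hb : Ab ≤ A := by linarith
  have hd : Ad ≤ A := by linarith
  have hc : Ac ≤ A := by linarith
  have he : Ae ≤ A := by linarith
  have hg : Ag ≤ A := by linarith
  have hl : Al ≤ A := by linarith
  have hf : Af ≤ A := by linarith
  have h1 : A1 ≤ A := by linarith
  have h2 : A2 ≤ A := by linarith
  have hAQ : ((Q : ℝ) + 1) ^ 2 ≤ A := by linarith
  have hAC : (C * Q ^ 2 * 10 ^ 7) ^ (100 : ℕ) ≤ A := by linarith
  have hA0 : 1 < A := by linarith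
  have hAp : 0 < A := by linarith
  obtain ⟨Y, hY⟩ : ∃ Y : ℝ, Y = A / Q := ⟨_, rfl⟩
  have hY0 : 0 < Y := by rw [hY]; positivity
  -- the primes are larger than `Q`
  have hQA : (Q : ℝ) < A ^ (3 / 5 : ℝ) := by
    have h3 : ((Q : ℝ) + 1) = (((Q : ℝ) + 1) ^ 2) ^ (1 / 2 : ℝ) := by
      rw [← Real.rpow_natCast, ← Real.rpow_mul (by positivity)]
      norm_num
    have h4 : (((Q : ℝ) + 1) ^ 2) ^ (1 / 2 : ℝ) ≤ A ^ (1 / 2 : ℝ) :=
      Real.rpow_le_rpow hq2.le hAQ (by norm_num)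
    have h5 : A ^ (1 / 2 : ℝ) ≤ A ^ (3 / 5 : ℝ) :=
      Real.rpow_le_rpow_of_exponent_le hA0.le (by norm_num)
    linarith
  obtain ⟨X1, hX1⟩ : ∃ X1 : Finset ℕ, X1 = (Icc 1 ⌊A ^ (13 / 20 : ℝ)⌋₊).filter
    (fun p : ℕ => p.Prime ∧ A ^ (3 / 5 : ℝ) < (p : ℝ) ∧ 1 ≤ nu k p) := ⟨_, rfl⟩
  obtain ⟨X2, hX2⟩ : ∃ X2 : Finset ℕ, X2 = (Icc 1 ⌊A ^ (7 / 10 : ℝ)⌋₊).filter
    (fun p : ℕ => p.Prime ∧ A ^ (13 / 20 : ℝ) < (p : ℝ) ∧ 1 ≤ nu k p) := ⟨_, rfl⟩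
  have H1 := H1 A h1
  have H2 := H2 A h2
  rw [← hX1] at H1
  rw [← hX2] at H2
  have hA35 : A ^ (3 / 5 : ℝ) ≤ A ^ (13 / 20 : ℝ) :=
    Real.rpow_le_rpow_of_exponent_le hA0.le (by norm_num)
  have hpq : ∀ q : ℕ × ℕ, q ∈ X1 ×ˢ X2 → ∃ r : ℤ, PQ k Q A q.1 q.2 r := by
    intro q hq
    rw [mem_product, hX1, hX2, mem_filter, mem_filter, mem_Icc, mem_Icc] at hq
    obtain ⟨⟨⟨-, a1⟩, a2, a3, a4⟩, ⟨⟨-, b1⟩, b2, b3, b4⟩⟩ := hq
    have a1' : (q.1 : ℝ) ≤ A ^ (13 / 20 : ℝ) := (Nat.le_floor_iff (by positivity)).1 a1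
    have b1' : (q.2 : ℝ) ≤ A ^ (7 / 10 : ℝ) := (Nat.le_floor_iff (by positivity)).1 b1
    have hne : q.1 ≠ q.2 := by
      intro h3
      rw [h3] at a1'
      linarith
    have hcp : Nat.Coprime q.1 q.2 := (Nat.coprime_primes a2 b2).2 hne
    obtain ⟨s, hs⟩ := root_ex k q.1 a2 a4
    obtain ⟨t, ht⟩ := root_ex k q.2 b2 b4
    obtain ⟨r, -, -, hr⟩ := root_crt k q.1 q.2 hcp s t hs ht
    refine ⟨r, a2, b2, a3, a1', b3, b1', hr, ?_⟩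
    have hnd : ∀ p : ℕ, p.Prime → A ^ (3 / 5 : ℝ) < (p : ℝ) → Nat.Coprime Q p := by
      intro p hp hpA
      apply Nat.Coprime.symm
      rw [Nat.Prime.coprime_iff_not_dvd hp]
      intro h3
      have h4 : (p : ℝ) ≤ Q := by exact_mod_cast Nat.le_of_dvd hQ.pos h3
      linarith
    exact Nat.Coprime.mul_right (hnd _ a2 a3) (hnd _ b2 (by linarith))
  choose! r hr using hpq
  obtain ⟨S, hS⟩ : ∃ S : ℕ × ℕ → Finset (ℤ × ℤ), S = fun q => SG k Q M A (q.1 * q.2) (r q) :=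
    ⟨_, rfl⟩
  obtain ⟨Gd, hGd⟩ : ∃ Gd, Gd = (Bx k Q M A).filter
    (fun v => Good k Q M A τ ε (pb Q v) (pc Q v)) := ⟨_, rfl⟩
  obtain ⟨B3, hB3⟩ : ∃ B3, B3 = (Bx k Q M A).filter
    (fun v => IsCoprime (pb Q v) (pc Q v) ∧
        ∃ p : ℕ, p.Prime ∧ A ^ (1 / 100 : ℝ) < (p : ℝ) ∧ ((p ^ 2 : ℕ) : ℤ) ∣ DD k (pb Q v) (pc Q v)) :=
    ⟨_, rfl⟩
  -- one pair of primes
  have hone : ∀ q ∈ X1 ×ˢ X2, 3 / 20 * Y ^ 2 * ((1 / (q.1 : ℝ)) * (1 / (q.2 : ℝ))) ≤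
      (((S q).filter (fun v => v ∈ B3)).card : ℝ) + (((S q).filter (fun v => v ∈ Gd)).card : ℝ) := by
    intro q hq
    have hPQ := hr q hq
    have hSq : S q = SG k Q M A (q.1 * q.2) (r q) := by rw [hS]
    obtain ⟨g, hgd⟩ : ∃ g : ℝ, g = ((q.1 * q.2 : ℕ) : ℝ) := ⟨_, rfl⟩
    have hg0 : 0 < g := by
      rw [hgd]
      exact_mod_cast Nat.mul_pos hPQ.p1.pos hPQ.p2.pos
    have L := Hl A hl q.1 q.2 (r q) hPQ
    rw [← hSq, ← hgd, ← hY] at L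
    obtain ⟨S1, hS1⟩ : ∃ S1, S1 = (S q).filter (fun v => ¬ IsCoprime (pb Q v) (pc Q v)) := ⟨_, rfl⟩
    obtain ⟨S2, hS2⟩ : ∃ S2, S2 = (S q).filter (fun v => IsCoprime (pb Q v) (pc Q v) ∧
        ∃ p : ℕ, p.Prime ∧ (p : ℝ) ≤ A ^ (1 / 100 : ℝ) ∧ ((p ^ 2 : ℕ) : ℤ) ∣ DD k (pb Q v) (pc Q v)) :=
      ⟨_, rfl⟩
    obtain ⟨S4, hS4⟩ : ∃ S4, S4 = (S q).filter (fun v => IsCoprime (pb Q v) (pc Q v) ∧
        1 / 200 < ∑ p ∈ (DD k (pb Q v) (pc Q v)).natAbs.primeFactors.filter (fun p : ℕ => (p : ℝ) ≤ A ^ (1 / 100 : ℝ)),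
          1 / (p : ℝ)) := ⟨_, rfl⟩
    obtain ⟨S5, hS5⟩ : ∃ S5, S5 = (S q).filter (fun v => IsCoprime (pb Q v) (pc Q v) ∧
        A ^ ε < smp (DD k (pb Q v) (pc Q v)) (A ^ τ)) := ⟨_, rfl⟩
    have c1 := Ha A ha q.1 q.2 (r q) hPQ S1 (by
      intro v hv
      rw [hS1, mem_filter, hSq] at hv
      exact hv)
    have c2 := Hb A hb q.1 q.2 (r q) hPQ S2 (by
      intro v hv
      rw [hS2, mem_filter, hSq] at hv
      exact hv)
    have c4 := Hd A hd q.1 q.2 (r q) hPQ S4 (by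
      intro v hv
      rw [hS4, mem_filter, hSq] at hv
      exact hv)
    have c5 := He A he q.1 q.2 (r q) hPQ S5 (by
      intro v hv
      rw [hS5, mem_filter, hSq] at hv
      exact hv)
    rw [← hgd, ← hY] at c1 c2 c4 c5
    have hcov : S q ⊆ S1 ∪ (S2 ∪ (S4 ∪ (S5 ∪ ((S q).filter (fun v => v ∈ B3) ∪
        (S q).filter (fun v => v ∈ Gd))))) := by
      intro v hv
      have hvS : v ∈ SG k Q M A (q.1 * q.2) (r q) := hSq ▸ hv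
      have hvB : v ∈ Bx k Q M A := by
        unfold SG at hvS
        exact (mem_filter.1 hvS).1
      rw [mem_union, mem_union, mem_union, mem_union, mem_union]
      by_cases k1 : IsCoprime (pb Q v) (pc Q v)
      swap
      · left
        rw [hS1]
        exact mem_filter.2 ⟨hv, k1⟩
      right
      by_cases k2 : ∃ p : ℕ, p.Prime ∧ (p : ℝ) ≤ A ^ (1 / 100 : ℝ) ∧
          ((p ^ 2 : ℕ) : ℤ) ∣ DD k (pb Q v) (pc Q v)
      · left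
        rw [hS2]
        exact mem_filter.2 ⟨hv, k1, k2⟩
      right
      by_cases k4 : 1 / 200 < ∑ p ∈ (DD k (pb Q v) (pc Q v)).natAbs.primeFactors.filter
          (fun p : ℕ => (p : ℝ) ≤ A ^ (1 / 100 : ℝ)), 1 / (p : ℝ)
      · left
        rw [hS4]
        exact mem_filter.2 ⟨hv, k1, k4⟩
      right
      by_cases k5 : A ^ ε < smp (DD k (pb Q v) (pc Q v)) (A ^ τ)
      · left
        rw [hS5]
        exact mem_filter.2 ⟨hv, k1, k5⟩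
      right
      by_cases k3 : ∃ p : ℕ, p.Prime ∧ A ^ (1 / 100 : ℝ) < (p : ℝ) ∧
          ((p ^ 2 : ℕ) : ℤ) ∣ DD k (pb Q v) (pc Q v)
      · left
        rw [mem_filter, hB3, mem_filter]
        exact ⟨hv, hvB, k1, k3⟩
      right
      rw [mem_filter, hGd, mem_filter]
      exact ⟨hv, hvB, Hg A hg q.1 q.2 (r q) hPQ v hvS k1 k2 k3 k4 k5⟩
    have hcard : ((S q).card : ℝ) ≤ S1.card + (S2.card + (S4.card + (S5.card +
        ((((S q).filter (fun v => v ∈ B3)).card : ℝ) +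
          ((S q).filter (fun v => v ∈ Gd)).card)))) := by
      have h3 := (card_le_card hcov).trans ((card_union_le _ _).trans (Nat.add_le_add_left
        ((card_union_le _ _).trans (Nat.add_le_add_left ((card_union_le _ _).trans
        (Nat.add_le_add_left ((card_union_le _ _).trans (Nat.add_le_add_left
        (card_union_le _ _) _)) _)) _)) _))
      exact_mod_cast h3
    have h3 : (1 / (q.1 : ℝ)) * (1 / (q.2 : ℝ)) = 1 / g := by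
      rw [hgd]
      push_cast
      field_simp
    rw [h3]
    have h4 : Y ^ 2 / (4 * g) = 1 / 4 * (Y ^ 2 / g) := by field_simp
    have h5 : Y ^ 2 / (40 * g) = 1 / 40 * (Y ^ 2 / g) := by field_simp
    have h6 : 3 / 20 * Y ^ 2 * (1 / g) = 3 / 20 * (Y ^ 2 / g) := by ring
    rw [h4] at L
    rw [h5] at c1 c2 c4 c5
    rw [h6]
    linarith
  -- multiplicity
  have hmult : ∀ v ∈ Bx k Q M A, (((X1 ×ˢ X2).filter (fun q => v ∈ S q)).card : ℝ) ≤ 25 := by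
    intro v hv
    obtain ⟨L, hL⟩ : ∃ L, L = (DD k (pb Q v) (pc Q v)).natAbs.primeFactors.filter
      (fun p : ℕ => A ^ (3 / 5 : ℝ) < (p : ℝ)) := ⟨_, rfl⟩
    have hLc : L.card ≤ 5 := hL ▸ Hf A hf v hv
    have hD : DD k (pb Q v) (pc Q v) ≠ 0 := by
      obtain ⟨-, -, -, -, b5, -⟩ := bx_bd k Q hQ.pos M A hM hA0.le v hv
      intro h3
      rw [h3, Int.cast_zero] at b5
      have : 0 < A ^ 3 := by positivity
      linarith
    have hsub : (X1 ×ˢ X2).filter (fun q => v ∈ S q) ⊆ L ×ˢ L := by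
      intro q hq
      rw [mem_filter] at hq
      have hPQ := hr q hq.1
      have hvS : v ∈ SG k Q M A (q.1 * q.2) (r q) := by
        have h3 := hq.2
        rw [hS] at h3
        exact h3
      unfold SG at hvS
      have h4 := (mem_filter.1 hvS).2
      have h5 : ((q.1 * q.2 : ℕ) : ℤ) ∣ DD k (pb Q v) (pc Q v) :=
        lat_dvd k (r q) _ hPQ.rt _ _ h4
      have h6 : q.1 * q.2 ∣ (DD k (pb Q v) (pc Q v)).natAbs := Int.natCast_dvd.1 h5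
      rw [mem_product, hL, mem_filter, mem_filter, Nat.mem_primeFactors, Nat.mem_primeFactors]
      refine ⟨⟨⟨hPQ.p1, (dvd_mul_right _ _).trans h6, Int.natAbs_ne_zero.2 hD⟩, hPQ.l1⟩,
        ⟨⟨hPQ.p2, (dvd_mul_left _ _).trans h6, Int.natAbs_ne_zero.2 hD⟩, ?_⟩⟩
      exact hA35.trans_lt hPQ.l2
    have h3 := card_le_card hsub
    rw [card_product] at h3
    have h4 : L.card * L.card ≤ 5 * 5 := Nat.mul_le_mul hLc hLc
    have h5 : ((X1 ×ˢ X2).filter (fun q => v ∈ S q)).card ≤ 25 := h3.trans h4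
    exact_mod_cast h5
  have hs1 := cov_sum (X1 ×ˢ X2) S B3 (fun v hv => hmult v (by
    rw [hB3, mem_filter] at hv
    exact hv.1))
  have hs2 := cov_sum (X1 ×ˢ X2) S Gd (fun v hv => hmult v (by
    rw [hGd, mem_filter] at hv
    exact hv.1))
  have hB3c : (B3.card : ℝ) ≤ C * A ^ (199 / 100 : ℝ) := Hc A hc B3 (by
    intro v hv
    rw [hB3, mem_filter] at hv
    exact hv)
  have hmain : 3 / 20 * Y ^ 2 * ((1 / 78) * (1 / 84)) ≤ 25 * B3.card + 25 * Gd.card := by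
    have h3 : 3 / 20 * Y ^ 2 * ((∑ p ∈ X1, 1 / (p : ℝ)) * ∑ p ∈ X2, 1 / (p : ℝ)) ≤
        25 * B3.card + 25 * Gd.card := by
      rw [sum_mul_sum, ← sum_product', mul_sum]
      calc ∑ q ∈ X1 ×ˢ X2, 3 / 20 * Y ^ 2 * (1 / (q.1 : ℝ) * (1 / (q.2 : ℝ)))
          ≤ ∑ q ∈ X1 ×ˢ X2, ((((S q).filter (fun v => v ∈ B3)).card : ℝ) +
            (((S q).filter (fun v => v ∈ Gd)).card : ℝ)) := sum_le_sum hone
        _ ≤ 25 * B3.card + 25 * Gd.card := by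
            rw [sum_add_distrib]
            exact add_le_add hs1 hs2
    refine le_trans ?_ h3
    apply mul_le_mul_of_nonneg_left _ (by positivity)
    have h4 : (1 / 78 : ℝ) ≤ ∑ p ∈ X1, 1 / (p : ℝ) := by
      refine le_trans (le_of_eq ?_) H1
      norm_num
    have h5 : (1 / 84 : ℝ) ≤ ∑ p ∈ X2, 1 / (p : ℝ) := by
      refine le_trans (le_of_eq ?_) H2
      norm_num
    exact mul_le_mul h4 h5 (by norm_num) (by linarith)
  have hsmall : C * A ^ (199 / 100 : ℝ) ≤ 1 / 10 ^ 7 * Y ^ 2 := by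
    have h3 : C * Q ^ 2 * 10 ^ 7 ≤ A ^ (1 / 100 : ℝ) := by
      have h4 : ((C * Q ^ 2 * 10 ^ 7) ^ (100 : ℕ)) ^ (1 / 100 : ℝ) ≤ A ^ (1 / 100 : ℝ) :=
        Real.rpow_le_rpow hcq.le hAC (by norm_num)
      have h5 : ((C * Q ^ 2 * 10 ^ 7) ^ (100 : ℕ)) ^ (1 / 100 : ℝ) = C * Q ^ 2 * 10 ^ 7 := by
        rw [← Real.rpow_natCast, ← Real.rpow_mul (by positivity)]
        norm_num
      rw [h5] at h4
      exact h4
    have h6 : A ^ 2 = A ^ (199 / 100 : ℝ) * A ^ (1 / 100 : ℝ) := by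
      rw [← Real.rpow_add hAp, ← Real.rpow_natCast]
      norm_num
    rw [hY, div_pow, h6]
    have h7 : 1 / 10 ^ 7 * (A ^ (199 / 100 : ℝ) * A ^ (1 / 100 : ℝ) / (Q : ℝ) ^ 2) =
        A ^ (199 / 100 : ℝ) * (A ^ (1 / 100 : ℝ) / (10 ^ 7 * Q ^ 2)) := by
      field_simp
    rw [h7, mul_comm C]
    apply mul_le_mul_of_nonneg_left _ (by positivity)
    rw [le_div_iff₀ (by positivity)]
    calc C * (10 ^ 7 * (Q : ℝ) ^ 2) = C * Q ^ 2 * 10 ^ 7 := by ring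
      _ ≤ A ^ (1 / 100 : ℝ) := h3
  refine ⟨Gd.image (fun v : ℤ × ℤ => (pb Q v, pc Q v)), ?_, ?_⟩
  · rw [card_image_of_injective _ (pb_pc_inj Q hQ.pos)]
    have h3 : 1 / 10 ^ 7 / (Q : ℝ) ^ 2 * A ^ 2 = 1 / 10 ^ 7 * Y ^ 2 := by
      rw [hY]
      field_simp
    rw [h3]
    have hY2 : 0 < Y ^ 2 := by positivity
    linarith
  · intro x hx
    rw [mem_image] at hx
    obtain ⟨v, hv, rfl⟩ := hx
    rw [hGd, mem_filter] at hv
    exact hv.2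

end Pool.Agent.H6.LP
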