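import Pool.Agent.H23.LP.Def
import Pool.Agent.H6.LP.Pairs
import Pool.Agent.H6.LP.MOne
import Pool.Agent.H6.LP.MPrd

/-!
# [H6 LP BR] The interface theorems of chapters (G) and (M) in the notation of H23/LP
-/

set_option autoImplicit false

namespace Pool.Agent.H6.LP

open Finset

theorem nu_eq (k : ℤ) (p : ℕ) (hp : p.Prime) : H23.LP.nu k p = nu k p := by
  haveI : Fact p.Prime := ⟨hp⟩
  haveI : NeZero p := ⟨hp.ne_zero⟩
  classical
  unfold H23.LP.nu nu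
  rw [Nat.card_eq_fintype_card, Fintype.card_subtype]
  refine Finset.card_nbij' (fun t : ℕ => (t : ZMod p)) (fun t : ZMod p => t.val) ?_ ?_ ?_ ?_
  · intro t ht
    have ht' := (Finset.mem_filter.1 ht).2
    simp only [Finset.coe_filter, Finset.mem_univ, true_and, Set.mem_setOf_eq]
    have h1 := (ZMod.intCast_zmod_eq_zero_iff_dvd ((t : ℤ) ^ 3 - k) p).2 ht'
    push_cast at h1
    exact sub_eq_zero.1 h1
  · intro t ht
    simp only [Finset.coe_filter, Finset.mem_univ, true_and, Set.mem_setOf_eq] at ht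
    simp only [Finset.coe_filter, Finset.mem_range, Set.mem_setOf_eq]
    refine ⟨ZMod.val_lt t, ?_⟩
    rw [← ZMod.intCast_zmod_eq_zero_iff_dvd]
    push_cast
    rw [ZMod.natCast_zmod_val, ht, sub_self]
  · intro t ht
    have ht' := Finset.mem_range.1 (Finset.mem_filter.1 ht).1
    exact ZMod.val_cast_of_lt ht'
  · intro t _
    exact ZMod.natCast_zmod_val t

theorem mer1 (k : ℤ) (hk : ∀ t : ℤ, t ^ 3 ≠ k) (ε : ℝ) (hε : 0 < ε) : ∃ x0 : ℝ, ∀ x : ℝ, x0 ≤ x →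
    |∑ p ∈ (Icc 1 ⌊x⌋₊).filter Nat.Prime, (H23.LP.nu k p : ℝ) * Real.log p / p - Real.log x| ≤ ε * Real.log x := by
  have h := mertens_one_nu k hk
  unfold MertensOne at h
  have h1 := (Metric.tendsto_atTop.1 h) ε hε
  obtain ⟨x0, hx0⟩ := h1
  refine ⟨max x0 3, fun x hx => ?_⟩
  have hx1 := hx0 x ((le_max_left _ _).trans hx)
  have hx3 : 3 ≤ x := (le_max_right _ _).trans hx
  have hl : 0 < Real.log x := Real.log_pos (by linarith)
  have e : ∑ p ∈ (Icc 1 ⌊x⌋₊).filter Nat.Prime, (H23.LP.nu k p : ℝ) * Real.log p / p =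
      ∑ p ∈ (Icc 1 ⌊x⌋₊).filter Nat.Prime, (nu k p : ℝ) * Real.log p / p := by
    refine Finset.sum_congr rfl fun p hp => ?_
    rw [nu_eq k p (Finset.mem_filter.1 hp).2]
  rw [e]
  rw [Real.dist_eq] at hx1
  have e2 : (∑ p ∈ (Icc 1 ⌊x⌋₊).filter Nat.Prime, (nu k p : ℝ) * Real.log p / p) - Real.log x =
      ((∑ p ∈ (Icc 1 ⌊x⌋₊).filter Nat.Prime, (nu k p : ℝ) * Real.log p / p) / Real.log x - 1) * Real.log x := by
    field_simp
  rw [e2, abs_mul, abs_of_pos hl]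
  exact mul_le_mul_of_nonneg_right hx1.le hl.le

theorem mer2 (k : ℤ) (hk : ∀ t : ℤ, t ^ 3 ≠ k) : ∃ C : ℝ, ∀ x : ℝ, 2 ≤ x →
    ∑ p ∈ (Icc 1 ⌊x⌋₊).filter Nat.Prime, (H23.LP.nu k p : ℝ) / p ≤ Real.log (Real.log x) + C := by
  obtain ⟨C, hC⟩ := sum_nu_le k hk
  have e : ∀ x : ℝ, ∑ p ∈ (Icc 1 ⌊x⌋₊).filter Nat.Prime, (H23.LP.nu k p : ℝ) / p =
      ∑ p ∈ (Icc 1 ⌊x⌋₊).filter Nat.Prime, (nu k p : ℝ) / p := by
    intro x
    refine Finset.sum_congr rfl fun p hp => ?_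
    rw [nu_eq k p (Finset.mem_filter.1 hp).2]
  refine ⟨max C (Real.log (Real.log 3) + C - Real.log (Real.log 2)), fun x hx => ?_⟩
  rw [e]
  rcases le_or_gt 3 x with h3 | h3
  · have := hC x h3
    have h4 := le_max_left C (Real.log (Real.log 3) + C - Real.log (Real.log 2))
    linarith
  · have h5 := hC 3 le_rfl
    have h6 : ∑ p ∈ (Icc 1 ⌊x⌋₊).filter Nat.Prime, (nu k p : ℝ) / p ≤
        ∑ p ∈ (Icc 1 ⌊(3 : ℝ)⌋₊).filter Nat.Prime, (nu k p : ℝ) / p := by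
      refine Finset.sum_le_sum_of_subset_of_nonneg ?_ fun p _ _ => by positivity
      refine Finset.filter_subset_filter _ (Finset.Icc_subset_Icc le_rfl (Nat.floor_le_floor h3.le))
    have h7 : Real.log (Real.log 2) ≤ Real.log (Real.log x) :=
      Real.log_le_log (Real.log_pos (by norm_num)) (Real.log_le_log (by norm_num) hx)
    have h8 := le_max_right C (Real.log (Real.log 3) + C - Real.log (Real.log 2))
    linarith

theorem good_count (k : ℤ) (hk : ∀ t : ℤ, t ^ 3 ≠ k) : ∃ w0 : ℕ, ∀ w M : ℕ, w0 ≤ w → 1 ≤ M →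
    ∃ c : ℝ, 0 < c ∧ ∃ A0 : ℕ, ∀ A : ℕ, A0 ≤ A → ∃ G : Finset (ℤ × ℤ),
      (∀ x ∈ G, H23.LP.Good k w M A x.1 x.2) ∧ c * (A : ℝ) ^ 2 ≤ G.card := by
  obtain ⟨w1, hw1⟩ := pairs k hk (mertens_one_nu k hk)
  refine ⟨w1, fun w M hw hM => ?_⟩
  have hk0 : k ≠ 0 := fun h => hk 0 (by rw [h]; norm_num)
  have hQW : QW k (H23.LP.QQ k w) w := by
    refine ⟨?_, ?_, ?_⟩
    · unfold H23.LP.QQ
      have h1 : 0 < k.natAbs := Int.natAbs_pos.2 hk0
      have h2 := Nat.factorial_pos w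
      positivity
    · unfold H23.LP.QQ
      exact ⟨2 * w.factorial, by ring⟩
    · intro p hp hpw
      unfold H23.LP.QQ
      exact Dvd.dvd.mul_left ((hp.dvd_factorial).2 hpw) _
  obtain ⟨c, A0, hc, hA0, h⟩ := hw1 (H23.LP.QQ k w) w hw hQW M (by exact_mod_cast hM) 1 one_pos le_rfl
    (1 / 10 ^ 5) (by positivity) le_rfl
  refine ⟨c, hc, ⌈A0⌉₊, fun A hA => ?_⟩
  have hA' : A0 ≤ (A : ℝ) := (Nat.le_ceil _).trans (by exact_mod_cast hA)
  obtain ⟨G, hG, hg⟩ := h A hA'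
  refine ⟨G, fun x hx => ?_, hG⟩
  have g := hg x hx
  have eL : Lk k * (M : ℝ) * (A : ℝ) = ((H23.LP.LL k * ((M : ℤ) * A) : ℤ) : ℝ) := by
    unfold Lk H23.LP.LL
    push_cast
    ring
  have e06 : (0.6 : ℝ) = 3 / 5 := by norm_num
  have e065 : (0.65 : ℝ) = 13 / 20 := by norm_num
  have e07 : (0.7 : ℝ) = 7 / 10 := by norm_num
  refine ⟨?_, ?_, ?_, ?_, ?_, g.sqf, g.rc, ?_⟩
  · unfold H23.LP.Ib
    rw [Finset.mem_Ioc]
    have h1 := g.bl
    have h2 := g.bu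
    rw [eL] at h1 h2
    exact ⟨by exact_mod_cast h1, by exact_mod_cast h2⟩
  · unfold H23.LP.Ic
    rw [Finset.mem_Ioc]
    have h1 := g.cl
    have h2 := g.cu
    exact ⟨by exact_mod_cast h1, by exact_mod_cast h2⟩
  · exact ((Int.modEq_iff_dvd).2 g.bQ).symm
  · have h3 := g.cQ
    exact (Int.modEq_zero_iff_dvd).2 h3
  · exact Int.isCoprime_iff_gcd_eq_one.1 g.cop
  · obtain ⟨q1, q2, p1, p2, d1, d2, l1, u1, l2, u2⟩ := g.q12
    refine ⟨q1, q2, p1, p2, ?_, ?_, ?_, ?_, ?_⟩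
    · rw [e06]; exact l1
    · rw [e065]; exact u1
    · rw [e065]; exact l2
    · rw [e07]; exact u2
    · have hlt : (q1 : ℝ) < q2 := lt_of_le_of_lt u1 l2
      have hne : q1 ≠ q2 := by
        rintro rfl
        exact lt_irrefl _ hlt
      have hco : IsCoprime (q1 : ℤ) (q2 : ℤ) := by
        rw [Nat.isCoprime_iff_coprime]
        exact (Nat.coprime_primes p1 p2).2 hne
      push_cast
      exact hco.mul_dvd d1 d2

end Pool.Agent.H6.LP
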