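import Mathlib

/-!
# [H6 LP] Chapter (G): many pairs `(b,c)` for which `D = b^3 - k c^3` factors well; chapter (M): Mertens for `nu`

MP_4d57ea_nt, largest prime factor of `m^3+k` for every non-cube `k`. Architect of the theorem: helper23; chapters (G), (M): helper6.

`nu k p` = number of cube roots of `k` modulo `p`. `DD k b c = b^3 - k c^3` (index form). `b = 1 + Q b'`, `c = Q c'` with `(b',c')` in the
square `Bx` of side `A/Q`, so `b` runs over `(LMA, LMA + A]`, `c` over `(MA, MA + A]`, `L = |k| + 2`, `b = 1`, `c = 0` modulo `Q`.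

PLAN of (G). For primes `q1`, `q2` with `A^(3/5) < q1 <= A^(13/20) < q2 <= A^(7/10)` and a root `r` of `r^3 = k` modulo `g = q1 q2`
the lattice `{g | u - r v}` has no short vector (`g | u^3 - k v^3 /= 0`, so `max(|u|,|v|) >= (g/(1+|k|))^(1/3)`), hence it is well
distributed in every square of side `A/Q`: `SG` has at least `(A/Q)^2/(4g)` elements (`Low`). The bad ones (not coprime, `p^2 | D`,
`sum 1/p` large, product of the small primes of `D` large) are counted by `Ups` (upper bound for cosets) and Markov, the large `p^2` by `Prm`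
(coprime pairs in a lattice of index `p^2` have separated slopes).
-/

namespace Pool.Agent.H6.LP

open Finset

/-- number of cube roots of `k` modulo `p` -/
noncomputable def nu (k : ℤ) (p : ℕ) : ℕ := Nat.card {t : ZMod p // t ^ 3 = (k : ZMod p)}

/-- the index form -/
def DD (k b c : ℤ) : ℤ := b ^ 3 - k * c ^ 3

/-- `L = |k| + 2` -/
noncomputable def Lk (k : ℤ) : ℝ := |(k : ℝ)| + 2

/-- `b = 1 + Q b'` -/
def pb (Q : ℕ) (v : ℤ × ℤ) : ℤ := 1 + Q * v.1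

/-- `c = Q c'` -/
def pc (Q : ℕ) (v : ℤ × ℤ) : ℤ := Q * v.2

/-- the square of side `A/Q` for `(b',c')` -/
noncomputable def Bx (k : ℤ) (Q : ℕ) (M A : ℝ) : Finset (ℤ × ℤ) :=
  (Ioc ⌊(Lk k * M * A - 1) / Q⌋ ⌊(Lk k * M * A - 1) / Q + A / Q⌋) ×ˢ
    (Ioc ⌊M * A / Q⌋ ⌊M * A / Q + A / Q⌋)

/-- the points of the square with `b = r c` modulo `g` -/
noncomputable def SG (k : ℤ) (Q : ℕ) (M A : ℝ) (g : ℕ) (r : ℤ) : Finset (ℤ × ℤ) :=
  (Bx k Q M A).filter (fun v => (g : ℤ) ∣ pb Q v - r * pc Q v)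

/-- every vector of the lattice `{g | u - r v}` other than `0` has sup norm at least `l` -/
def Mn (g : ℕ) (r : ℤ) (l : ℝ) : Prop :=
  ∀ u v : ℤ, (u, v) ≠ (0, 0) → (g : ℤ) ∣ u - r * v → l ≤ max |(u : ℝ)| |(v : ℝ)|

/-- product of the primes `p | D` with `p <= z` -/
noncomputable def smp (D : ℤ) (z : ℝ) : ℝ := ∏ p ∈ D.natAbs.primeFactors.filter (fun p : ℕ => (p : ℝ) ≤ z), (p : ℝ)

/-- the good pairs `(b,c)` -/
structure Good (k : ℤ) (Q : ℕ) (M A τ ε : ℝ) (b c : ℤ) : Prop where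
  bl : Lk k * M * A < b
  bu : (b : ℝ) ≤ Lk k * M * A + A
  cl : M * A < c
  cu : (c : ℝ) ≤ M * A + A
  bQ : (Q : ℤ) ∣ b - 1
  cQ : (Q : ℤ) ∣ c
  cop : IsCoprime b c
  pos : 0 < DD k b c
  sqf : Squarefree (DD k b c)
  rc : ∑ p ∈ (DD k b c).natAbs.primeFactors, 1 / (p : ℝ) ≤ 1 / 100
  sm : smp (DD k b c) (A ^ τ) ≤ A ^ ε
  q12 : ∃ q1 q2 : ℕ, q1.Prime ∧ q2.Prime ∧ (q1 : ℤ) ∣ DD k b c ∧ (q2 : ℤ) ∣ DD k b c ∧
    A ^ (3 / 5 : ℝ) < q1 ∧ (q1 : ℝ) ≤ A ^ (13 / 20 : ℝ) ∧ A ^ (13 / 20 : ℝ) < q2 ∧ (q2 : ℝ) ≤ A ^ (7 / 10 : ℝ)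

/-- the lower bound for the first minimum of the lattice `{g | u - r v}`, `r^3 = k` mod `g` -/
noncomputable def ll (k : ℤ) (g : ℕ) : ℝ := ((g : ℝ) / (1 + |(k : ℝ)|)) ^ (1 / 3 : ℝ)

/-- the conditions on the modulus `Q`: it is divisible by `3 k` and by all primes up to `w` -/
structure QW (k : ℤ) (Q w : ℕ) : Prop where
  pos : 0 < Q
  h3k : 3 * k.natAbs ∣ Q
  hw : ∀ p : ℕ, p.Prime → p ≤ w → p ∣ Q

/-- the data of one pair of primes `q1`, `q2` -/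
structure PQ (k : ℤ) (Q : ℕ) (A : ℝ) (q1 q2 : ℕ) (r : ℤ) : Prop where
  p1 : q1.Prime
  p2 : q2.Prime
  l1 : A ^ (3 / 5 : ℝ) < q1
  u1 : (q1 : ℝ) ≤ A ^ (13 / 20 : ℝ)
  l2 : A ^ (13 / 20 : ℝ) < q2
  u2 : (q2 : ℝ) ≤ A ^ (7 / 10 : ℝ)
  rt : ((q1 * q2 : ℕ) : ℤ) ∣ r ^ 3 - k
  cq : Q.Coprime (q1 * q2)

/-- first Mertens theorem for `nu`, with error `o(log)` -/
def MertensOne (k : ℤ) : Prop :=
  Filter.Tendsto (fun x : ℝ => (∑ p ∈ (Icc 1 ⌊x⌋₊).filter Nat.Prime, (nu k p : ℝ) * Real.log p / p) / Real.log x)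
    Filter.atTop (nhds 1)

end Pool.Agent.H6.LP
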